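import Mathlib
import Pool.Agent.H788R3.Cor2.Asm2
import Pool.Agent.H788R3.Cor3.Asm3
import Pool.Agent.Y263.SC.AsmX

/-!
Bounded solutions of the Bezout equation for functions `f i` of the first coordinate and an arbitrary
tuple `G m`, from solutions `k m` for the tuple `G` over a neighbourhood of a sublevel set of the
functions `f i`, when the restrictions of the `k m` to the slices have bounded holomorphic extensions
(combines `Pool.Agent.H788R3.Cor3.Asm3` and `Pool.Agent.Y263.SC.AsmX`).
-/

set_option autoImplicit false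
set_option linter.unusedSectionVars false

open MeasureTheory Metric Set Filter Topology Complex
open scoped ContDiff

namespace Pool.Agent.N290.RC

open Pool.Agent.H720R2 Pool.Agent.H720R2.HP
open Pool.Agent.H788R3.Cor2 (osgood2)
open Pool.Agent.H788R3.Cor3 (mul_C1)
open Pool.Agent.Y263.SC

variable {E : Type} [NormedAddCommGroup E] [NormedSpace ℂ E] [FiniteDimensional ℂ E]

section

variable {D : Set (ℂ × E)}

variable {N M : ℕ} {f : Fin N → ℂ → ℂ} {ε ε' C : ℝ} {ι : Type} {S : Finset ι} {a : ι → ℂ}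
  {R : ι → Set ℂ} {χ : Option (Fin N) → ℂ → ℂ}

/-- **Solutions of the Bezout equation.** -/
theorem solveY (hr : Ov D) (h : CutP f ε ε' C S a R χ) (hε' : 0 < ε') (hC : 0 ≤ C)
    (hf : ∀ i, DifferentiableOn ℂ (f i) UH) (hfb : ∀ i, ∀ w ∈ UH, ‖f i w‖ ≤ 1)
    {G : Fin M → ℂ × E → ℂ} (hG : ∀ m, DifferentiableOn ℂ (G m) D)
    (hGb : ∀ m, ∀ p ∈ D, ‖G m p‖ ≤ 1)
    {O : Set ℂ} (hO : IsOpen O) (hOε : ∀ w ∈ UH, (∀ i, ‖f i w‖ ≤ ε) → w ∈ O)
    {k : Fin M → ℂ × E → ℂ} (hk : ∀ m, DifferentiableOn ℂ (k m) {p | p ∈ D ∧ p.1 ∈ O})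
    {K : ℝ} (hK0 : 0 ≤ K) (hkb : ∀ m, ∀ p ∈ D, p.1 ∈ O → ‖k m p‖ ≤ K)
    (hGk : ∀ p ∈ D, p.1 ∈ O → ∑ m, G m p * k m p = 1)
    {K' : ℝ} (hK'0 : 0 ≤ K') {e : Fin M → ℂ → ℂ × E → ℂ}
    (hX : ∀ m, Ext D (AA f ε) (fun p => (k m p)⁻¹) K' (e m)) :
    ∃ g : Fin N → ℂ × E → ℂ, ∃ g0 : Fin M → ℂ × E → ℂ, (∀ i, DifferentiableOn ℂ (g i) D) ∧
      (∀ m, DifferentiableOn ℂ (g0 m) D) ∧
      (∀ i, ∀ p ∈ D, ‖g i p‖ ≤ 1 / ε' + M * (2160 * Real.exp C * (C / ε') * K') +
        N * (2 * (2160 * Real.exp C * (2 * C / ε' ^ 2) * 1))) ∧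
      (∀ m, ∀ p ∈ D, ‖g0 m p‖ ≤ K + N * (2160 * Real.exp C * (C / ε') * K')) ∧
      ∀ p ∈ D, ∑ i, f i p.1 * g i p + ∑ m, G m p * g0 m p = 1 := by
  choose V hV1 hV2' hV3 using fun (i : Fin N) (m : Fin M) =>
    jones_opX hr h.fam (hX m) hK'0 (den1' h hε' hC hf i)
  have hV2 : ∀ (i : Fin N) (m : Fin M) (y : E), WD {w : ℂ | (w, y) ∈ D}
      (fun w => V i m (w, y)) (fun w => mu1 f S R χ i w * k m (w, y)) := by
    intro i m y
    have h1 := hV2' i m y
    simpa only [inv_inv] using h1
  choose B hB1 hB2 hB3 using fun i j => jones_opX hr h.fam (ext_one D) zero_le_one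
    (den2' h hε' hC hf i j)
  set C1 : ℝ := 2160 * Real.exp C * (C / ε') * K' with hC1
  set C2 : ℝ := 2160 * Real.exp C * (2 * C / ε' ^ 2) * 1 with hC2
  have hC10 : 0 ≤ C1 := by positivity
  have hC20 : 0 ≤ C2 := by positivity
  have hχO : ∀ w ∈ UH, χ none w ≠ 0 → w ∈ O := fun w hw hχ => hOε w hw (h.small w hw hχ)
  have hfne : ∀ i, ∀ w ∈ UH, χ (some i) w ≠ 0 → f i w ≠ 0 := by
    intro i w hw hχ
    exact norm_pos_iff.1 (lt_of_lt_of_le hε' (h.large w hw i hχ))
  have hslice : ∀ m, ∀ y : E, DifferentiableOn ℂ (fun w => G m (w, y)) {w : ℂ | (w, y) ∈ D} := by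
    intro m y w hw
    have h1 : DifferentiableAt ℂ (G m) (w, y) := (hG m).differentiableAt (hr.op.mem_nhds hw)
    have h2 : DifferentiableAt ℂ (fun w : ℂ => (w, y)) w :=
      differentiableAt_id.prodMk (differentiableAt_const _)
    exact (DifferentiableAt.comp w h1 h2).differentiableWithinAt
  have hslice2 : ∀ m, ∀ w : ℂ, DifferentiableOn ℂ (fun y : E => G m (w, y)) {y | (w, y) ∈ D} := by
    intro m w y hy
    have h1 : DifferentiableAt ℂ (G m) (w, y) := (hG m).differentiableAt (hr.op.mem_nhds hy)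
    have h2 : DifferentiableAt ℂ (fun y : E => (w, y)) y :=
      (differentiableAt_const _).prodMk differentiableAt_id
    exact (DifferentiableAt.comp y h1 h2).differentiableWithinAt
  have hDO : IsOpen {p : ℂ × E | p ∈ D ∧ p.1 ∈ O} := hr.op.inter (hO.preimage continuous_fst)
  have hkslice : ∀ m, ∀ y : E, DifferentiableOn ℂ (fun w => k m (w, y))
      ({w : ℂ | (w, y) ∈ D} ∩ O) := by
    intro m y w hw
    have h1 : DifferentiableAt ℂ (k m) (w, y) :=
      (hk m).differentiableAt (hDO.mem_nhds ⟨hw.1, hw.2⟩)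
    have h2 : DifferentiableAt ℂ (fun w : ℂ => (w, y)) w :=
      differentiableAt_id.prodMk (differentiableAt_const _)
    exact (DifferentiableAt.comp w h1 h2).differentiableWithinAt
  have hkslice2 : ∀ m, ∀ w ∈ O, DifferentiableOn ℂ (fun y : E => k m (w, y)) {y | (w, y) ∈ D} := by
    intro m w hwO y hy
    have h1 : DifferentiableAt ℂ (k m) (w, y) :=
      (hk m).differentiableAt (hDO.mem_nhds ⟨hy, hwO⟩)
    have h2 : DifferentiableAt ℂ (fun y : E => (w, y)) y :=
      (differentiableAt_const _).prodMk differentiableAt_id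
    exact (DifferentiableAt.comp y h1 h2).differentiableWithinAt
  have hO0 : ∀ y : E, ∀ w ∈ {w : ℂ | (w, y) ∈ D}, w ∉ O → ∀ᶠ z in 𝓝 w, χ none z = 0 := by
    intro y w hw hwO
    have hwU : w ∈ UH := hr.UH hw
    have h0 : ∃ i, ε < ‖f i w‖ := by
      by_contra hno
      push Not at hno
      exact hwO (hOε w hwU hno)
    obtain ⟨i, hi⟩ := h0
    have hc : ContinuousAt (f i) w := ((hf i).differentiableAt (isOpen_UH.mem_nhds hwU)).continuousAt
    have h1 : ∀ᶠ z in 𝓝 w, ε < ‖f i z‖ := hc.norm.eventually (lt_mem_nhds hi)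
    filter_upwards [h1, isOpen_UH.mem_nhds hwU] with z hz1 hz2
    by_contra hne
    exact absurd (h.small z hz2 hne i) (not_le.2 hz1)
  have hf0 : ∀ i, ∀ w ∈ UH, f i w = 0 → ∀ᶠ z in 𝓝 w, χ (some i) z = 0 := by
    intro i w hw h0
    have hc : ContinuousAt (f i) w := ((hf i).differentiableAt (isOpen_UH.mem_nhds hw)).continuousAt
    have h1 : ∀ᶠ z in 𝓝 w, ‖f i z‖ < ε' :=
      hc.norm.eventually (gt_mem_nhds (by
        change ‖f i w‖ < ε'
        rw [h0, norm_zero]; exact hε'))
    filter_upwards [h1, isOpen_UH.mem_nhds hw] with z hz1 hz2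
    by_contra hne
    exact absurd (h.large z hz2 i hne) (not_le.2 hz1)
  -- the functions
  set g0 : Fin M → ℂ × E → ℂ := fun m p => χ none p.1 * k m p + ∑ i, -f i p.1 * V i m p with hg0
  set g : Fin N → ℂ × E → ℂ := fun i p => χ (some i) p.1 / f i p.1 + ∑ m, G m p * V i m p +
    ∑ j, (f j p.1 * B j i p + -f j p.1 * B i j p) with hg
  have hχle : ∀ o, ∀ w ∈ UH, ∀ (c : ℂ) (κ : ℝ), 0 < κ → (χ o w ≠ 0 → κ ≤ ‖c‖) →
      ‖χ o w / c‖ ≤ 1 / κ := by
    intro o w hw c κ hκ hc
    by_cases hχ : χ o w = 0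
    · rw [hχ, zero_div, norm_zero]
      positivity
    · rw [norm_div]
      have h1 := hc hχ
      have h2 := h.bd o w hw
      gcongr
  have hg0b : ∀ m, ∀ p ∈ D, ‖g0 m p‖ ≤ K + N * C1 := by
    intro m p hp
    refine (norm_add_le _ _).trans (add_le_add ?_ ?_)
    · by_cases hχ : χ none p.1 = 0
      · rw [hχ, zero_mul, norm_zero]
        exact hK0
      · rw [norm_mul]
        have h1 := h.bd none p.1 (hr.im _ hp)
        have h2 := hkb m p hp (hχO _ (hr.im _ hp) hχ)
        calc ‖χ none p.1‖ * ‖k m p‖ ≤ 1 * K := by gcongr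
          _ = K := one_mul _
    · refine (norm_sum_le _ _).trans ?_
      have h1 : ∀ i ∈ Finset.univ, ‖-f i p.1 * V i m p‖ ≤ C1 := by
        intro i _
        rw [norm_mul, norm_neg]
        have h2 := hfb i p.1 (hr.im _ hp)
        have h3 := hV1 i m p hp
        calc ‖f i p.1‖ * ‖V i m p‖ ≤ 1 * C1 := by gcongr
          _ = C1 := one_mul _
      refine (Finset.sum_le_sum h1).trans (le_of_eq ?_)
      simp
  have hgb : ∀ i, ∀ p ∈ D, ‖g i p‖ ≤ 1 / ε' + M * C1 + N * (2 * C2) := by
    intro i p hp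
    refine (norm_add_le _ _).trans (add_le_add ((norm_add_le _ _).trans (add_le_add ?_ ?_)) ?_)
    · exact hχle (some i) p.1 (hr.im _ hp) (f i p.1) ε' hε' (h.large p.1 (hr.im _ hp) i)
    · refine (norm_sum_le _ _).trans ?_
      have h1 : ∀ m ∈ Finset.univ, ‖G m p * V i m p‖ ≤ C1 := by
        intro m _
        rw [norm_mul]
        have h2 := hGb m p hp
        have h3 := hV1 i m p hp
        calc ‖G m p‖ * ‖V i m p‖ ≤ 1 * C1 := by gcongr
          _ = C1 := one_mul _
      refine (Finset.sum_le_sum h1).trans (le_of_eq ?_)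
      simp
    · refine (norm_sum_le _ _).trans ?_
      have h1 : ∀ j ∈ Finset.univ, ‖f j p.1 * B j i p + -f j p.1 * B i j p‖ ≤ 2 * C2 := by
        intro j _
        refine (norm_add_le _ _).trans ?_
        rw [norm_mul, norm_mul, norm_neg]
        have h2 := hfb j p.1 (hr.im _ hp)
        have h3 := hB1 j i p hp
        have h4 := hB1 i j p hp
        calc ‖f j p.1‖ * ‖B j i p‖ + ‖f j p.1‖ * ‖B i j p‖ ≤ 1 * C2 + 1 * C2 := by gcongr
          _ = 2 * C2 := by ring
      refine (Finset.sum_le_sum h1).trans (le_of_eq ?_)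
      simp
  refine ⟨g, g0, ?_, ?_, hgb, hg0b, ?_⟩
  · intro i
    refine osgood2 hr.op (hgb i) ?_ ?_
    · intro y
      change DifferentiableOn ℂ (fun w => g i (w, y)) {w : ℂ | (w, y) ∈ D}
      obtain ⟨hc1, hc2⟩ := inv_C1 (slice_open hr y) (fun w hw => hr.UH hw)
        ((hf i).mono (fun w hw => hr.UH hw)) (h.smooth (some i))
        (fun w hw => hf0 i w (hr.UH hw))
      have hw1 : WD {w : ℂ | (w, y) ∈ D} (fun w => χ (some i) w / f i w) (fun w => db (χ (some i)) w / f i w) :=
        (WD.of_C1 (slice_open hr y) hc1).congr (slice_open hr y) (fun _ _ => rfl)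
          (fun w hw => (hc2 w hw).symm)
      have hw2 := WD.sum (slice_open hr y) (Finset.univ : Finset (Fin M))
        (V := fun m w => G m (w, y) * V i m (w, y))
        (ν := fun m w => G m (w, y) * (mu1 f S R χ i w * k m (w, y)))
        (fun m _ => (hV2 i m y).mul_holo (slice_open hr y) (hslice m y))
      have hw3 := WD.sum (slice_open hr y) (Finset.univ : Finset (Fin N))
        (V := fun j w => f j w * B j i (w, y) + -f j w * B i j (w, y))
        (ν := fun j w => f j w * (mu2 f S R χ j i w * (1 : ℂ)⁻¹) +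
          -f j w * (mu2 f S R χ i j w * (1 : ℂ)⁻¹))
        (fun j _ => ((hB2 j i y).mul_holo (slice_open hr y)
          ((hf j).mono (fun w hw => hr.UH hw))).add (slice_open hr y)
          ((hB2 i j y).mul_holo (slice_open hr y) ((hf j).mono (fun w hw => hr.UH hw)).neg))
      refine ((hw1.add (slice_open hr y) hw2).add (slice_open hr y) hw3).holo (slice_open hr y) ?_
      intro w hw
      have hwU := hr.UH hw
      have e1 : ∑ m, G m (w, y) * (mu1 f S R χ i w * k m (w, y)) =
          starRingEnd ℂ (f i w) / (DD f w : ℂ) * db (χ none) w := by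
        rw [mu1_eq h hwU]
        by_cases hd : db (χ none) w = 0
        · rw [hd]
          simp
        · have h2 : w ∈ O := hOε w hwU (fun i => h.d_none hf hwU (db_ne hd) i)
          have h3 := hGk (w, y) hw h2
          have h4 : ∀ m, G m (w, y) * (starRingEnd ℂ (f i w) / (DD f w : ℂ) * db (χ none) w *
              k m (w, y)) = (starRingEnd ℂ (f i w) / (DD f w : ℂ) * db (χ none) w) *
              (G m (w, y) * k m (w, y)) := fun m => by ring
          simp only [h4]
          rw [← Finset.mul_sum, h3, mul_one]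
      have e2 : ∑ j, (f j w * (mu2 f S R χ j i w * (1 : ℂ)⁻¹) +
          -f j w * (mu2 f S R χ i j w * (1 : ℂ)⁻¹)) = -ee f χ i w := by
        simp only [inv_one, mul_one, mu2_eq h hε' hf hwU]
        rw [Finset.sum_add_distrib]
        have h1 : ∑ j, f j w * (starRingEnd ℂ (f i w) / (DD f w : ℂ) * ee f χ j w) = 0 := by
          have h2 : ∀ j, f j w * (starRingEnd ℂ (f i w) / (DD f w : ℂ) * ee f χ j w) =
              (starRingEnd ℂ (f i w) / (DD f w : ℂ)) * (f j w * ee f χ j w) := fun j => by ring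
          simp only [h2]
          rw [← Finset.mul_sum, sum_ee h hε' hf hwU, mul_zero]
        have h3 : ∑ j, -f j w * (starRingEnd ℂ (f j w) / (DD f w : ℂ) * ee f χ i w) = -ee f χ i w := by
          by_cases he : ee f χ i w = 0
          · rw [he]
            simp
          · have h4 := (ee_ne h hε' hf hwU he).1
            have h5 : (DD f w : ℂ) ≠ 0 := by
              have : 0 < DD f w := lt_of_lt_of_le (by positivity) h4
              exact_mod_cast this.ne'
            have h6 : ∀ j, -f j w * (starRingEnd ℂ (f j w) / (DD f w : ℂ) * ee f χ i w) =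
                (f j w * starRingEnd ℂ (f j w)) * (-((DD f w : ℂ)⁻¹ * ee f χ i w)) := fun j => by ring
            simp only [h6]
            rw [← Finset.sum_mul, conj_sum, mul_neg, ← mul_assoc, mul_inv_cancel₀ h5, one_mul]
        rw [h1, h3, zero_add]
      rw [e1, e2]
      unfold ee
      ring
    · intro w
      have hsumV : DifferentiableOn ℂ (fun y : E => ∑ m, G m (w, y) * V i m (w, y))
          {y | (w, y) ∈ D} :=
        DifferentiableOn.fun_sum (fun m _ => (hslice2 m w).fun_mul (hV3 i m w))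
      have hsum : DifferentiableOn ℂ (fun y : E => ∑ j, (f j w * B j i (w, y) +
          -f j w * B i j (w, y))) {y | (w, y) ∈ D} :=
        DifferentiableOn.fun_sum (fun j _ => ((hB3 j i w).const_mul _).fun_add
          ((hB3 i j w).const_mul _))
      exact ((differentiableOn_const (χ (some i) w / f i w)).fun_add hsumV).fun_add hsum
  · intro m
    refine osgood2 hr.op (hg0b m) ?_ ?_
    · intro y
      change DifferentiableOn ℂ (fun w => g0 m (w, y)) {w : ℂ | (w, y) ∈ D}
      obtain ⟨hc1, hc2⟩ := mul_C1 (slice_open hr y) hO (fun w hw => hr.UH hw) (hkslice m y)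
        (h.smooth none) (hO0 y)
      have hw1 : WD {w : ℂ | (w, y) ∈ D} (fun w => χ none w * k m (w, y))
          (fun w => db (χ none) w * k m (w, y)) :=
        (WD.of_C1 (slice_open hr y) hc1).congr (slice_open hr y) (fun _ _ => rfl)
          (fun w hw => (hc2 w hw).symm)
      have hw3 := WD.sum (slice_open hr y) (Finset.univ : Finset (Fin N))
        (V := fun i w => -f i w * V i m (w, y))
        (ν := fun i w => -f i w * (mu1 f S R χ i w * k m (w, y)))
        (fun i _ => (hV2 i m y).mul_holo (slice_open hr y) ((hf i).mono (fun w hw => hr.UH hw)).neg)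
      refine (hw1.add (slice_open hr y) hw3).holo (slice_open hr y) ?_
      intro w hw
      have hwU := hr.UH hw
      simp only [mu1_eq h hwU]
      have h1 : ∀ i, -f i w * (starRingEnd ℂ (f i w) / (DD f w : ℂ) * db (χ none) w * k m (w, y)) =
          (f i w * (starRingEnd ℂ (f i w) / (DD f w : ℂ) * db (χ none) w)) * (-k m (w, y)) :=
        fun i => by ring
      simp only [h1]
      rw [← Finset.sum_mul, sum_mu1 h hε' hf hwU]
      ring
    · intro w
      have hsum : DifferentiableOn ℂ (fun y : E => ∑ i, -f i w * V i m (w, y))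
          {y | (w, y) ∈ D} :=
        DifferentiableOn.fun_sum (fun i _ => (hV3 i m w).const_mul _)
      have h1 : DifferentiableOn ℂ (fun y : E => χ none w * k m (w, y)) {y | (w, y) ∈ D} := by
        by_cases hχ : χ none w = 0
        · simp only [hχ, zero_mul]
          exact differentiableOn_const _
        · intro y hy
          have hwO : w ∈ O := hχO w (hr.im _ hy) hχ
          exact ((hkslice2 m w hwO).const_mul _) y hy
      exact h1.fun_add hsum
  · intro p hp
    have hw := hr.im _ hp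
    have e1 : χ none p.1 * ∑ m, G m p * k m p = χ none p.1 := by
      by_cases hχ : χ none p.1 = 0
      · rw [hχ, zero_mul]
      · rw [hGk p hp (hχO _ hw hχ), mul_one]
    have e2 : ∀ i, f i p.1 * (χ (some i) p.1 / f i p.1) = χ (some i) p.1 := by
      intro i
      by_cases hχ : χ (some i) p.1 = 0
      · rw [hχ, zero_div, mul_zero]
      · have h3 := hfne i p.1 hw hχ
        field_simp
    have e3 : ∀ i, f i p.1 * g i p = χ (some i) p.1 + ∑ m, G m p * (f i p.1 * V i m p) +
        ∑ j, (f i p.1 * f j p.1 * B j i p - f j p.1 * f i p.1 * B i j p) := by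
      intro i
      simp only [hg]
      rw [mul_add, mul_add, e2, Finset.mul_sum, Finset.mul_sum]
      congr 1
      · congr 1
        refine Finset.sum_congr rfl (fun m _ => ?_)
        ring
      · refine Finset.sum_congr rfl (fun j _ => ?_)
        ring
    have e4 : ∑ i, ∑ j, (f i p.1 * f j p.1 * B j i p - f j p.1 * f i p.1 * B i j p) = 0 := by
      simp only [Finset.sum_sub_distrib]
      rw [sub_eq_zero]
      exact Finset.sum_comm
    have e5 : ∑ m, G m p * g0 m p = χ none p.1 - ∑ i, ∑ m, G m p * (f i p.1 * V i m p) := by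
      have h1 : ∀ m, G m p * g0 m p = χ none p.1 * (G m p * k m p) -
          ∑ i, G m p * (f i p.1 * V i m p) := by
        intro m
        simp only [hg0]
        rw [mul_add, Finset.mul_sum, sub_eq_add_neg, ← Finset.sum_neg_distrib]
        congr 1
        · ring
        · refine Finset.sum_congr rfl (fun i _ => ?_)
          ring
      simp only [h1]
      rw [Finset.sum_sub_distrib, ← Finset.mul_sum, e1, Finset.sum_comm]
    have e6 := h.sum p.1 hw
    rw [Fintype.sum_option] at e6
    simp only [e3]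
    rw [Finset.sum_add_distrib, Finset.sum_add_distrib, e4, e5]
    linear_combination e6

end

end Pool.Agent.N290.RC
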