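import Mathlib
import Pool.Agent.HopfPinch.AnS1
import Pool.Agent.Y288.VG.RectA

/-!
Decomposition of bounded holomorphic functions on the strip `|Re u| ≤ 1` into a bounded holomorphic
function on `Re u < 1`, a bounded holomorphic function on `-1 < Re u` and an entire function bounded by
`C e^{|Re u|}`.
-/

set_option autoImplicit false

open MeasureTheory Metric Set Filter Topology Complex

namespace Pool.Agent.N290.RC

/-- `(1 - e^{-v}) / v²` -/
noncomputable def Pp (v : ℂ) : ℂ := (1 - exp (-v)) / v ^ 2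

/-- `sinh (v/2) / (v/2)` -/
noncomputable def sc (v : ℂ) : ℂ := dslope sinh 0 (v / 2)

theorem sq_norm (v : ℂ) : ‖v‖ ^ 2 = v.re ^ 2 + v.im ^ 2 := by
  rw [← Complex.normSq_eq_norm_sq, Complex.normSq_apply]; ring

theorem Pp_bd {v : ℂ} {ε : ℝ} (hε : 0 < ε) (hv : ε ≤ v.re) :
    ‖Pp v‖ ≤ 2 / (ε ^ 2 + v.im ^ 2) := by
  unfold Pp
  rw [norm_div, norm_pow, sq_norm]
  have h1 : ‖1 - exp (-v)‖ ≤ 2 := by
    refine (norm_sub_le _ _).trans ?_
    rw [norm_one, norm_exp]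
    have : Real.exp (-v).re ≤ 1 := by
      rw [Real.exp_le_one_iff, neg_re]; linarith
    linarith
  have h2 : ε ^ 2 + v.im ^ 2 ≤ v.re ^ 2 + v.im ^ 2 := by nlinarith
  have h3 : 0 < ε ^ 2 + v.im ^ 2 := by positivity
  gcongr

theorem norm_sinh_le (x : ℂ) : ‖sinh x‖ ≤ Real.exp |x.re| := by
  rw [Complex.sinh, norm_div, Complex.norm_two]
  have h1 : ‖exp x - exp (-x)‖ ≤ Real.exp x.re + Real.exp (-x.re) := by
    refine (norm_sub_le _ _).trans ?_
    rw [norm_exp, norm_exp, neg_re]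
  have h2 : Real.exp x.re ≤ Real.exp |x.re| := Real.exp_le_exp.2 (le_abs_self _)
  have h3 : Real.exp (-x.re) ≤ Real.exp |x.re| := Real.exp_le_exp.2 (neg_le_abs _)
  linarith

theorem norm_cosh_le (x : ℂ) : ‖cosh x‖ ≤ Real.exp |x.re| := by
  rw [Complex.cosh, norm_div, Complex.norm_two]
  have h1 : ‖exp x + exp (-x)‖ ≤ Real.exp x.re + Real.exp (-x.re) := by
    refine (norm_add_le _ _).trans ?_
    rw [norm_exp, norm_exp, neg_re]
  have h2 : Real.exp x.re ≤ Real.exp |x.re| := Real.exp_le_exp.2 (le_abs_self _)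
  have h3 : Real.exp (-x.re) ≤ Real.exp |x.re| := Real.exp_le_exp.2 (neg_le_abs _)
  linarith

theorem sinh_le_mul (x : ℂ) : ‖sinh x‖ ≤ Real.exp |x.re| * ‖x‖ := by
  have hconv : Convex ℝ {z : ℂ | |z.re| ≤ |x.re|} := by
    have h1 : Convex ℝ (Icc (-|x.re|) |x.re|) := convex_Icc _ _
    have h2 := h1.is_linear_preimage (f := fun z : ℂ => z.re) ⟨fun a b => add_re a b, fun c a => by simp⟩
    have h3 : {z : ℂ | |z.re| ≤ |x.re|} = (fun z : ℂ => z.re) ⁻¹' Icc (-|x.re|) |x.re| := by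
      ext z
      rw [mem_setOf_eq, mem_preimage, mem_Icc, abs_le]
    rw [h3]
    exact h2
  have h := hconv.norm_image_sub_le_of_norm_hasDerivWithin_le (f := sinh) (f' := cosh)
    (C := Real.exp |x.re|) (x := 0) (y := x)
    (fun z _ => (Complex.hasDerivAt_sinh z).hasDerivWithinAt) (fun z hz => by
      refine (norm_cosh_le z).trans (Real.exp_le_exp.2 hz)) (by simp) (by simp)
  simpa using h

theorem sc_zero : sc 0 = 1 := by
  unfold sc
  rw [zero_div, dslope_same, Complex.deriv_sinh, Complex.cosh_zero]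

theorem sc_mul (v : ℂ) : sc v * v = 2 * sinh (v / 2) := by
  unfold sc
  by_cases h : v = 0
  · rw [h]; simp
  · have h2 : v / 2 ≠ 0 := div_ne_zero h two_ne_zero
    rw [dslope_of_ne _ h2, slope_def_field, Complex.sinh_zero, sub_zero, sub_zero]
    field_simp

theorem sc_diff : Differentiable ℂ sc := by
  have h : Differentiable ℂ (dslope sinh (0 : ℂ)) := by
    have := (Complex.differentiableOn_dslope (s := univ) (c := (0 : ℂ)) univ_mem).2
      Complex.differentiable_sinh.differentiableOn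
    exact differentiableOn_univ.1 this
  exact h.comp (differentiable_id.div_const 2)

theorem sc_bd (v : ℂ) : ‖sc v‖ ^ 2 ≤ 5 * Real.exp |v.re| / (1 + v.im ^ 2) := by
  have e1 : (v / 2).re = v.re / 2 := by simp
  have e2 : |v.re / 2| = |v.re| / 2 := by rw [abs_div, abs_two]
  have hE : Real.exp (|v.re| / 2) ^ 2 = Real.exp |v.re| := by
    rw [sq, ← Real.exp_add]; congr 1; ring
  have hpos := Real.exp_pos |v.re|
  -- two bounds
  have h1 : ‖sc v‖ ≤ Real.exp (|v.re| / 2) := by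
    by_cases h : v = 0
    · rw [h, sc_zero]; simp
    · have hv : 0 < ‖v‖ := norm_pos_iff.2 h
      have h3 := sinh_le_mul (v / 2)
      rw [e1, e2, norm_div, Complex.norm_two] at h3
      have h4 : ‖sc v‖ * ‖v‖ = 2 * ‖sinh (v / 2)‖ := by
        rw [← norm_mul, sc_mul, norm_mul, Complex.norm_two]
      have h5 : ‖sc v‖ * ‖v‖ ≤ Real.exp (|v.re| / 2) * ‖v‖ := by rw [h4]; linarith
      exact le_of_mul_le_mul_right h5 hv
  have h2 : ‖sc v‖ * ‖v‖ ≤ 2 * Real.exp (|v.re| / 2) := by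
    have h3 := norm_sinh_le (v / 2)
    rw [e1, e2] at h3
    rw [← norm_mul, sc_mul, norm_mul, Complex.norm_two]
    linarith
  have h1' : ‖sc v‖ ^ 2 ≤ Real.exp |v.re| := by
    rw [← hE]; gcongr
  have h2' : ‖sc v‖ ^ 2 * ‖v‖ ^ 2 ≤ 4 * Real.exp |v.re| := by
    rw [← hE, ← mul_pow]
    have : (‖sc v‖ * ‖v‖) ^ 2 ≤ (2 * Real.exp (|v.re| / 2)) ^ 2 := by gcongr
    linarith
  rw [le_div_iff₀ (by positivity)]
  have h6 : v.im ^ 2 ≤ ‖v‖ ^ 2 := by rw [sq_norm]; nlinarith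
  have h7 : ‖sc v‖ ^ 2 * v.im ^ 2 ≤ ‖sc v‖ ^ 2 * ‖v‖ ^ 2 := by gcongr
  linarith

theorem Pp_sc {v : ℂ} (hv : v ≠ 0) : Pp v + sc v ^ 2 = -Pp (-v) := by
  have h1 : sc v = 2 * sinh (v / 2) / v := by
    rw [eq_div_iff hv, sc_mul]
  rw [h1]
  unfold Pp
  rw [neg_neg, neg_sq]
  have h2 : (2 * sinh (v / 2)) ^ 2 = exp v - 2 + exp (-v) := by
    rw [Complex.sinh]
    have e3 : exp v = exp (v / 2) * exp (v / 2) := by rw [← Complex.exp_add]; congr 1; ring
    have e4 : exp (-v) = exp (-(v / 2)) * exp (-(v / 2)) := by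
      rw [← Complex.exp_add]; congr 1; ring
    have e5 : exp (v / 2) * exp (-(v / 2)) = 1 := by
      rw [← Complex.exp_add]; simp
    rw [e3, e4]
    linear_combination (-2) * e5
  rw [div_pow, h2]
  field_simp
  ring

/-- the integral `(1/2π) ∫ g(τ) Q(1 + iτ - u) dτ` -/
noncomputable def LI (Q : ℂ → ℂ) (g : ℝ → ℂ) (u : ℂ) : ℂ :=
  (1 / (2 * Real.pi) : ℂ) * ∫ τ : ℝ, g τ * Q (1 + τ * I - u)

theorem comp_ineq {T t τ : ℝ} (ht : |t| ≤ T) : 1 + τ ^ 2 ≤ 2 * (1 + T ^ 2) * (1 + (τ - t) ^ 2) := by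
  have h1 : t ^ 2 ≤ T ^ 2 := by
    rw [← sq_abs t]; gcongr
  nlinarith [sq_nonneg (τ - 2 * t), sq_nonneg (τ - t), sq_nonneg t, mul_nonneg (sub_nonneg.2 h1) (sq_nonneg (τ - t)),
    mul_nonneg (sq_nonneg t) (sq_nonneg (τ - t))]

theorem LI_diff {Q : ℂ → ℂ} {g : ℝ → ℂ} {M : ℝ} (hg : Measurable g) (hM : ∀ τ, ‖g τ‖ ≤ M)
    (hQm : Measurable Q) {W : Set ℂ}
    (hQ : ∀ u₀ ∈ W, ∃ r : ℝ, 0 < r ∧ ∃ B : ℝ, (∀ τ : ℝ, ∀ u ∈ ball u₀ r,
      DifferentiableAt ℂ Q (1 + τ * I - u)) ∧ ∀ τ : ℝ, ∀ u ∈ ball u₀ r,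
      ‖Q (1 + τ * I - u)‖ ≤ B / (1 + τ ^ 2)) : DifferentiableOn ℂ (LI Q g) W := by
  intro u₀ hu₀
  obtain ⟨r, hr, B, h1, h2⟩ := hQ u₀ hu₀
  have hM0 : 0 ≤ M := (norm_nonneg _).trans (hM 0)
  have h3 : DifferentiableOn ℂ (fun u => ∫ τ : ℝ, g τ * Q (1 + τ * I - u)) (ball u₀ r) := by
    refine Pool.Agent.HP.differentiableOn_integral (X := ℂ) (E := ℂ) volume
      (fun (τ : ℝ) u => g τ * Q (1 + τ * I - u)) (ball u₀ r) isOpen_ball ?_ ?_
      (fun τ => M * (B * (1 + τ ^ 2)⁻¹)) ?_ ?_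
    · intro u _
      refine (hg.mul (hQm.comp ?_)).aestronglyMeasurable
      fun_prop
    · intro τ u hu
      refine (DifferentiableAt.const_mul ?_ _).differentiableWithinAt
      have h4 : DifferentiableAt ℂ (fun u : ℂ => 1 + τ * I - u) u := by fun_prop
      exact DifferentiableAt.comp u (h1 τ u hu) h4
    · exact ((integrable_inv_one_add_sq).const_mul B).const_mul M
    · intro τ u hu
      rw [norm_mul]
      have h5 := h2 τ u hu
      rw [div_eq_mul_inv] at h5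
      exact mul_le_mul (hM τ) h5 (norm_nonneg _) hM0
  have h4 := (h3.const_mul (1 / (2 * Real.pi) : ℂ)).differentiableAt (isOpen_ball.mem_nhds
    (mem_ball_self hr))
  exact h4.differentiableWithinAt

theorem re_v (τ : ℝ) (u : ℂ) : (1 + τ * I - u).re = 1 - u.re := by simp

theorem im_v (τ : ℝ) (u : ℂ) : (1 + τ * I - u).im = τ - u.im := by simp

theorem Pp_meas : Measurable Pp := by
  unfold Pp
  fun_prop

theorem Pp_diffAt {v : ℂ} (hv : v ≠ 0) : DifferentiableAt ℂ Pp v := by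
  unfold Pp
  refine DifferentiableAt.div ?_ ?_ (pow_ne_zero 2 hv)
  · fun_prop
  · fun_prop

theorem kp_diff {g : ℝ → ℂ} {M : ℝ} (hg : Measurable g) (hM : ∀ τ, ‖g τ‖ ≤ M) :
    DifferentiableOn ℂ (LI Pp g) {u | u.re < 1} := by
  refine LI_diff hg hM Pp_meas ?_
  intro u₀ hu₀
  have hu₀' : u₀.re < 1 := hu₀
  set ε := (1 - u₀.re) / 2 with hε
  have hε0 : 0 < ε := by rw [hε]; linarith
  set T := |u₀.im| + ε with hT
  refine ⟨ε, hε0, 4 * (1 + T ^ 2) / min (ε ^ 2) 1, ?_, ?_⟩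
  · intro τ u hu
    apply Pp_diffAt
    intro h0
    have h1 := congrArg Complex.re h0
    rw [re_v, zero_re] at h1
    have h2 : |u.re - u₀.re| < ε := by
      refine lt_of_le_of_lt ?_ (mem_ball_iff_norm.1 hu)
      rw [← sub_re]; exact abs_re_le_norm _
    rw [abs_lt] at h2
    linarith [h2.2]
  · intro τ u hu
    have hub := mem_ball_iff_norm.1 hu
    have h2 : |u.re - u₀.re| < ε := by
      refine lt_of_le_of_lt ?_ hub
      rw [← sub_re]; exact abs_re_le_norm _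
    have h3 : |u.im - u₀.im| < ε := by
      refine lt_of_le_of_lt ?_ hub
      rw [← sub_im]; exact abs_im_le_norm _
    have h4 : |u.im| ≤ T := by
      have := abs_add_le (u.im - u₀.im) u₀.im
      rw [sub_add_cancel] at this
      rw [hT]; linarith
    rw [abs_lt] at h2
    have h5 : ‖Pp (1 + τ * I - u)‖ ≤ 2 / (ε ^ 2 + (τ - u.im) ^ 2) := by
      have := Pp_bd (v := 1 + τ * I - u) hε0 (by rw [re_v]; linarith [h2.2])
      rwa [im_v] at this
    refine h5.trans ?_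
    have hm : 0 < min (ε ^ 2) 1 := lt_min (by positivity) one_pos
    have hm1 : min (ε ^ 2) 1 ≤ ε ^ 2 := min_le_left _ _
    have hm2 : min (ε ^ 2) 1 ≤ 1 := min_le_right _ _
    have h6 := comp_ineq (T := T) (t := u.im) (τ := τ) h4
    rw [div_div, div_le_div_iff₀ (by positivity) (by positivity)]
    have h7 : min (ε ^ 2) 1 * (1 + (τ - u.im) ^ 2) ≤ ε ^ 2 + (τ - u.im) ^ 2 := by
      nlinarith [sq_nonneg (τ - u.im)]
    calc 2 * (min (ε ^ 2) 1 * (1 + τ ^ 2))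
        ≤ 2 * (min (ε ^ 2) 1 * (2 * (1 + T ^ 2) * (1 + (τ - u.im) ^ 2))) := by gcongr
      _ = 4 * (1 + T ^ 2) * (min (ε ^ 2) 1 * (1 + (τ - u.im) ^ 2)) := by ring
      _ ≤ 4 * (1 + T ^ 2) * (ε ^ 2 + (τ - u.im) ^ 2) := by gcongr

theorem k0_diff {g : ℝ → ℂ} {M : ℝ} (hg : Measurable g) (hM : ∀ τ, ‖g τ‖ ≤ M) :
    Differentiable ℂ (LI (fun v => sc v ^ 2) g) := by
  rw [← differentiableOn_univ]
  refine LI_diff hg hM (sc_diff.continuous.measurable.pow_const 2) ?_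
  intro u₀ _
  set T := |u₀.im| + 1 with hT
  refine ⟨1, one_pos, 10 * Real.exp (2 + |u₀.re|) * (1 + T ^ 2), ?_, ?_⟩
  · intro τ u _
    exact (sc_diff.pow 2).differentiableAt
  · intro τ u hu
    have hub := mem_ball_iff_norm.1 hu
    have h2 : |u.re - u₀.re| < 1 := by
      refine lt_of_le_of_lt ?_ hub
      rw [← sub_re]; exact abs_re_le_norm _
    have h3 : |u.im - u₀.im| < 1 := by
      refine lt_of_le_of_lt ?_ hub
      rw [← sub_im]; exact abs_im_le_norm _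
    have h4 : |u.im| ≤ T := by
      have := abs_add_le (u.im - u₀.im) u₀.im
      rw [sub_add_cancel] at this
      rw [hT]; linarith
    rw [norm_pow]
    have h5 := sc_bd (1 + τ * I - u)
    rw [re_v, im_v] at h5
    refine h5.trans ?_
    have h6 := comp_ineq (T := T) (t := u.im) (τ := τ) h4
    have h7 : |1 - u.re| ≤ 2 + |u₀.re| := by
      have a1 := abs_add_le (1 - (u.re - u₀.re)) (-u₀.re)
      have a2 := abs_sub (1 : ℝ) (u.re - u₀.re)
      rw [abs_neg] at a1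
      have a3 : 1 - (u.re - u₀.re) + -u₀.re = 1 - u.re := by ring
      rw [a3] at a1
      rw [abs_one] at a2
      linarith
    have h8 : Real.exp |1 - u.re| ≤ Real.exp (2 + |u₀.re|) := Real.exp_le_exp.2 h7
    rw [div_le_div_iff₀ (by positivity) (by positivity)]
    calc 5 * Real.exp |1 - u.re| * (1 + τ ^ 2)
        ≤ 5 * Real.exp (2 + |u₀.re|) * (2 * (1 + T ^ 2) * (1 + (τ - u.im) ^ 2)) := by gcongr
      _ = 10 * Real.exp (2 + |u₀.re|) * (1 + T ^ 2) * (1 + (τ - u.im) ^ 2) := by ring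

theorem int_shift (t : ℝ) : ∫ τ : ℝ, (1 + (τ - t) ^ 2)⁻¹ = Real.pi := by
  rw [integral_sub_right_eq_self (fun τ : ℝ => (1 + τ ^ 2)⁻¹) t]
  exact integral_univ_inv_one_add_sq

theorem integrable_shift (t : ℝ) : Integrable (fun τ : ℝ => (1 + (τ - t) ^ 2)⁻¹) :=
  integrable_inv_one_add_sq.comp_sub_right t

theorem LI_bd {Q : ℂ → ℂ} {g : ℝ → ℂ} {M : ℝ} (hM : ∀ τ, ‖g τ‖ ≤ M) {u : ℂ} {B : ℝ}
    (hB : ∀ τ : ℝ, ‖Q (1 + τ * I - u)‖ ≤ B / (1 + (τ - u.im) ^ 2)) :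
    ‖LI Q g u‖ ≤ M * B / 2 := by
  have hM0 : 0 ≤ M := (norm_nonneg _).trans (hM 0)
  have h1 : ‖∫ τ : ℝ, g τ * Q (1 + τ * I - u)‖ ≤ ∫ τ : ℝ, M * B * (1 + (τ - u.im) ^ 2)⁻¹ := by
    refine norm_integral_le_of_norm_le ((integrable_shift u.im).const_mul (M * B))
      (Eventually.of_forall fun τ => ?_)
    rw [norm_mul]
    calc ‖g τ‖ * ‖Q (1 + τ * I - u)‖ ≤ M * (B / (1 + (τ - u.im) ^ 2)) :=
          mul_le_mul (hM τ) (hB τ) (norm_nonneg _) hM0
      _ = M * B * (1 + (τ - u.im) ^ 2)⁻¹ := by rw [div_eq_mul_inv]; ring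
  rw [integral_const_mul, int_shift] at h1
  unfold LI
  rw [norm_mul, norm_div, norm_one, norm_mul, Complex.norm_two, Complex.norm_real,
    Real.norm_of_nonneg Real.pi_pos.le]
  have hpi := Real.pi_pos
  calc 1 / (2 * Real.pi) * ‖∫ τ : ℝ, g τ * Q (1 + τ * I - u)‖
      ≤ 1 / (2 * Real.pi) * (M * B * Real.pi) := by gcongr
    _ = M * B / 2 := by field_simp

theorem kp_bd0 {g : ℝ → ℂ} {M : ℝ} (hM : ∀ τ, ‖g τ‖ ≤ M) {u : ℂ} (hu : u.re ≤ 0) :
    ‖LI Pp g u‖ ≤ M := by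
  have h := LI_bd (Q := Pp) hM (u := u) (B := 2) (fun τ => by
    have := Pp_bd (v := 1 + τ * I - u) one_pos (by rw [re_v]; linarith)
    rwa [im_v, one_pow] at this)
  linarith

theorem k0_bd {g : ℝ → ℂ} {M : ℝ} (hM : ∀ τ, ‖g τ‖ ≤ M) (u : ℂ) :
    ‖LI (fun v => sc v ^ 2) g u‖ ≤ 8 * M * Real.exp |u.re| := by
  have hM0 : 0 ≤ M := (norm_nonneg _).trans (hM 0)
  have h := LI_bd (Q := fun v => sc v ^ 2) hM (u := u) (B := 5 * Real.exp (1 + |u.re|)) (fun τ => by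
    rw [norm_pow]
    have h5 := sc_bd (1 + τ * I - u)
    rw [re_v, im_v] at h5
    refine h5.trans ?_
    have h7 : |1 - u.re| ≤ 1 + |u.re| := by
      have := abs_sub (1 : ℝ) u.re
      rwa [abs_one] at this
    gcongr)
  rw [Real.exp_add] at h
  have he : Real.exp 1 < 2.7182818286 := Real.exp_one_lt_d9
  have hp : 0 ≤ M * Real.exp |u.re| := by positivity
  have h2 : M * (5 * (Real.exp 1 * Real.exp |u.re|)) / 2 = (5 / 2 * Real.exp 1) * (M * Real.exp |u.re|) := by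
    ring
  rw [h2] at h
  have h3 : (5 / 2 * Real.exp 1) * (M * Real.exp |u.re|) ≤ 8 * (M * Real.exp |u.re|) := by
    apply mul_le_mul_of_nonneg_right _ hp
    linarith
  linarith

end Pool.Agent.N290.RC
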