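import Mathlib
import Pool.Agent.N290.RC.Ker

/-!
The reproducing formula on the strip and the bounds of the three parts.
-/

set_option autoImplicit false

open MeasureTheory Metric Set Filter Topology Complex

namespace Pool.Agent.N290.RC

/-- the left part -/
noncomputable def km (g : ℝ → ℂ) (u : ℂ) : ℂ := LI Pp (fun τ => g (-τ)) (-u)

theorem km_eq (g : ℝ → ℂ) (u : ℂ) :
    km g u = (1 / (2 * Real.pi) : ℂ) * ∫ τ : ℝ, g τ * Pp (-(-1 + τ * I - u)) := by
  unfold km LI
  congr 1
  rw [← integral_neg_eq_self (fun τ : ℝ => g τ * Pp (-(-1 + τ * I - u)))]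
  refine integral_congr_ae (Eventually.of_forall fun τ => ?_)
  simp only
  congr 2
  push_cast
  ring

/-- `(e^v - 1) / v` -/
noncomputable def ps (v : ℂ) : ℂ := dslope exp 0 v

theorem ps_diff : Differentiable ℂ ps := by
  have := (Complex.differentiableOn_dslope (s := univ) (c := (0 : ℂ)) univ_mem).2
    Complex.differentiable_exp.differentiableOn
  exact differentiableOn_univ.1 this

theorem ps_zero : ps 0 = 1 := by
  unfold ps
  rw [dslope_same, Complex.deriv_exp, Complex.exp_zero]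

theorem ps_eq {v : ℂ} (hv : v ≠ 0) : v⁻¹ * ps v = -Pp (-v) := by
  unfold ps Pp
  rw [dslope_of_ne _ hv, slope_def_field, Complex.exp_zero, sub_zero, neg_neg, neg_sq]
  field_simp
  ring

/-- bound for `-Pp (-v)` near the strip -/
theorem Pn_bd {v : ℂ} (h1 : v.re ≤ 2) (hv : v ≠ 0) : ‖-Pp (-v)‖ ≤ 9 / (v.re ^ 2 + v.im ^ 2) := by
  unfold Pp
  rw [norm_neg, norm_div, norm_pow, norm_neg, sq_norm, neg_neg]
  have h2 : ‖1 - exp v‖ ≤ 9 := by
    refine (norm_sub_le _ _).trans ?_
    rw [norm_one, norm_exp]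
    have h3 : Real.exp v.re ≤ Real.exp 2 := Real.exp_le_exp.2 h1
    have he : Real.exp 1 < 2.7182818286 := Real.exp_one_lt_d9
    have h4 : Real.exp 2 = Real.exp 1 * Real.exp 1 := by rw [← Real.exp_add]; norm_num
    have h5 := Real.exp_pos 1
    nlinarith
  have h3 : 0 < v.re ^ 2 + v.im ^ 2 := by
    rw [← sq_norm]; exact pow_pos (norm_pos_iff.2 hv) 2
  gcongr

variable {F : ℂ → ℂ} {M : ℝ} {u : ℂ}

/-- integrability on the vertical lines `Re = ±1` -/
theorem line_int {x : ℝ} (hx : x ∈ Icc (-1 : ℝ) 1) (hc : ContinuousOn F {z | |z.re| ≤ 1})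
    (hM : ∀ z : ℂ, |z.re| ≤ 1 → ‖F z‖ ≤ M) (hu : |u.re| < 1) (hxu : x ≠ u.re) :
    Integrable (fun y : ℝ => F (x + y * I) * -Pp (-(x + y * I - u))) := by
  have hxa : |x| ≤ 1 := abs_le.2 hx
  have hmem : ∀ y : ℝ, (x + y * I : ℂ) ∈ {z : ℂ | |z.re| ≤ 1} := by
    intro y
    simp [hxa]
  have hM0 : 0 ≤ M := (norm_nonneg _).trans (hM x (by simpa using hxa))
  have hne : ∀ y : ℝ, (x + y * I - u : ℂ) ≠ 0 := by
    intro y h
    have := congrArg Complex.re h
    simp at this
    exact hxu (by linarith)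
  set d := min ((x - u.re) ^ 2) 1 with hd
  have hd0 : 0 < d := lt_min (by positivity [sub_ne_zero.2 hxu]) one_pos
  have hd1 : d ≤ (x - u.re) ^ 2 := min_le_left _ _
  have hd2 : d ≤ 1 := min_le_right _ _
  refine Integrable.mono' (g := fun y : ℝ => M * (9 / d) * (1 + (y - u.im) ^ 2)⁻¹)
    ((integrable_shift u.im).const_mul _) ?_ ?_
  · have hc1 : Continuous (fun y : ℝ => F (x + y * I)) :=
      hc.comp_continuous (by fun_prop) hmem
    have hm : Measurable (fun y : ℝ => -Pp (-(x + y * I - u))) := by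
      refine (Pp_meas.comp ?_).neg
      fun_prop
    exact (hc1.measurable.mul hm).aestronglyMeasurable
  · refine Eventually.of_forall fun y => ?_
    rw [norm_mul]
    have h1 := hM (x + y * I) (hmem y)
    have h2 : ‖-Pp (-(x + y * I - u))‖ ≤ 9 / ((x - u.re) ^ 2 + (y - u.im) ^ 2) := by
      have h3 := Pn_bd (v := x + y * I - u) (by
        have h4 := abs_lt.1 hu
        have h5 := hx.2
        simp
        linarith [h4.1]) (hne y)
      simpa using h3
    have h3 : 9 / ((x - u.re) ^ 2 + (y - u.im) ^ 2) ≤ 9 / d * (1 + (y - u.im) ^ 2)⁻¹ := by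
      rw [← div_eq_mul_inv, div_div]
      refine div_le_div_of_nonneg_left (by norm_num) (by positivity) ?_
      nlinarith [sq_nonneg (y - u.im)]
    calc ‖F (x + y * I)‖ * ‖-Pp (-(x + y * I - u))‖ ≤ M * (9 / d * (1 + (y - u.im) ^ 2)⁻¹) :=
          mul_le_mul h1 (h2.trans h3) (norm_nonneg _) hM0
      _ = _ := by ring

/-- Cauchy's formula on the strip. -/
theorem cauchy_strip (hc : ContinuousOn F {z | |z.re| ≤ 1})
    (hd : DifferentiableOn ℂ F {z | |z.re| < 1}) (hM : ∀ z : ℂ, |z.re| ≤ 1 → ‖F z‖ ≤ M)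
    (hu : |u.re| < 1) :
    (∫ y : ℝ, F (1 + y * I) * -Pp (-(1 + y * I - u))) -
      ∫ y : ℝ, F (-1 + y * I) * -Pp (-(-1 + y * I - u)) = 2 * Real.pi * F u := by
  have hu' := abs_lt.1 hu
  have hM0 : 0 ≤ M := (norm_nonneg _).trans (hM 0 (by simp))
  have hr := line_int (x := 1) (u := u) ⟨by norm_num, le_rfl⟩ hc hM hu (by linarith [hu'.2])
  have hl := line_int (x := -1) (u := u) ⟨le_rfl, by norm_num⟩ hc hM hu (by linarith [hu'.1])
  push_cast at hr hl
  set T : ℕ → ℝ := fun n => |u.im| + 1 + n with hT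
  have hT1 : ∀ n, |u.im| + 1 ≤ T n := fun n => by
    rw [hT]
    have : (0 : ℝ) ≤ n := Nat.cast_nonneg n
    simp [this]
  have hTt : Tendsto T atTop atTop := by
    refine tendsto_atTop_add_const_left _ _ ?_
    exact tendsto_natCast_atTop_atTop
  have hTn : Tendsto (fun n => -T n) atTop atBot := tendsto_neg_atTop_atBot.comp hTt
  have t1 := intervalIntegral_tendsto_integral hr hTn hTt
  have t2 := intervalIntegral_tendsto_integral hl hTn hTt
  -- the rectangles
  have hrect : ∀ n, Pool.Agent.Y288.VG.Bd (-1) 1 (-T n) (T n)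
      (fun z => (z - u)⁻¹ • (F z * ps (z - u))) = (2 * Real.pi * I : ℂ) • (F u) := by
    intro n
    have hTn0 : 0 < T n := by
      have := hT1 n
      have := abs_nonneg u.im
      linarith
    have h1 := Pool.Agent.Y288.VG.cauchy_rect (α := -1) (β := 1) (γ := -T n) (δ := T n)
      (f := fun z => F z * ps (z - u)) (by norm_num) (by linarith) (by
        refine ContinuousOn.mul (hc.mono ?_) (ps_diff.continuous.comp (by fun_prop)).continuousOn
        intro z hz
        rw [mem_reProdIm] at hz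
        exact abs_le.2 hz.1) (by
        refine DifferentiableOn.fun_mul (hd.mono ?_) (ps_diff.comp (by fun_prop)).differentiableOn
        intro z hz
        rw [mem_reProdIm] at hz
        exact abs_lt.2 hz.1) (x := u) (by
        rw [mem_reProdIm]
        refine ⟨hu', ?_⟩
        have h2 := hT1 n
        have h3 := abs_le.1 (le_refl |u.im|)
        exact ⟨by linarith [h3.1], by linarith [h3.2]⟩)
    rw [h1, sub_self, ps_zero, mul_one]
  -- horizontal sides
  have hhor : ∀ (s : ℕ → ℝ), (∀ n, T n ≤ |s n|) →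
      Tendsto (fun n => ∫ t : ℝ in (-1 : ℝ)..1, (t + (s n : ℝ) * I - u : ℂ)⁻¹ •
        (F (t + (s n : ℝ) * I) * ps (t + (s n : ℝ) * I - u))) atTop (𝓝 0) := by
    intro s hs
    rw [tendsto_zero_iff_norm_tendsto_zero]
    have hub : ∀ n, ‖∫ t : ℝ in (-1 : ℝ)..1, (t + (s n : ℝ) * I - u : ℂ)⁻¹ •
        (F (t + (s n : ℝ) * I) * ps (t + (s n : ℝ) * I - u))‖ ≤ M * 9 / (1 + n) ^ 2 * 2 := by
      intro n
      have h1 : 1 + (n : ℝ) ≤ |s n - u.im| := by
        have h2 := hs n
        have h3 := abs_sub_abs_le_abs_sub (s n) u.im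
        rw [hT] at h2
        linarith
      have h0 : (0 : ℝ) < 1 + n := by positivity
      have h2 := intervalIntegral.norm_integral_le_of_norm_le_const (a := -1) (b := 1)
        (f := fun t : ℝ => (t + (s n : ℝ) * I - u : ℂ)⁻¹ •
        (F (t + (s n : ℝ) * I) * ps (t + (s n : ℝ) * I - u))) (C := M * 9 / (1 + n) ^ 2) (by
          intro t ht
          rw [uIoc_of_le (by norm_num)] at ht
          have hne : (t + (s n : ℝ) * I - u : ℂ) ≠ 0 := by
            intro h
            have := congrArg Complex.im h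
            simp at this
            rw [this, abs_zero] at h1
            linarith
          have e1 : (t + (s n : ℝ) * I - u : ℂ)⁻¹ •
              (F (t + (s n : ℝ) * I) * ps (t + (s n : ℝ) * I - u)) =
              F (t + (s n : ℝ) * I) * -Pp (-(t + (s n : ℝ) * I - u)) := by
            rw [smul_eq_mul, ← ps_eq hne]; ring
          rw [e1, norm_mul]
          have h3 := hM (t + (s n : ℝ) * I) (by
            simp only [add_re, ofReal_re, mul_re, ofReal_im, I_re, I_im]
            rw [mul_zero, zero_mul, sub_zero, add_zero]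
            exact abs_le.2 ⟨ht.1.le, ht.2⟩)
          have h4 := Pn_bd (v := t + (s n : ℝ) * I - u) (by
            simp
            have := ht.2
            linarith [hu'.1]) hne
          have h5 : (9 : ℝ) / ((t + (s n : ℝ) * I - u).re ^ 2 + (t + (s n : ℝ) * I - u).im ^ 2) ≤
              9 / (1 + n) ^ 2 := by
            refine div_le_div_of_nonneg_left (by norm_num) (by positivity) ?_
            have e2 : (t + (s n : ℝ) * I - u).im = s n - u.im := by simp
            rw [e2]
            have h6 : (1 + (n : ℝ)) ^ 2 ≤ (s n - u.im) ^ 2 := by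
              rw [← sq_abs (s n - u.im)]
              gcongr
            have h7 := sq_nonneg (t + (s n : ℝ) * I - u).re
            linarith
          calc ‖F (t + (s n : ℝ) * I)‖ * ‖-Pp (-(t + (s n : ℝ) * I - u))‖ ≤ M * (9 / (1 + n) ^ 2) :=
                mul_le_mul h3 (h4.trans h5) (norm_nonneg _) hM0
            _ = M * 9 / (1 + n) ^ 2 := by ring)
      refine h2.trans (le_of_eq ?_)
      norm_num
    refine squeeze_zero (fun n => norm_nonneg _) hub ?_
    have h3 : Tendsto (fun n : ℕ => (1 + (n : ℝ)) ^ 2) atTop atTop := by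
      refine (tendsto_pow_atTop two_ne_zero).comp ?_
      exact tendsto_atTop_add_const_left _ _ tendsto_natCast_atTop_atTop
    have h4 := (h3.inv_tendsto_atTop).const_mul (M * 9)
    have h5 := h4.mul_const 2
    simpa [div_eq_mul_inv] using h5
  have hb := hhor (fun n => -T n) (fun n => by
    rw [abs_neg]; exact le_abs_self _)
  have ht := hhor T (fun n => le_abs_self _)
  have hne1 : ∀ y : ℝ, (1 + y * I - u : ℂ) ≠ 0 := by
    intro y h
    have := congrArg Complex.re h
    simp at this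
    linarith [hu'.2]
  have hne2 : ∀ y : ℝ, (-1 + y * I - u : ℂ) ≠ 0 := by
    intro y h
    have := congrArg Complex.re h
    simp at this
    linarith [hu'.1]
  have hlim : Tendsto (fun n => Pool.Agent.Y288.VG.Bd (-1) 1 (-T n) (T n)
      (fun z => (z - u)⁻¹ • (F z * ps (z - u)))) atTop
      (𝓝 (0 - 0 + I • (∫ y : ℝ, F (1 + y * I) * -Pp (-(1 + y * I - u))) -
        I • ∫ y : ℝ, F (-1 + y * I) * -Pp (-(-1 + y * I - u)))) := by
    unfold Pool.Agent.Y288.VG.Bd
    refine ((hb.sub ht).add ((t1.const_smul I).congr ?_)).sub ((t2.const_smul I).congr ?_)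
    · intro n
      congr 1
      refine intervalIntegral.integral_congr fun y _ => ?_
      simp only [smul_eq_mul, ofReal_one]
      rw [← ps_eq (hne1 y)]
      ring
    · intro n
      congr 1
      refine intervalIntegral.integral_congr fun y _ => ?_
      simp only [smul_eq_mul, ofReal_neg, ofReal_one]
      rw [← ps_eq (hne2 y)]
      ring
  have h1 := tendsto_nhds_unique (hlim.congr hrect) tendsto_const_nhds
  simp only [smul_eq_mul, sub_zero, zero_add] at h1
  have h2 : I * ((∫ y : ℝ, F (1 + y * I) * -Pp (-(1 + y * I - u))) -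
      ∫ y : ℝ, F (-1 + y * I) * -Pp (-(-1 + y * I - u))) = I * (2 * Real.pi * F u) := by
    rw [mul_sub, h1]; ring
  exact mul_left_cancel₀ I_ne_zero h2

/-- **Decomposition.** -/
theorem decomp (hc : ContinuousOn F {z | |z.re| ≤ 1})
    (hd : DifferentiableOn ℂ F {z | |z.re| < 1}) (hM : ∀ z : ℂ, |z.re| ≤ 1 → ‖F z‖ ≤ M)
    (hu : |u.re| < 1) :
    LI Pp (fun τ => F (1 + τ * I)) u + km (fun τ => F (-1 + τ * I)) u +
      LI (fun v => sc v ^ 2) (fun τ => F (1 + τ * I)) u = F u := by
  have hu' := abs_lt.1 hu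
  have hM0 : 0 ≤ M := (norm_nonneg _).trans (hM 0 (by simp))
  have h1 := cauchy_strip hc hd hM hu
  have hr := line_int (x := 1) (u := u) ⟨by norm_num, le_rfl⟩ hc hM hu (by linarith [hu'.2])
  push_cast at hr
  have hne1 : ∀ y : ℝ, (1 + y * I - u : ℂ) ≠ 0 := by
    intro y h
    have := congrArg Complex.re h
    simp at this
    linarith [hu'.2]
  have hc1 : Continuous (fun y : ℝ => F (1 + y * I)) :=
    hc.comp_continuous (by fun_prop) (fun y => by simp)
  -- integrability of the first part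
  have hi1 : Integrable (fun y : ℝ => F (1 + y * I) * Pp (1 + y * I - u)) := by
    set ε := 1 - u.re with hε
    have hε0 : 0 < ε := by rw [hε]; linarith [hu'.2]
    set d := min (ε ^ 2) 1 with hd
    have hd0 : 0 < d := lt_min (by positivity) one_pos
    have hd1 : d ≤ ε ^ 2 := min_le_left _ _
    have hd2 : d ≤ 1 := min_le_right _ _
    refine Integrable.mono' (g := fun y : ℝ => M * (2 / d) * (1 + (y - u.im) ^ 2)⁻¹)
      ((integrable_shift u.im).const_mul _) ?_ ?_
    · have hm : Measurable (fun y : ℝ => Pp (1 + y * I - u)) := by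
        refine Pp_meas.comp ?_
        fun_prop
      exact (hc1.measurable.mul hm).aestronglyMeasurable
    · refine Eventually.of_forall fun y => ?_
      rw [norm_mul]
      have a1 := hM (1 + y * I) (by simp)
      have a2 := Pp_bd (v := 1 + y * I - u) hε0 (by rw [re_v])
      rw [im_v] at a2
      have a3 : 2 / (ε ^ 2 + (y - u.im) ^ 2) ≤ 2 / d * (1 + (y - u.im) ^ 2)⁻¹ := by
        rw [← div_eq_mul_inv, div_div]
        refine div_le_div_of_nonneg_left (by norm_num) (by positivity) ?_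
        nlinarith [sq_nonneg (y - u.im)]
      calc ‖F (1 + y * I)‖ * ‖Pp (1 + y * I - u)‖ ≤ M * (2 / d * (1 + (y - u.im) ^ 2)⁻¹) :=
            mul_le_mul a1 (a2.trans a3) (norm_nonneg _) hM0
        _ = _ := by ring
  have hi2 : Integrable (fun y : ℝ => F (1 + y * I) * sc (1 + y * I - u) ^ 2) := by
    have h2 := hr.sub hi1
    refine h2.congr (Eventually.of_forall fun y => ?_)
    simp only [Pi.sub_apply]
    rw [← Pp_sc (hne1 y)]
    ring
  have h3 : ∫ y : ℝ, F (1 + y * I) * -Pp (-(1 + y * I - u)) =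
      (∫ y : ℝ, F (1 + y * I) * Pp (1 + y * I - u)) +
        ∫ y : ℝ, F (1 + y * I) * sc (1 + y * I - u) ^ 2 := by
    rw [← integral_add hi1 hi2]
    refine integral_congr_ae (Eventually.of_forall fun y => ?_)
    simp only
    rw [← Pp_sc (hne1 y)]
    ring
  have h4 : ∫ y : ℝ, F (-1 + y * I) * -Pp (-(-1 + y * I - u)) =
      -∫ y : ℝ, F (-1 + y * I) * Pp (-(-1 + y * I - u)) := by
    rw [← integral_neg]
    refine integral_congr_ae (Eventually.of_forall fun y => ?_)
    simp only
    ring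
  rw [h3, h4] at h1
  rw [km_eq]
  unfold LI
  have hpi : (2 * Real.pi : ℂ) ≠ 0 := by
    have := Real.pi_ne_zero
    simp [this]
  rw [← mul_add, ← mul_add, one_div]
  rw [inv_mul_eq_iff_eq_mul₀ hpi, ← h1]
  ring

/-- bound of the right part on the half plane `Re u < 1` -/
theorem kp_bd (hc : ContinuousOn F {z | |z.re| ≤ 1})
    (hd : DifferentiableOn ℂ F {z | |z.re| < 1}) (hM : ∀ z : ℂ, |z.re| ≤ 1 → ‖F z‖ ≤ M)
    (hu : u.re < 1) : ‖LI Pp (fun τ => F (1 + τ * I)) u‖ ≤ 24 * M := by
  have hM0 : 0 ≤ M := (norm_nonneg _).trans (hM 0 (by simp))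
  have hg : ∀ τ : ℝ, ‖F (1 + τ * I)‖ ≤ M := fun τ => hM _ (by simp)
  have hg' : ∀ τ : ℝ, ‖F (-1 + τ * I)‖ ≤ M := fun τ => hM _ (by simp)
  by_cases h0 : u.re ≤ 0
  · have := kp_bd0 hg h0
    linarith
  · push Not at h0
    have hu1 : |u.re| < 1 := abs_lt.2 ⟨by linarith, hu⟩
    have h1 := decomp hc hd hM hu1
    have h2 : LI Pp (fun τ => F (1 + τ * I)) u = F u - km (fun τ => F (-1 + τ * I)) u -
      LI (fun v => sc v ^ 2) (fun τ => F (1 + τ * I)) u := by
      rw [← h1]; ring
    rw [h2]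
    have h3 : ‖km (fun τ => F (-1 + τ * I)) u‖ ≤ M := by
      unfold km
      exact kp_bd0 (g := fun τ => F (-1 + ((-τ : ℝ) : ℂ) * I)) (fun τ => hg' (-τ)) (by
        rw [neg_re]; linarith)
    have h4 := k0_bd hg u
    have h5 : Real.exp |u.re| ≤ 2.7182818286 := by
      have h6 : Real.exp |u.re| ≤ Real.exp 1 := Real.exp_le_exp.2 hu1.le
      have he : Real.exp 1 < 2.7182818286 := Real.exp_one_lt_d9
      linarith
    have h7 := hM u hu1.le
    have h8 := norm_sub_le (F u - km (fun τ => F (-1 + τ * I)) u)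
      (LI (fun v => sc v ^ 2) (fun τ => F (1 + τ * I)) u)
    have h9 := norm_sub_le (F u) (km (fun τ => F (-1 + τ * I)) u)
    have h10 : 8 * M * Real.exp |u.re| ≤ 8 * M * 2.7182818286 := by gcongr
    linarith

/-- bound of the left part on the half plane `-1 < Re u` -/
theorem km_bd (hc : ContinuousOn F {z | |z.re| ≤ 1})
    (hd : DifferentiableOn ℂ F {z | |z.re| < 1}) (hM : ∀ z : ℂ, |z.re| ≤ 1 → ‖F z‖ ≤ M)
    (hu : -1 < u.re) : ‖km (fun τ => F (-1 + τ * I)) u‖ ≤ 24 * M := by
  have hM0 : 0 ≤ M := (norm_nonneg _).trans (hM 0 (by simp))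
  have hg : ∀ τ : ℝ, ‖F (1 + τ * I)‖ ≤ M := fun τ => hM _ (by simp)
  have hg' : ∀ τ : ℝ, ‖F (-1 + τ * I)‖ ≤ M := fun τ => hM _ (by simp)
  by_cases h0 : 0 ≤ u.re
  · have h3 : ‖km (fun τ => F (-1 + τ * I)) u‖ ≤ M := by
      unfold km
      exact kp_bd0 (g := fun τ => F (-1 + ((-τ : ℝ) : ℂ) * I)) (fun τ => hg' (-τ)) (by
        rw [neg_re]; linarith)
    linarith
  · push Not at h0
    have hu1 : |u.re| < 1 := abs_lt.2 ⟨hu, by linarith⟩
    have h1 := decomp hc hd hM hu1
    have h2 : km (fun τ => F (-1 + τ * I)) u = F u - LI Pp (fun τ => F (1 + τ * I)) u -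
      LI (fun v => sc v ^ 2) (fun τ => F (1 + τ * I)) u := by
      rw [← h1]; ring
    rw [h2]
    have h3 : ‖LI Pp (fun τ => F (1 + τ * I)) u‖ ≤ M := kp_bd0 hg h0.le
    have h4 := k0_bd hg u
    have h5 : Real.exp |u.re| ≤ 2.7182818286 := by
      have h6 : Real.exp |u.re| ≤ Real.exp 1 := Real.exp_le_exp.2 hu1.le
      have he : Real.exp 1 < 2.7182818286 := Real.exp_one_lt_d9
      linarith
    have h7 := hM u hu1.le
    have h8 := norm_sub_le (F u - LI Pp (fun τ => F (1 + τ * I)) u)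
      (LI (fun v => sc v ^ 2) (fun τ => F (1 + τ * I)) u)
    have h9 := norm_sub_le (F u) (LI Pp (fun τ => F (1 + τ * I)) u)
    have h10 : 8 * M * Real.exp |u.re| ≤ 8 * M * 2.7182818286 := by gcongr
    linarith

end Pool.Agent.N290.RC
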