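import Mathlib
import Pool.Agent.Y263.SC.OpX
import Pool.Agent.N290.RC.Rep

/-!
Bounded extension operators from the slices `s = ζ` of the tube domains
`Re s ∈ J`, `a (Re s) < Re y < b (Re s)`, `a` convex, `b` concave.
-/

set_option autoImplicit false

open MeasureTheory Metric Set Filter Topology Complex

namespace Pool.Agent.N290.RC

open Pool.Agent.Y263.SC (Ext Ov)

/-- the data of a tube domain -/
structure Fib (J : Set ℝ) (a b : ℝ → ℝ) : Prop where
  op : IsOpen J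
  cv : ConvexOn ℝ J a
  cc : ConcaveOn ℝ J b
  lt : ∀ t ∈ J, a t < b t
  ma : Measurable a
  mb : Measurable b

/-- the tube domain -/
def DT (J : Set ℝ) (a b : ℝ → ℝ) : Set (ℂ × ℂ) :=
  {p | p.1.re ∈ J ∧ a p.1.re < p.2.re ∧ p.2.re < b p.1.re}

/-- right derivative -/
noncomputable def rd (f : ℝ → ℝ) (t : ℝ) : ℝ := derivWithin f (Ioi t) t

theorem sup_cv {J : Set ℝ} (hJ : IsOpen J) {a : ℝ → ℝ} (hc : ConvexOn ℝ J a) {t₀ t : ℝ}
    (h0 : t₀ ∈ J) (ht : t ∈ J) :
    a t₀ + rd a t₀ * (t - t₀) ≤ a t := by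
  have hi : t₀ ∈ interior J := by rwa [hJ.interior_eq]
  rcases lt_trichotomy t t₀ with h1 | h1 | h1
  · have h2 := hc.slope_le_leftDeriv_of_mem_interior ht hi h1
    have h3 := hc.leftDeriv_le_rightDeriv_of_mem_interior hi
    have h4 : slope a t t₀ ≤ rd a t₀ := h2.trans h3
    rw [slope_def_field, div_le_iff₀ (by linarith)] at h4
    linarith
  · rw [h1]; simp
  · have h2 := hc.rightDeriv_le_slope_of_mem_interior hi ht h1
    change rd a t₀ ≤ _ at h2
    rw [slope_def_field, le_div_iff₀ (by linarith)] at h2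
    linarith

theorem sup_cc {J : Set ℝ} (hJ : IsOpen J) {b : ℝ → ℝ} (hc : ConcaveOn ℝ J b) {t₀ t : ℝ}
    (h0 : t₀ ∈ J) (ht : t ∈ J) :
    b t ≤ b t₀ + rd b t₀ * (t - t₀) := by
  have h1 := sup_cv hJ hc.neg h0 ht
  have h2 : rd (-b) t₀ = -rd b t₀ := by
    unfold rd
    rw [derivWithin.neg]
  rw [h2] at h1
  simp only [Pi.neg_apply] at h1
  linarith

theorem rd_meas (f : ℝ → ℝ) : Measurable (rd f) := measurable_derivWithin_Ioi f

/-- measurability of the integrals with respect to a parameter -/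
theorem LI_meas {X : Type} [MeasurableSpace X] {Q : ℂ → ℂ} (hQ : Measurable Q) {g : X → ℝ → ℂ}
    (hg : Measurable (fun p : X × ℝ => g p.1 p.2)) {u : X → ℂ} (hu : Measurable u) :
    Measurable (fun x => LI Q (g x) (u x)) := by
  unfold LI
  refine Measurable.const_mul ?_ _
  have h1 : StronglyMeasurable (fun p : X × ℝ => g p.1 p.2 * Q (1 + p.2 * I - u p.1)) := by
    refine Measurable.stronglyMeasurable ?_
    refine hg.mul (hQ.comp ?_)
    fun_prop
  exact (h1.integral_prod_right (ν := volume)).measurable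

/-- half width -/
noncomputable def wd (a b : ℝ → ℝ) (t : ℝ) : ℝ := (b t - a t) / 2

/-- midpoint -/
noncomputable def md (a b : ℝ → ℝ) (t : ℝ) : ℝ := (a t + b t) / 2

/-- the extension of `K (ζ, ·)` from the slice over `ζ` -/
noncomputable def ee (a b : ℝ → ℝ) (K : ℂ × ℂ → ℂ) (ζ : ℂ) (p : ℂ × ℂ) : ℂ :=
  LI Pp (fun τ => K (ζ, md a b ζ.re + wd a b ζ.re * (1 + τ * I)))
    ((p.2 - rd b ζ.re * (p.1 - ζ) - md a b ζ.re) / wd a b ζ.re) +
  km (fun τ => K (ζ, md a b ζ.re + wd a b ζ.re * (-1 + τ * I)))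
    ((p.2 - rd a ζ.re * (p.1 - ζ) - md a b ζ.re) / wd a b ζ.re) +
  LI (fun v => sc v ^ 2) (fun τ => K (ζ, md a b ζ.re + wd a b ζ.re * (1 + τ * I)))
    ((p.2 - ((rd a ζ.re + rd b ζ.re) / 2 : ℝ) * (p.1 - ζ) - md a b ζ.re) / wd a b ζ.re) *
  exp (-(((rd b ζ.re - rd a ζ.re) / 2 : ℝ) * (p.1 - ζ) / wd a b ζ.re))

variable {J : Set ℝ} {a b : ℝ → ℝ} {A : Set ℂ} {K : ℂ × ℂ → ℂ} {Q : ℝ}

theorem ee_meas (h : Fib J a b) (hK : Measurable K) (y : ℂ) :
    Measurable (fun q : ℂ × ℂ => ee a b K q.1 (q.2, y)) := by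
  have hma := h.ma
  have hmb := h.mb
  have hra := rd_meas a
  have hrb := rd_meas b
  have h1 : Measurable (fun q : ℂ × ℂ => (md a b q.1.re : ℂ)) := by
    unfold md; fun_prop
  have h2 : Measurable (fun q : ℂ × ℂ => (wd a b q.1.re : ℂ)) := by
    unfold wd; fun_prop
  have h1' : Measurable (fun q : (ℂ × ℂ) × ℝ => (md a b q.1.1.re : ℂ)) := by
    unfold md; fun_prop
  have h2' : Measurable (fun q : (ℂ × ℂ) × ℝ => (wd a b q.1.1.re : ℂ)) := by
    unfold wd; fun_prop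
  unfold ee
  refine Measurable.add (Measurable.add ?_ ?_) (Measurable.mul ?_ ?_)
  · refine LI_meas Pp_meas ?_ ?_
    · refine hK.comp (Measurable.prodMk (by fun_prop) ?_)
      exact h1'.add (h2'.mul (by fun_prop))
    · refine Measurable.div (Measurable.sub ?_ h1) h2
      fun_prop
  · unfold km
    refine LI_meas (X := ℂ × ℂ) (g := fun q τ => K (q.1, md a b q.1.re + wd a b q.1.re *
      (-1 + (-τ : ℝ) * I))) (u := fun q => -((y - rd a q.1.re * (q.2 - q.1) - md a b q.1.re) /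
        wd a b q.1.re)) Pp_meas ?_ ?_
    · refine hK.comp (Measurable.prodMk (by fun_prop) ?_)
      exact h1'.add (h2'.mul (by fun_prop))
    · refine Measurable.neg (Measurable.div (Measurable.sub ?_ h1) h2)
      fun_prop
  · refine LI_meas (sc_diff.continuous.measurable.pow_const 2) ?_ ?_
    · refine hK.comp (Measurable.prodMk (by fun_prop) ?_)
      exact h1'.add (h2'.mul (by fun_prop))
    · refine Measurable.div (Measurable.sub ?_ h1) h2
      fun_prop
  · refine Complex.continuous_exp.measurable.comp (Measurable.neg (Measurable.div ?_ h2))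
    fun_prop

/-- **Bounded extension operator** for the tube domains. -/
theorem ext_tube (h : Fib J a b) (hA : ∀ ζ ∈ A, ζ.re ∈ J) (hK : Measurable K)
    (hKc : ∀ ζ ∈ A, ContinuousOn (fun y => K (ζ, y)) {y | a ζ.re ≤ y.re ∧ y.re ≤ b ζ.re})
    (hKd : ∀ ζ ∈ A, DifferentiableOn ℂ (fun y => K (ζ, y)) {y | a ζ.re < y.re ∧ y.re < b ζ.re})
    (hKb : ∀ ζ ∈ A, ∀ y : ℂ, a ζ.re ≤ y.re → y.re ≤ b ζ.re → ‖K (ζ, y)‖ ≤ Q) :
    Ext (DT J a b) A (fun p => (K p)⁻¹) (72 * Q) (ee a b K) := by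
  -- facts at a point of `A`
  have key : ∀ ζ ∈ A, ∃ F : ℂ → ℂ, ContinuousOn F {z | |z.re| ≤ 1} ∧
      DifferentiableOn ℂ F {z | |z.re| < 1} ∧ (∀ z : ℂ, |z.re| ≤ 1 → ‖F z‖ ≤ Q) ∧
      (∀ z, F z = K (ζ, md a b ζ.re + wd a b ζ.re * z)) ∧ 0 < wd a b ζ.re ∧
      (∀ τ : ℝ, ‖F (1 + τ * I)‖ ≤ Q) ∧ (∀ τ : ℝ, ‖F (-1 + τ * I)‖ ≤ Q) ∧
      Measurable (fun τ : ℝ => F (1 + τ * I)) ∧ Measurable (fun τ : ℝ => F (-1 + τ * I)) := by
    intro ζ hζ
    have hw : 0 < wd a b ζ.re := by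
      have := h.lt _ (hA ζ hζ)
      unfold wd; linarith
    have hre : ∀ z : ℂ, ((md a b ζ.re : ℂ) + wd a b ζ.re * z).re =
        md a b ζ.re + wd a b ζ.re * z.re := by
      intro z; simp
    have hle : ∀ z : ℂ, |z.re| ≤ 1 → a ζ.re ≤ ((md a b ζ.re : ℂ) + wd a b ζ.re * z).re ∧
        ((md a b ζ.re : ℂ) + wd a b ζ.re * z).re ≤ b ζ.re := by
      intro z hz
      rw [hre]
      obtain ⟨h1, h2⟩ := abs_le.1 hz
      have h3 : wd a b ζ.re * z.re ≤ wd a b ζ.re * 1 := by gcongr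
      have h4 : wd a b ζ.re * (-1) ≤ wd a b ζ.re * z.re := by gcongr
      unfold md
      unfold wd at h3 h4 ⊢
      constructor <;> linarith
    have hlt : ∀ z : ℂ, |z.re| < 1 → a ζ.re < ((md a b ζ.re : ℂ) + wd a b ζ.re * z).re ∧
        ((md a b ζ.re : ℂ) + wd a b ζ.re * z).re < b ζ.re := by
      intro z hz
      rw [hre]
      obtain ⟨h1, h2⟩ := abs_lt.1 hz
      have h3 : wd a b ζ.re * z.re < wd a b ζ.re * 1 := by gcongr
      have h4 : wd a b ζ.re * (-1) < wd a b ζ.re * z.re := by gcongr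
      unfold md
      unfold wd at h3 h4 ⊢
      constructor <;> linarith
    have hb : ∀ z : ℂ, |z.re| ≤ 1 → ‖K (ζ, md a b ζ.re + wd a b ζ.re * z)‖ ≤ Q :=
      fun z hz => hKb ζ hζ _ (hle z hz).1 (hle z hz).2
    refine ⟨fun z => K (ζ, md a b ζ.re + wd a b ζ.re * z), ?_, ?_, hb, fun z => rfl, hw,
      fun τ => hb _ (by simp), fun τ => hb _ (by simp), ?_, ?_⟩
    · refine (hKc ζ hζ).comp (f := fun z : ℂ => (md a b ζ.re : ℂ) + wd a b ζ.re * z)
        (by fun_prop) ?_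
      intro z hz
      exact hle z hz
    · refine (hKd ζ hζ).comp (f := fun z : ℂ => (md a b ζ.re : ℂ) + wd a b ζ.re * z)
        (by fun_prop) ?_
      intro z hz
      exact hlt z hz
    · exact hK.comp (by fun_prop)
    · exact hK.comp (by fun_prop)
  -- the real parts of the arguments
  have r1 : ∀ (c : ℝ) (m w : ℝ) (ζ : ℂ) (p : ℂ × ℂ), ((p.2 - c * (p.1 - ζ) - m) / w : ℂ).re =
      (p.2.re - c * (p.1.re - ζ.re) - m) / w := by
    intro c m w ζ p
    rw [Complex.div_ofReal_re]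
    simp
  have u1 : ∀ ζ ∈ A, ∀ p ∈ DT J a b,
      ((p.2 - rd b ζ.re * (p.1 - ζ) - md a b ζ.re) / wd a b ζ.re : ℂ).re < 1 := by
    intro ζ hζ p hp
    have hw : 0 < wd a b ζ.re := by
      have := h.lt _ (hA ζ hζ)
      unfold wd; linarith
    rw [r1, div_lt_one hw]
    have h2 := sup_cc h.op h.cc (hA ζ hζ) hp.1
    have h3 := hp.2.2
    unfold md wd
    linarith
  have u2 : ∀ ζ ∈ A, ∀ p ∈ DT J a b,
      -1 < ((p.2 - rd a ζ.re * (p.1 - ζ) - md a b ζ.re) / wd a b ζ.re : ℂ).re := by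
    intro ζ hζ p hp
    have hw : 0 < wd a b ζ.re := by
      have := h.lt _ (hA ζ hζ)
      unfold wd; linarith
    rw [r1, lt_div_iff₀ hw]
    have h2 := sup_cv h.op h.cv (hA ζ hζ) hp.1
    have h3 := hp.2.1
    unfold md wd
    linarith
  refine ⟨ee_meas h hK, ?_, ?_, ?_⟩
  · intro ζ hζ y hy
    obtain ⟨F, c1, c2, c3, c4, c5, c6, c7, c8, c9⟩ := key ζ hζ
    have hu : |((y - md a b ζ.re) / wd a b ζ.re : ℂ).re| < 1 := by
      rw [Complex.div_ofReal_re, sub_re, ofReal_re, abs_lt, lt_div_iff₀ c5, div_lt_one c5]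
      have h2 := hy.2.1
      have h3 := hy.2.2
      simp only at h2 h3
      unfold md wd
      constructor <;> linarith
    have h1 := decomp c1 c2 c3 hu
    rw [inv_inv]
    have hwne : (wd a b ζ.re : ℂ) ≠ 0 := by exact_mod_cast c5.ne'
    have h2 : F ((y - md a b ζ.re) / wd a b ζ.re) = K (ζ, y) := by
      rw [c4, mul_div_cancel₀ _ hwne]
      congr 2
      ring
    rw [← h2, ← h1]
    unfold ee
    simp only [c4]
    simp only [sub_self, mul_zero, sub_zero, zero_div, neg_zero, Complex.exp_zero, mul_one]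
  · intro ζ hζ
    obtain ⟨F, c1, c2, c3, c4, c5, c6, c7, c8, c9⟩ := key ζ hζ
    unfold ee
    simp only [← c4]
    refine DifferentiableOn.add (DifferentiableOn.add ?_ ?_) (DifferentiableOn.mul ?_ ?_)
    · refine (kp_diff c8 c6).comp (f := fun p : ℂ × ℂ =>
        ((p.2 - rd b ζ.re * (p.1 - ζ) - md a b ζ.re) / wd a b ζ.re : ℂ)) (by fun_prop) ?_
      intro p hp
      exact u1 ζ hζ p hp
    · unfold km
      have h1 := kp_diff (g := fun τ => F (-1 + ((-τ : ℝ) : ℂ) * I)) (c9.comp measurable_neg)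
        (fun τ => c7 (-τ))
      refine h1.comp (f := fun p : ℂ × ℂ =>
        -((p.2 - rd a ζ.re * (p.1 - ζ) - md a b ζ.re) / wd a b ζ.re : ℂ)) (by fun_prop) ?_
      intro p hp
      have := u2 ζ hζ p hp
      change (-((p.2 - rd a ζ.re * (p.1 - ζ) - md a b ζ.re) / wd a b ζ.re : ℂ)).re < 1
      rw [neg_re]
      linarith
    · refine (k0_diff c8 c6).differentiableOn.comp (t := univ) (f := fun p : ℂ × ℂ =>
        ((p.2 - ((rd a ζ.re + rd b ζ.re) / 2 : ℝ) * (p.1 - ζ) - md a b ζ.re) / wd a b ζ.re : ℂ))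
        (by fun_prop) (fun p _ => mem_univ _)
    · fun_prop
  · intro ζ hζ p hp
    obtain ⟨F, c1, c2, c3, c4, c5, c6, c7, c8, c9⟩ := key ζ hζ
    have hQ : 0 ≤ Q := (norm_nonneg _).trans (c6 0)
    unfold ee
    simp only [← c4]
    have b1 := kp_bd c1 c2 c3 (u1 ζ hζ p hp)
    have b2 := km_bd c1 c2 c3 (u2 ζ hζ p hp)
    have b3 := k0_bd c6
      ((p.2 - ((rd a ζ.re + rd b ζ.re) / 2 : ℝ) * (p.1 - ζ) - md a b ζ.re) / wd a b ζ.re)
    set u := ((p.2 - ((rd a ζ.re + rd b ζ.re) / 2 : ℝ) * (p.1 - ζ) - md a b ζ.re) /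
      wd a b ζ.re : ℂ) with hu
    set x : ℝ := (rd b ζ.re - rd a ζ.re) / 2 * (p.1.re - ζ.re) / wd a b ζ.re with hx
    have h1 : |u.re| ≤ 1 + x := by
      have h2 := sup_cc h.op h.cc (hA ζ hζ) hp.1
      have h3 := hp.2.2
      have h4 := sup_cv h.op h.cv (hA ζ hζ) hp.1
      have h5 := hp.2.1
      rw [hu, r1, hx, abs_le]
      constructor
      · rw [le_div_iff₀ c5]
        have : -(1 + (rd b ζ.re - rd a ζ.re) / 2 * (p.1.re - ζ.re) / wd a b ζ.re) * wd a b ζ.re =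
            -wd a b ζ.re - (rd b ζ.re - rd a ζ.re) / 2 * (p.1.re - ζ.re) := by
          field_simp
          ring
        rw [this]
        unfold md wd
        linarith
      · rw [div_le_iff₀ c5]
        have : (1 + (rd b ζ.re - rd a ζ.re) / 2 * (p.1.re - ζ.re) / wd a b ζ.re) * wd a b ζ.re =
            wd a b ζ.re + (rd b ζ.re - rd a ζ.re) / 2 * (p.1.re - ζ.re) := by
          field_simp
        rw [this]
        unfold md wd
        linarith
    have h6 : ‖exp (-(((rd b ζ.re - rd a ζ.re) / 2 : ℝ) * (p.1 - ζ) / wd a b ζ.re))‖ =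
        Real.exp (-x) := by
      rw [Complex.norm_exp, neg_re, Complex.div_ofReal_re, Complex.re_ofReal_mul, sub_re]
    have b4 : ‖LI (fun v => sc v ^ 2) (fun τ => F (1 + τ * I)) u *
        exp (-(((rd b ζ.re - rd a ζ.re) / 2 : ℝ) * (p.1 - ζ) / wd a b ζ.re))‖ ≤ 24 * Q := by
      rw [norm_mul, h6]
      calc ‖LI (fun v => sc v ^ 2) (fun τ => F (1 + τ * I)) u‖ * Real.exp (-x)
          ≤ 8 * Q * Real.exp |u.re| * Real.exp (-x) := by gcongr
        _ ≤ 8 * Q * Real.exp (1 + x) * Real.exp (-x) := by gcongr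
        _ = 8 * Q * Real.exp 1 := by
            rw [mul_assoc, ← Real.exp_add]
            congr 2
            ring
        _ ≤ 8 * Q * 3 := by
            have he : Real.exp 1 < 2.7182818286 := Real.exp_one_lt_d9
            gcongr
            linarith
        _ = 24 * Q := by ring
    calc _ ≤ 24 * Q + 24 * Q + 24 * Q := norm_add₃_le.trans (add_le_add (add_le_add b1 b2) b4)
      _ = 72 * Q := by ring

end Pool.Agent.N290.RC
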