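import Mathlib
import Pool.Agent.N290.RC.BaseY
import Pool.Agent.N290.RC.ExtT
import Pool.Agent.H788R3.Cor2.Conc

/-!
Localisation theorem on tube domains over convex sets of the plane.
-/

set_option autoImplicit false

open MeasureTheory Metric Set Filter Topology Complex

namespace Pool.Agent.N290.RC

open Pool.Agent.Y263.SC (Ext Ov AU)
open Pool.Agent.H788R3.Cor3 (open_all exhaust3)

/-- the tube over `Ω` -/
def tube (Ω : Set (ℝ × ℝ)) : Set (ℂ × ℂ) := {p | (p.1.re, p.2.re) ∈ Ω}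

/-- the projection of the tube to the first coordinate -/
def bs (Ω : Set (ℝ × ℝ)) : Set ℂ := {s | ∃ x : ℝ, (s.re, x) ∈ Ω}

theorem tube_open {Ω : Set (ℝ × ℝ)} (h : IsOpen Ω) : IsOpen (tube Ω) := by
  refine h.preimage (f := fun p : ℂ × ℂ => (p.1.re, p.2.re)) ?_
  fun_prop

theorem bs_open {Ω : Set (ℝ × ℝ)} (h : IsOpen Ω) : IsOpen (bs Ω) := by
  have h1 : IsOpen (Prod.fst '' Ω) := isOpenMap_fst _ h
  have h2 : bs Ω = Complex.re ⁻¹' (Prod.fst '' Ω) := by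
    ext s
    constructor
    · rintro ⟨x, hx⟩
      exact ⟨_, hx, rfl⟩
    · rintro ⟨⟨t, x⟩, hx, ht⟩
      simp only at ht
      subst ht
      exact ⟨x, hx⟩
  rw [h2]
  exact h1.preimage Complex.continuous_re

/-- one step -/
theorem tube_step {N M : ℕ} {ε K C : ℝ} (hε : 0 < ε) (H : SiegelY N M ε K (72 * K) C) (hK : 0 ≤ K)
    {J : Set ℝ} {a b : ℝ → ℝ} (hF : Fib J a b) (hJne : J.Nonempty) (hJu : J ≠ univ)
    {Ω : Set (ℝ × ℝ)} (hΩ : IsOpen Ω) (hΩJ : ∀ t ∈ J, ∀ x, a t ≤ x → x ≤ b t → (t, x) ∈ Ω)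
    (f : Fin N → ℂ → ℂ) (hf : ∀ i, DifferentiableOn ℂ (f i) (bs Ω))
    (hfb : ∀ i, ∀ z ∈ bs Ω, ‖f i z‖ ≤ 1)
    (G : Fin M → ℂ × ℂ → ℂ) (hG : ∀ m, DifferentiableOn ℂ (G m) (tube Ω))
    (hGb : ∀ m, ∀ q ∈ tube Ω, ‖G m q‖ ≤ 1)
    (k : Fin M → ℂ × ℂ → ℂ)
    (hk : ∀ m, DifferentiableOn ℂ (k m) {q | q ∈ tube Ω ∧ ∀ i, ‖f i q.1‖ < ε})
    (hkb : ∀ m, ∀ q ∈ tube Ω, (∀ i, ‖f i q.1‖ < ε) → ‖k m q‖ ≤ K)
    (hGk : ∀ q ∈ tube Ω, (∀ i, ‖f i q.1‖ < ε) → ∑ m, G m q * k m q = 1) :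
    ∃ (g : Fin N → ℂ × ℂ → ℂ) (g₀ : Fin M → ℂ × ℂ → ℂ),
      (∀ i, DifferentiableOn ℂ (g i) (DT J a b)) ∧ (∀ m, DifferentiableOn ℂ (g₀ m) (DT J a b)) ∧
      (∀ i, ∀ q ∈ DT J a b, ‖g i q‖ ≤ C) ∧ (∀ m, ∀ q ∈ DT J a b, ‖g₀ m q‖ ≤ C) ∧
      ∀ q ∈ DT J a b, ∑ i, f i q.1 * g i q + ∑ m, G m q * g₀ m q = 1 := by
  classical
  have hJb : ∀ s : ℂ, s.re ∈ J → s ∈ bs Ω := by
    intro s hs
    refine ⟨a s.re, hΩJ _ hs _ le_rfl (hF.lt _ hs).le⟩
  have hDT : DT J a b ⊆ tube Ω := by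
    intro p hp
    exact hΩJ _ hp.1 _ hp.2.1.le hp.2.2.le
  set U : Set ℂ := {s | s.re ∈ J} with hU
  have hUo : IsOpen U := hF.op.preimage Complex.continuous_re
  have hUc : Convex ℝ U := by
    have := hF.cv.1.linear_preimage Complex.reLm
    exact this
  obtain ⟨t0, ht0⟩ := hJne
  have hUne : U.Nonempty := ⟨(t0 : ℂ), by rw [hU]; simpa using ht0⟩
  have hUu : U ≠ univ := by
    intro h
    apply hJu
    rw [eq_univ_iff_forall] at h ⊢
    intro t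
    have := h (t : ℂ)
    rw [hU] at this
    simpa using this
  have hsub : U ⊆ bs Ω := fun s hs => hJb s hs
  set W : Set (ℂ × ℂ) := {q | q ∈ tube Ω ∧ ∀ i, ‖f i q.1‖ < ε} with hW
  have hWo : IsOpen W := by
    refine open_all (tube_open hΩ) (F := fun i (q : ℂ × ℂ) => ‖f i q.1‖) (fun i => ?_) ε
    refine ContinuousOn.norm ((hf i).continuousOn.comp continuousOn_fst ?_)
    intro q hq
    exact ⟨q.2.re, hq⟩
  have hDTo : IsOpen (DT J a b) := by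
    have h1 : ContinuousOn a J := hF.cv.continuousOn hF.op
    have h2 : ContinuousOn b J := hF.cc.continuousOn hF.op
    have e1 : IsOpen {p : ℂ × ℂ | p.1.re ∈ J} :=
      hF.op.preimage (Complex.continuous_re.comp continuous_fst)
    have e2 : ContinuousOn (fun p : ℂ × ℂ => p.2.re - a p.1.re) {p : ℂ × ℂ | p.1.re ∈ J} := by
      refine ContinuousOn.sub (by fun_prop) (h1.comp (by fun_prop) (fun p hp => hp))
    have e3 : ContinuousOn (fun p : ℂ × ℂ => b p.1.re - p.2.re) {p : ℂ × ℂ | p.1.re ∈ J} := by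
      refine ContinuousOn.sub (h2.comp (by fun_prop) (fun p hp => hp)) (by fun_prop)
    have e4 := (e2.prodMk e3).isOpen_inter_preimage e1 ((isOpen_Ioi (a := (0 : ℝ))).prod
      (isOpen_Ioi (a := (0 : ℝ))))
    convert e4 using 1
    ext p
    simp only [DT, mem_inter_iff, mem_preimage, mem_prod, mem_Ioi, sub_pos]
    exact Iff.rfl
  set kt : Fin M → ℂ × ℂ → ℂ := fun m => W.piecewise (k m) 0 with hkt
  have hktm : ∀ m, Measurable (kt m) := fun m =>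
    ContinuousOn.measurable_piecewise (hk m).continuousOn continuousOn_const hWo.measurableSet
  have hkte : ∀ m, ∀ q ∈ W, kt m q = k m q := fun m q hq => piecewise_eq_of_mem _ _ _ hq
  have hAmem : ∀ ζ ∈ AU U f ε, ∀ y : ℂ, a ζ.re ≤ y.re → y.re ≤ b ζ.re → (ζ, y) ∈ W := by
    intro ζ hζ y h1 h2
    exact ⟨hΩJ _ hζ.1 _ h1 h2, hζ.2⟩
  have hext : ∀ m, Ext (DT J a b) (AU U f ε) (fun p => (k m p)⁻¹) (72 * K) (ee a b (kt m)) := by
    intro m
    have h1 := ext_tube (A := AU U f ε) (K := kt m) (Q := K) hF (fun ζ hζ => hζ.1) (hktm m) ?_ ?_ ?_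
    · refine ⟨h1.meas, fun ζ hζ y hy => ?_, h1.diff, h1.bd⟩
      rw [h1.self ζ hζ y hy, hkte m _ (hAmem ζ hζ y hy.2.1.le hy.2.2.le)]
    · intro ζ hζ
      have h2 : ContinuousOn (fun y => k m (ζ, y)) {y : ℂ | a ζ.re ≤ y.re ∧ y.re ≤ b ζ.re} := by
        refine (hk m).continuousOn.comp (by fun_prop) ?_
        intro y hy
        exact hAmem ζ hζ y hy.1 hy.2
      refine h2.congr ?_
      intro y hy
      exact hkte m _ (hAmem ζ hζ y hy.1 hy.2)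
    · intro ζ hζ
      have h2 : DifferentiableOn ℂ (fun y => k m (ζ, y))
          {y : ℂ | a ζ.re < y.re ∧ y.re < b ζ.re} := by
        refine (hk m).comp (f := fun y : ℂ => (ζ, y)) (by fun_prop) ?_
        intro y hy
        exact hAmem ζ hζ y hy.1.le hy.2.le
      refine h2.congr ?_
      intro y hy
      exact hkte m _ (hAmem ζ hζ y hy.1.le hy.2.le)
    · intro ζ hζ y h2 h3
      have h4 := hAmem ζ hζ y h2 h3
      rw [hkte m _ h4]
      exact hkb m _ h4.1 h4.2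
  exact base_thmY (D := DT J a b) hε H hUo (Pool.Agent.H788R3.Cor2.conv_sc hUc hUne) hUu hUne hDTo
    (fun p hp => hp.1) f (fun i => (hf i).mono hsub) (fun i z hz => hfb i z (hsub hz)) G
    (fun m => (hG m).mono hDT) (fun m q hq => hGb m q (hDT hq)) k
    (fun m => (hk m).mono (fun q hq => ⟨hDT hq.1, hq.2⟩))
    (fun m q hq => hkb m q (hDT hq)) (fun q hq => hGk q (hDT hq)) hext

/-- lower end of the fibre -/
noncomputable def lo (Ω : Set (ℝ × ℝ)) (t : ℝ) : ℝ := sInf {x | (t, x) ∈ Ω}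

/-- reflection -/
def refl (Ω : Set (ℝ × ℝ)) : Set (ℝ × ℝ) := {p | (p.1, -p.2) ∈ Ω}

section

variable {Ω : Set (ℝ × ℝ)}

theorem refl_open (h : IsOpen Ω) : IsOpen (refl Ω) :=
  h.preimage (f := fun p : ℝ × ℝ => (p.1, -p.2)) (by fun_prop)

theorem refl_conv (h : Convex ℝ Ω) : Convex ℝ (refl Ω) := by
  intro p hp q hq c d hc hd hcd
  have := h hp hq hc hd hcd
  change ((c • p + d • q).1, -(c • p + d • q).2) ∈ Ω
  have e : ((c • p + d • q).1, -(c • p + d • q).2) = c • (p.1, -p.2) + d • (q.1, -q.2) := by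
    ext
    · rfl
    · simp only [Prod.snd_add, Prod.smul_snd, smul_eq_mul, Prod.smul_mk, Prod.mk_add_mk]
      ring
  rw [e]
  exact this

theorem refl_bd {R : ℝ} (h : ∀ p ∈ Ω, |p.2| ≤ R) : ∀ p ∈ refl Ω, |p.2| ≤ R := by
  intro p hp
  have := h _ hp
  simpa using this

theorem lo_lt {R : ℝ} (ho : IsOpen Ω) (hR : ∀ p ∈ Ω, |p.2| ≤ R) {t x : ℝ} (h : (t, x) ∈ Ω) :
    lo Ω t < x := by
  have h1 : BddBelow {x | (t, x) ∈ Ω} := ⟨-R, fun y hy => (abs_le.1 (hR _ hy)).1⟩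
  have h2 : IsOpen {x | (t, x) ∈ Ω} := ho.preimage (f := fun x : ℝ => (t, x)) (by fun_prop)
  obtain ⟨r, hr, hb⟩ := Metric.isOpen_iff.1 h2 x h
  have h3 : x - r / 2 ∈ {x | (t, x) ∈ Ω} := by
    apply hb
    rw [mem_ball, Real.dist_eq]
    rw [sub_sub_cancel_left, abs_neg, abs_of_pos (by positivity)]
    linarith
  have h4 : lo Ω t ≤ x - r / 2 := csInf_le h1 h3
  linarith

theorem lo_conv {R : ℝ} (ho : IsOpen Ω) (hc : Convex ℝ Ω) (hR : ∀ p ∈ Ω, |p.2| ≤ R) :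
    ConvexOn ℝ (Prod.fst '' Ω) (lo Ω) := by
  refine ⟨hc.linear_image (LinearMap.fst ℝ ℝ ℝ), ?_⟩
  rintro _ ⟨⟨t1, y1⟩, h1, rfl⟩ _ ⟨⟨t2, y2⟩, h2, rfl⟩ c d hc' hd hcd
  simp only [smul_eq_mul]
  apply le_of_forall_pos_le_add
  intro η hη
  obtain ⟨x1, hx1, hx1'⟩ := exists_lt_of_csInf_lt (s := {x | (t1, x) ∈ Ω}) (b := lo Ω t1 + η)
    ⟨y1, h1⟩ (by change lo Ω t1 < _; linarith)
  obtain ⟨x2, hx2, hx2'⟩ := exists_lt_of_csInf_lt (s := {x | (t2, x) ∈ Ω}) (b := lo Ω t2 + η)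
    ⟨y2, h2⟩ (by change lo Ω t2 < _; linarith)
  have h3 := hc hx1 hx2 hc' hd hcd
  have h4 : lo Ω (c * t1 + d * t2) < c * x1 + d * x2 := by
    refine lo_lt ho hR ?_
    simpa only [Prod.smul_mk, smul_eq_mul, Prod.mk_add_mk] using h3
  have h5 : c * x1 ≤ c * (lo Ω t1 + η) := by gcongr
  have h6 : d * x2 ≤ d * (lo Ω t2 + η) := by gcongr
  have h7 : c * (lo Ω t1 + η) + d * (lo Ω t2 + η) = c * lo Ω t1 + d * lo Ω t2 + η := by
    linear_combination η * hcd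
  linarith

theorem fib_iff {R : ℝ} (ho : IsOpen Ω) (hc : Convex ℝ Ω) (hR : ∀ p ∈ Ω, |p.2| ≤ R) {t : ℝ}
    (ht : t ∈ Prod.fst '' Ω) (x : ℝ) : (t, x) ∈ Ω ↔ lo Ω t < x ∧ x < -lo (refl Ω) t := by
  constructor
  · intro h
    refine ⟨lo_lt ho hR h, ?_⟩
    have h1 : (t, -x) ∈ refl Ω := by
      change (t, - -x) ∈ Ω
      rwa [neg_neg]
    have := lo_lt (refl_open ho) (refl_bd hR) h1
    linarith
  · rintro ⟨h1, h2⟩
    obtain ⟨⟨t', y⟩, hy, rfl⟩ := ht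
    obtain ⟨x1, hx1, hx1'⟩ := exists_lt_of_csInf_lt (s := {x | (t', x) ∈ Ω}) (b := x) ⟨y, hy⟩ h1
    obtain ⟨x2, hx2, hx2'⟩ := exists_lt_of_csInf_lt (s := {x | (t', x) ∈ refl Ω}) (b := -x)
      ⟨-y, by change (t', - -y) ∈ Ω; rwa [neg_neg]⟩ (by change lo (refl Ω) t' < _; simp only at h2; linarith)
    change (t', -x2) ∈ Ω at hx2
    have h3 : x1 < x := hx1'
    have h4 : x < -x2 := by linarith
    have h5 : 0 < -x2 - x1 := by linarith
    have h6 := hc hx1 hx2 (a := (-x2 - x) / (-x2 - x1)) (b := (x - x1) / (-x2 - x1))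
      (by apply div_nonneg <;> linarith) (by apply div_nonneg <;> linarith) (by field_simp; ring)
    convert h6 using 1
    ext
    · simp only [Prod.smul_mk, smul_eq_mul, Prod.mk_add_mk]
      field_simp
      ring
    · simp only [Prod.smul_mk, smul_eq_mul, Prod.mk_add_mk]
      field_simp
      ring

end

end Pool.Agent.N290.RC
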