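import Mathlib
import Pool.Agent.N290.RC.Tube

/-!
Localisation theorem on tube domains over convex sets of the plane: exhaustion.
-/

set_option autoImplicit false

open MeasureTheory Metric Set Filter Topology Complex

namespace Pool.Agent.N290.RC

open Pool.Agent.H788R3.Cor3 (exhaust3)

/-- solutions on a tube domain -/
def TSol (N M : ℕ) (C : ℝ) (T : Set (ℂ × ℂ)) (f : Fin N → ℂ → ℂ) (G : Fin M → ℂ × ℂ → ℂ) : Prop :=
  ∃ (g : Fin N → ℂ × ℂ → ℂ) (g₀ : Fin M → ℂ × ℂ → ℂ),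
      (∀ i, DifferentiableOn ℂ (g i) T) ∧ (∀ m, DifferentiableOn ℂ (g₀ m) T) ∧
      (∀ i, ∀ q ∈ T, ‖g i q‖ ≤ C) ∧ (∀ m, ∀ q ∈ T, ‖g₀ m q‖ ≤ C) ∧
      ∀ q ∈ T, ∑ i, f i q.1 * g i q + ∑ m, G m q * g₀ m q = 1

section

variable {N M : ℕ} {ε K C : ℝ} {Ω : Set (ℝ × ℝ)}

theorem tube_bdd (hε : 0 < ε) (H : SiegelY N M ε K (72 * K) C) (hK : 0 ≤ K)
    (hΩ : IsOpen Ω)
    (f : Fin N → ℂ → ℂ) (hf : ∀ i, DifferentiableOn ℂ (f i) (bs Ω))
    (hfb : ∀ i, ∀ z ∈ bs Ω, ‖f i z‖ ≤ 1)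
    (G : Fin M → ℂ × ℂ → ℂ) (hG : ∀ m, DifferentiableOn ℂ (G m) (tube Ω))
    (hGb : ∀ m, ∀ q ∈ tube Ω, ‖G m q‖ ≤ 1)
    (k : Fin M → ℂ × ℂ → ℂ)
    (hk : ∀ m, DifferentiableOn ℂ (k m) {q | q ∈ tube Ω ∧ ∀ i, ‖f i q.1‖ < ε})
    (hkb : ∀ m, ∀ q ∈ tube Ω, (∀ i, ‖f i q.1‖ < ε) → ‖k m q‖ ≤ K)
    (hGk : ∀ q ∈ tube Ω, (∀ i, ‖f i q.1‖ < ε) → ∑ m, G m q * k m q = 1)
    {Ω' : Set (ℝ × ℝ)} (ho : IsOpen Ω') (hc : Convex ℝ Ω') (hne : Ω'.Nonempty) {R : ℝ}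
    (hR : ∀ p ∈ Ω', |p.1| ≤ R ∧ |p.2| ≤ R) (hcl : closure Ω' ⊆ Ω) :
    TSol N M C (tube Ω') f G := by
  classical
  have hR2 : ∀ p ∈ Ω', |p.2| ≤ R := fun p hp => (hR p hp).2
  set J : Set ℝ := Prod.fst '' Ω' with hJ
  have hJr : Prod.fst '' (refl Ω') = J := by
    ext t
    constructor
    · rintro ⟨p, hp, rfl⟩
      exact ⟨(p.1, -p.2), hp, rfl⟩
    · rintro ⟨p, hp, rfl⟩
      refine ⟨(p.1, -p.2), ?_, rfl⟩
      change (p.1, - -p.2) ∈ Ω'
      rwa [neg_neg]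
  have hJo : IsOpen J := isOpenMap_fst _ ho
  have hcv : ConvexOn ℝ J (lo Ω') := lo_conv ho hc hR2
  have hcv' : ConvexOn ℝ J (lo (refl Ω')) := by
    rw [← hJr]
    exact lo_conv (refl_open ho) (refl_conv hc) (refl_bd hR2)
  set a : ℝ → ℝ := J.piecewise (lo Ω') (fun _ => 0) with ha
  set b : ℝ → ℝ := J.piecewise (fun t => -lo (refl Ω') t) (fun _ => 0) with hb
  have hae : ∀ t ∈ J, a t = lo Ω' t := fun t ht => piecewise_eq_of_mem _ _ _ ht
  have hbe : ∀ t ∈ J, b t = -lo (refl Ω') t := fun t ht => piecewise_eq_of_mem _ _ _ ht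
  have hfib : ∀ t ∈ J, ∀ x, (t, x) ∈ Ω' ↔ a t < x ∧ x < b t := by
    intro t ht x
    rw [hae t ht, hbe t ht]
    exact fib_iff ho hc hR2 ht x
  have hlt : ∀ t ∈ J, a t < b t := by
    intro t ht
    obtain ⟨⟨t', x⟩, hx, rfl⟩ := ht
    have := (hfib _ ⟨_, hx, rfl⟩ x).1 hx
    exact this.1.trans this.2
  have hF : Fib J a b := by
    refine ⟨hJo, ?_, ?_, hlt, ?_, ?_⟩
    · exact hcv.congr (fun t ht => (hae t ht).symm)
    · exact hcv'.neg.congr (fun t ht => (hbe t ht).symm)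
    · exact ContinuousOn.measurable_piecewise (hcv.continuousOn hJo) continuousOn_const
        hJo.measurableSet
    · exact ContinuousOn.measurable_piecewise (hcv'.continuousOn hJo).neg continuousOn_const
        hJo.measurableSet
  have hDT : DT J a b = tube Ω' := by
    ext p
    constructor
    · intro hp
      exact (hfib _ hp.1 _).2 hp.2
    · intro hp
      have h1 : p.1.re ∈ J := ⟨_, hp, rfl⟩
      exact ⟨h1, (hfib _ h1 _).1 hp⟩
  rw [← hDT]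
  refine tube_step hε H hK hF (hne.image _) ?_ hΩ ?_ f hf hfb G hG hGb k hk hkb hGk
  · intro h
    have h1 : R + 1 ∈ J := by rw [h]; exact mem_univ _
    obtain ⟨p, hp, hp1⟩ := h1
    have h2 := (hR p hp).1
    rw [hp1] at h2
    have := le_abs_self (R + 1)
    linarith
  · intro t ht x h1 h2
    apply hcl
    have h3 : x ∈ closure (Ioo (a t) (b t)) := by
      rw [closure_Ioo (hlt t ht).ne]
      exact ⟨h1, h2⟩
    refine map_mem_closure (f := fun x : ℝ => (t, x)) (by fun_prop) h3 ?_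
    intro y hy
    exact (hfib t ht y).2 hy

/-- the exhaustion -/
def On (Ω : Set (ℝ × ℝ)) (p₀ : ℝ × ℝ) (n : ℕ) : Set (ℝ × ℝ) :=
  {p | p₀ + (1 + 1 / ((n : ℝ) + 1)) • (p - p₀) ∈ Ω ∩ ball p₀ (n + 1)}

/-- **Localisation theorem on tube domains.** -/
theorem tube_loc (hε : 0 < ε) (H : SiegelY N M ε K (72 * K) C) (hK : 0 ≤ K) (hC : 0 ≤ C)
    (hΩ : IsOpen Ω) (hconv : Convex ℝ Ω)
    (f : Fin N → ℂ → ℂ) (hf : ∀ i, DifferentiableOn ℂ (f i) (bs Ω))
    (hfb : ∀ i, ∀ z ∈ bs Ω, ‖f i z‖ ≤ 1)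
    (G : Fin M → ℂ × ℂ → ℂ) (hG : ∀ m, DifferentiableOn ℂ (G m) (tube Ω))
    (hGb : ∀ m, ∀ q ∈ tube Ω, ‖G m q‖ ≤ 1)
    (k : Fin M → ℂ × ℂ → ℂ)
    (hk : ∀ m, DifferentiableOn ℂ (k m) {q | q ∈ tube Ω ∧ ∀ i, ‖f i q.1‖ < ε})
    (hkb : ∀ m, ∀ q ∈ tube Ω, (∀ i, ‖f i q.1‖ < ε) → ‖k m q‖ ≤ K)
    (hGk : ∀ q ∈ tube Ω, (∀ i, ‖f i q.1‖ < ε) → ∑ m, G m q * k m q = 1) :
    TSol N M C (tube Ω) f G := by
  rcases Ω.eq_empty_or_nonempty with rfl | ⟨p₀, hp₀⟩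
  · have he : tube (∅ : Set (ℝ × ℝ)) = ∅ := by
      ext p; simp [tube]
    rw [he]
    exact ⟨fun _ _ => 0, fun _ _ => 0, fun i => differentiableOn_empty,
      fun i => differentiableOn_empty, fun i q hq => absurd hq (notMem_empty _),
      fun i q hq => absurd hq (notMem_empty _), fun q hq => absurd hq (notMem_empty _)⟩
  have hc1 : ∀ n : ℕ, (1 : ℝ) ≤ 1 + 1 / ((n : ℝ) + 1) := by
    intro n
    have : (0 : ℝ) ≤ 1 / ((n : ℝ) + 1) := by positivity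
    linarith
  have hcm : ∀ n m : ℕ, n ≤ m → 1 + 1 / ((m : ℝ) + 1) ≤ 1 + 1 / ((n : ℝ) + 1) := by
    intro n m hnm
    have : (n : ℝ) ≤ m := by exact_mod_cast hnm
    gcongr
  have hop : ∀ n, IsOpen (On Ω p₀ n) := by
    intro n
    refine (hΩ.inter isOpen_ball).preimage
      (f := fun p : ℝ × ℝ => p₀ + (1 + 1 / ((n : ℝ) + 1)) • (p - p₀)) (by fun_prop)
  have hcv : ∀ n, Convex ℝ (On Ω p₀ n) := by
    intro n p hp q hq c d hc hd hcd
    have h1 := (hconv.inter (convex_ball p₀ ((n : ℝ) + 1))) hp hq hc hd hcd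
    change p₀ + (1 + 1 / ((n : ℝ) + 1)) • (c • p + d • q - p₀) ∈ Ω ∩ ball p₀ (n + 1)
    have e : p₀ + (1 + 1 / ((n : ℝ) + 1)) • (c • p + d • q - p₀) =
        c • (p₀ + (1 + 1 / ((n : ℝ) + 1)) • (p - p₀)) +
        d • (p₀ + (1 + 1 / ((n : ℝ) + 1)) • (q - p₀)) := by
      have hd' : d = 1 - c := by linarith
      subst hd'
      module
    rw [e]
    exact h1
  have hne : ∀ n, (On Ω p₀ n).Nonempty := by
    intro n
    refine ⟨p₀, ?_⟩
    change p₀ + (1 + 1 / ((n : ℝ) + 1)) • (p₀ - p₀) ∈ Ω ∩ ball p₀ (n + 1)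
    rw [sub_self, smul_zero, add_zero]
    exact ⟨hp₀, mem_ball_self (by positivity)⟩
  have hbd : ∀ n, ∀ p ∈ On Ω p₀ n, ‖(1 + 1 / ((n : ℝ) + 1)) • (p - p₀)‖ < n + 1 := by
    intro n p hp
    have h1 := hp.2
    rw [mem_ball, dist_eq_norm, add_sub_cancel_left] at h1
    exact h1
  have hbd2 : ∀ n, ∀ p ∈ On Ω p₀ n, |p.1| ≤ ‖p₀‖ + (n + 1) ∧ |p.2| ≤ ‖p₀‖ + (n + 1) := by
    intro n p hp
    have h1 := hbd n p hp
    rw [norm_smul, Real.norm_of_nonneg (by linarith [hc1 n])] at h1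
    have h2 : 1 * ‖p - p₀‖ ≤ (1 + 1 / ((n : ℝ) + 1)) * ‖p - p₀‖ := by gcongr; exact hc1 n
    have h3 : ‖p‖ ≤ ‖p₀‖ + (n + 1) := by
      have := norm_add_le p₀ (p - p₀)
      rw [add_sub_cancel] at this
      linarith
    exact ⟨(norm_fst_le p).trans h3, (norm_snd_le p).trans h3⟩
  have hcl : ∀ n, closure (On Ω p₀ n) ⊆ Ω := by
    intro n p hp
    have h1 : p₀ + (1 + 1 / ((n : ℝ) + 1)) • (p - p₀) ∈ closure Ω := by
      refine map_mem_closure (f := fun p : ℝ × ℝ => p₀ + (1 + 1 / ((n : ℝ) + 1)) • (p - p₀))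
        (by fun_prop) hp ?_
      intro q hq
      exact hq.1
    set c := 1 + 1 / ((n : ℝ) + 1) with hc
    have hc1' : 1 < c := by
      have : 0 < 1 / ((n : ℝ) + 1) := by positivity
      rw [hc]; linarith
    have h2 := hconv.combo_interior_closure_mem_interior (x := p₀) (y := p₀ + c • (p - p₀))
      (a := 1 - c⁻¹) (b := c⁻¹) (by rwa [hΩ.interior_eq]) h1 (by
        rw [sub_pos]; exact inv_lt_one_of_one_lt₀ hc1') (by positivity) (by ring)
    rw [hΩ.interior_eq] at h2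
    have e : (1 - c⁻¹) • p₀ + c⁻¹ • (p₀ + c • (p - p₀)) = p := by
      rw [smul_add, smul_smul, inv_mul_cancel₀ (by positivity)]
      module
    rwa [e] at h2
  have hmono : Monotone (fun n => tube (On Ω p₀ n)) := by
    intro n m hnm p hp
    change (p.1.re, p.2.re) ∈ On Ω p₀ m
    have hp' : (p.1.re, p.2.re) ∈ On Ω p₀ n := hp
    set r : ℝ × ℝ := (p.1.re, p.2.re) with hr
    have h0 := hbd n r hp'
    have h1 := hp'.1
    set c := 1 + 1 / ((n : ℝ) + 1) with hc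
    set c' := 1 + 1 / ((m : ℝ) + 1) with hc'
    have hcc : c' ≤ c := hcm n m hnm
    have h1c : 1 ≤ c := hc1 n
    have h1c' : 1 ≤ c' := hc1 m
    constructor
    · have h2 := hconv hp₀ h1 (a := 1 - c' / c) (b := c' / c)
        (by rw [sub_nonneg]; exact div_le_one_of_le₀ hcc (by linarith)) (by positivity) (by ring)
      have e : (1 - c' / c) • p₀ + (c' / c) • (p₀ + c • (r - p₀)) = p₀ + c' • (r - p₀) := by
        rw [smul_add (c' / c), smul_smul, div_mul_cancel₀ _ (by positivity)]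
        module
      rwa [e] at h2
    · rw [mem_ball, dist_eq_norm, add_sub_cancel_left]
      rw [norm_smul, Real.norm_of_nonneg (by linarith)] at h0 ⊢
      have h3 : c' * ‖r - p₀‖ ≤ c * ‖r - p₀‖ := by gcongr
      have h4 : (n : ℝ) ≤ m := by exact_mod_cast hnm
      linarith
  have hU : (⋃ n, tube (On Ω p₀ n)) = tube Ω := by
    ext p
    rw [mem_iUnion]
    constructor
    · rintro ⟨n, hn⟩
      exact hcl n (subset_closure hn)
    · intro hp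
      have hp' : (p.1.re, p.2.re) ∈ Ω := hp
      set r : ℝ × ℝ := (p.1.re, p.2.re) with hr
      have h1 : Tendsto (fun n : ℕ => p₀ + (1 + 1 / ((n : ℝ) + 1)) • (r - p₀)) atTop (𝓝 r) := by
        have h2 := tendsto_one_div_add_atTop_nhds_zero_nat (𝕜 := ℝ)
        have h3 := (tendsto_const_nhds (x := p₀)).add (((tendsto_const_nhds (x := (1 : ℝ))).add
          h2).smul (tendsto_const_nhds (x := r - p₀)))
        rw [add_zero, one_smul, add_sub_cancel] at h3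
        exact h3
      have h2 : ∀ᶠ n : ℕ in atTop, p₀ + (1 + 1 / ((n : ℝ) + 1)) • (r - p₀) ∈ Ω :=
        h1.eventually (hΩ.mem_nhds hp')
      have h3 : ∀ᶠ n : ℕ in atTop, 2 * ‖r - p₀‖ < n :=
        tendsto_natCast_atTop_atTop.eventually_gt_atTop _
      obtain ⟨n, hn1, hn2⟩ := (h2.and h3).exists
      refine ⟨n, hn1, ?_⟩
      rw [mem_ball, dist_eq_norm, add_sub_cancel_left, norm_smul,
        Real.norm_of_nonneg (by linarith [hc1 n])]
      have h4 : 1 + 1 / ((n : ℝ) + 1) ≤ 2 := by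
        have : 1 / ((n : ℝ) + 1) ≤ 1 := by
          rw [div_le_one (by positivity)]
          have : (0 : ℝ) ≤ n := Nat.cast_nonneg n
          linarith
        linarith
      have h5 : (1 + 1 / ((n : ℝ) + 1)) * ‖r - p₀‖ ≤ 2 * ‖r - p₀‖ := by gcongr
      linarith
  obtain ⟨v, hv1, hv2, hv3⟩ := exhaust3 (C := C) (κ := Fin N ⊕ Fin M)
    (fun n => tube (On Ω p₀ n)) (fun n => tube_open (hop n)) hmono
    (Sum.elim (fun i q => f i q.1) G) (fun n => by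
      obtain ⟨g, g₀, a1, a2, a3, a4, a5⟩ :=
        tube_bdd hε H hK hΩ f hf hfb G hG hGb k hk hkb hGk (hop n) (hcv n) (hne n) (hbd2 n) (hcl n)
      refine ⟨Sum.elim g g₀, ?_, ?_, ?_⟩
      · rintro (i | i)
        · exact a1 i
        · exact a2 i
      · rintro (i | i)
        · exact a3 i
        · exact a4 i
      · intro q hq
        rw [Fintype.sum_sum_type]
        exact a5 q hq)
  rw [hU] at hv1 hv2 hv3
  refine ⟨fun i => v (Sum.inl i), fun m => v (Sum.inr m), fun i => hv1 _, fun m => hv1 _,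
    fun i => hv2 _, fun m => hv2 _, fun q hq => ?_⟩
  have h1 := hv3 q hq
  rw [Fintype.sum_sum_type] at h1
  exact h1

end

end Pool.Agent.N290.RC
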