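import Mathlib
import Pool.Agent.H788R3.Cor2.Asm2
import Pool.Agent.H720R2.Cor.Lim

/-!
Bounded holomorphic functions extend across the coordinate hyperplanes.
-/

set_option autoImplicit false

open Metric Set Filter Topology Complex

namespace Pool.Agent.N290.RC

variable {E : Type} [NormedAddCommGroup E] [NormedSpace ℂ E] [FiniteDimensional ℂ E]

/-- removable singularities along the hyperplane `w = 0` -/
theorem rem1 {W : Set (ℂ × E)} (hW : IsOpen W) {h : ℂ × E → ℂ} {C : ℝ}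
    (hd : DifferentiableOn ℂ h {p | p ∈ W ∧ p.1 ≠ 0}) (hb : ∀ p ∈ W, p.1 ≠ 0 → ‖h p‖ ≤ C) :
    ∃ H : ℂ × E → ℂ, DifferentiableOn ℂ H W ∧ (∀ p ∈ W, ‖H p‖ ≤ C) ∧
      ∀ p ∈ W, p.1 ≠ 0 → H p = h p := by
  set H : ℂ × E → ℂ := fun p =>
    Function.update (fun w => h (w, p.2)) 0 (limUnder (𝓝[≠] 0) (fun w => h (w, p.2))) p.1 with hH
  have hne : ∀ p : ℂ × E, p.1 ≠ 0 → H p = h p := by
    intro p hp
    simp only [hH]
    rw [Function.update_of_ne hp]
  have hyo : ∀ y : E, IsOpen {w : ℂ | (w, y) ∈ W} := fun y =>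
    hW.preimage (f := fun w : ℂ => (w, y)) (by fun_prop)
  have hd1 : ∀ y : E, DifferentiableOn ℂ (fun w => h (w, y)) ({w : ℂ | (w, y) ∈ W} \ {0}) := by
    intro y
    refine hd.comp (f := fun w : ℂ => (w, y)) (by fun_prop) ?_
    intro w hw
    exact ⟨hw.1, hw.2⟩
  have h1 : ∀ y : E, DifferentiableOn ℂ (fun w => H (w, y)) {w : ℂ | (w, y) ∈ W} := by
    intro y
    by_cases h0 : (0, y) ∈ W
    · refine Complex.differentiableOn_update_limUnder_of_bddAbove ((hyo y).mem_nhds h0) (hd1 y) ?_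
      refine ⟨C, ?_⟩
      rintro _ ⟨w, hw, rfl⟩
      exact hb _ hw.1 hw.2
    · have h2 : {w : ℂ | (w, y) ∈ W} \ {0} = {w : ℂ | (w, y) ∈ W} := by
        refine diff_singleton_eq_self ?_
        exact h0
      have h3 := hd1 y
      rw [h2] at h3
      refine h3.congr ?_
      intro w hw
      refine hne (w, y) ?_
      rintro (h4 : w = 0)
      subst h4
      exact h0 hw
  have ht : ∀ y : E, (0, y) ∈ W → Tendsto (fun w => h (w, y)) (𝓝[≠] 0) (𝓝 (H (0, y))) := by
    intro y hy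
    have h2 := ((h1 y).differentiableAt ((hyo y).mem_nhds hy)).continuousAt
    have h3 : Tendsto (fun w => H (w, y)) (𝓝[≠] 0) (𝓝 (H (0, y))) :=
      h2.tendsto.mono_left nhdsWithin_le_nhds
    refine h3.congr' ?_
    filter_upwards [self_mem_nhdsWithin] with w hw
    exact hne (w, y) hw
  have hev : ∀ y : E, (0, y) ∈ W → ∀ᶠ w in 𝓝[≠] (0 : ℂ), (w, y) ∈ W ∧ w ≠ 0 := by
    intro y hy
    have h2 : ∀ᶠ w in 𝓝[≠] (0 : ℂ), (w, y) ∈ W := nhdsWithin_le_nhds ((hyo y).mem_nhds hy)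
    filter_upwards [h2, self_mem_nhdsWithin] with w hw hw'
    exact ⟨hw, hw'⟩
  have hbd : ∀ p ∈ W, ‖H p‖ ≤ C := by
    rintro ⟨w, y⟩ hp
    by_cases hw : w = 0
    · subst hw
      refine le_of_tendsto (ht y hp).norm ?_
      filter_upwards [hev y hp] with w hw
      exact hb _ hw.1 hw.2
    · rw [hne (w, y) hw]
      exact hb _ hp hw
  refine ⟨H, ?_, hbd, fun p _ hp => hne p hp⟩
  refine Pool.Agent.H788R3.Cor2.osgood2 hW hbd h1 ?_
  intro w
  by_cases hw : w = 0
  · subst hw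
    intro y0 hy0
    apply DifferentiableAt.differentiableWithinAt
    have hy0' : ((0 : ℂ), y0) ∈ W := hy0
    obtain ⟨r, hr, hB⟩ := Metric.isOpen_iff.1 hW _ hy0'
    set cn : ℕ → ℂ := fun n => ((r / (n + 2) : ℝ) : ℂ) with hcn
    have hcpos : ∀ n : ℕ, 0 < r / ((n : ℝ) + 2) := fun n => by positivity
    have hclt : ∀ n : ℕ, r / ((n : ℝ) + 2) < r := by
      intro n
      rw [div_lt_iff₀ (by positivity)]
      have : (0 : ℝ) ≤ n := Nat.cast_nonneg n
      nlinarith
    have hcne : ∀ n, cn n ≠ 0 := by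
      intro n
      simp only [hcn]
      exact_mod_cast (hcpos n).ne'
    have hcm : ∀ n, ∀ y ∈ ball y0 r, (cn n, y) ∈ W := by
      intro n y hy
      apply hB
      rw [mem_ball, Prod.dist_eq]
      refine max_lt ?_ hy
      rw [dist_zero_right]
      simp only [hcn]
      rw [Complex.norm_real, Real.norm_of_nonneg (hcpos n).le]
      exact hclt n
    have hct : Tendsto cn atTop (𝓝[≠] 0) := by
      refine tendsto_nhdsWithin_of_tendsto_nhds_of_eventually_within _ ?_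
        (Eventually.of_forall hcne)
      have h2 : Tendsto (fun n : ℕ => r / ((n : ℝ) + 2)) atTop (𝓝 0) := by
        refine Tendsto.div_atTop tendsto_const_nhds ?_
        exact tendsto_atTop_add_const_right _ _ tendsto_natCast_atTop_atTop
      have h3 := (Complex.continuous_ofReal.tendsto 0).comp h2
      rw [Complex.ofReal_zero] at h3
      exact h3
    set 𝒰 : Ultrafilter ℕ := Ultrafilter.of atTop with h𝒰
    have hle : (𝒰 : Filter ℕ) ≤ atTop := Ultrafilter.of_le _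
    obtain ⟨F, hF1, -, hF3⟩ := Pool.Agent.H720R2.Cor.ultra_lim (B := ball y0 r) isOpen_ball (C := C) 𝒰
      (fun n y => h (cn n, y)) (fun n => by
        refine hd.comp (f := fun y : E => (cn n, y)) (by fun_prop) ?_
        intro y hy
        exact ⟨hcm n y hy, hcne n⟩) (fun n y hy => hb _ (hcm n y hy) (hcne n))
    have hFe : ∀ y ∈ ball y0 r, H (0, y) = F y := by
      intro y hy
      have h2 : ((0 : ℂ), y) ∈ W := by
        apply hB
        rw [mem_ball, Prod.dist_eq]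
        refine max_lt ?_ hy
        rw [dist_self]; exact hr
      exact tendsto_nhds_unique (((ht y h2).comp hct).mono_left hle) (hF3 y hy)
    have h4 : DifferentiableOn ℂ (fun y => H (0, y)) (ball y0 r) := hF1.congr hFe
    exact h4.differentiableAt (ball_mem_nhds _ hr)
  · have h2 : DifferentiableOn ℂ (fun y : E => h (w, y)) {y | (w, y) ∈ W} := by
      refine hd.comp (f := fun y : E => (w, y)) (by fun_prop) ?_
      intro y hy
      exact ⟨hy, hw⟩
    refine h2.congr ?_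
    intro y _
    exact hne (w, y) hw

/-- removable singularities along the coordinate axes of `ℂ²` -/
theorem rem2 {D : Set (ℂ × ℂ)} (hD : IsOpen D) {h : ℂ × ℂ → ℂ} {C : ℝ}
    (hd : DifferentiableOn ℂ h {p | p ∈ D ∧ p.1 ≠ 0 ∧ p.2 ≠ 0})
    (hb : ∀ p ∈ D, p.1 ≠ 0 → p.2 ≠ 0 → ‖h p‖ ≤ C) :
    ∃ H : ℂ × ℂ → ℂ, DifferentiableOn ℂ H D ∧ (∀ p ∈ D, ‖H p‖ ≤ C) ∧
      ∀ p ∈ D, p.1 ≠ 0 → p.2 ≠ 0 → H p = h p := by
  set W : Set (ℂ × ℂ) := {p | p ∈ D ∧ p.2 ≠ 0} with hW
  have hWo : IsOpen W := hD.inter (isOpen_ne.preimage continuous_snd)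
  obtain ⟨H1, a1, a2, a3⟩ := rem1 (C := C) hWo (h := h) (hd.mono (fun p hp => ⟨hp.1.1, hp.2, hp.1.2⟩))
    (fun p hp hp1 => hb p hp.1 hp1 hp.2)
  have hso : IsOpen (Prod.swap ⁻¹' D : Set (ℂ × ℂ)) := hD.preimage continuous_swap
  obtain ⟨H2, b1, b2, b3⟩ := rem1 (C := C) hso (h := fun p => H1 p.swap)
    (a1.comp (f := fun p : ℂ × ℂ => p.swap) (by
      exact (differentiable_snd.prodMk differentiable_fst).differentiableOn)
      (fun p hp => ⟨hp.1, hp.2⟩)) (fun p hp hp1 => a2 _ ⟨hp, hp1⟩)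
  refine ⟨fun p => H2 p.swap, ?_, ?_, ?_⟩
  · refine b1.comp (f := fun p : ℂ × ℂ => p.swap) ?_ ?_
    · exact (differentiable_snd.prodMk differentiable_fst).differentiableOn
    · intro p hp
      change p.swap.swap ∈ D
      rwa [Prod.swap_swap]
  · intro p hp
    refine b2 _ ?_
    change p.swap.swap ∈ D
    rwa [Prod.swap_swap]
  · intro p hp h1 h2
    have h3 := b3 p.swap (by change p.swap.swap ∈ D; rwa [Prod.swap_swap]) h2
    simp only [Prod.swap_swap] at h3
    exact h3.trans (a3 p ⟨hp, h2⟩ h1)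

end Pool.Agent.N290.RC
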