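import Mathlib
import Pool.Agent.N290.RC.Rem

/-!
Solutions of Bezout equations: averaging over a period, and descent along the exponential map.
-/

set_option autoImplicit false

open Metric Set Filter Topology Complex

namespace Pool.Agent.N290.RC

/-- bounded solutions of a Bezout equation -/
def GS {X : Type} [NormedAddCommGroup X] [NormedSpace ℂ X] (T : Set X) {κ : Type} [Fintype κ]
    (Φ : κ → X → ℂ) (C : ℝ) : Prop :=
  ∃ u : κ → X → ℂ, (∀ i, DifferentiableOn ℂ (u i) T) ∧ (∀ i, ∀ x ∈ T, ‖u i x‖ ≤ C) ∧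
    ∀ x ∈ T, ∑ i, Φ i x * u i x = 1

theorem GS.comp {X Y : Type} [NormedAddCommGroup X] [NormedSpace ℂ X] [NormedAddCommGroup Y]
    [NormedSpace ℂ Y] {T : Set X} {S : Set Y} {κ : Type} [Fintype κ] {Φ : κ → X → ℂ} {C : ℝ}
    (h : GS T Φ C) {φ : Y → X} (hφ : DifferentiableOn ℂ φ S) (hm : MapsTo φ S T)
    {Ψ : κ → Y → ℂ} (hΨ : ∀ i, ∀ y ∈ S, Ψ i y = Φ i (φ y)) : GS S Ψ C := by
  obtain ⟨u, h1, h2, h3⟩ := h
  refine ⟨fun i y => u i (φ y), fun i => (h1 i).comp hφ hm, fun i y hy => h2 i _ (hm hy), ?_⟩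
  intro y hy
  rw [← h3 _ (hm hy)]
  refine Finset.sum_congr rfl fun i _ => ?_
  rw [hΨ i y hy]

section

variable {X : Type} [NormedAddCommGroup X] [NormedSpace ℂ X]

/-- averaging over a period -/
theorem avg {T : Set X} (hT : IsOpen T) {τ : X} (hτ : ∀ x ∈ T, x + τ ∈ T) {κ : Type} [Fintype κ]
    {Φ : κ → X → ℂ} (hΦ : ∀ i, ∀ x ∈ T, Φ i (x + τ) = Φ i x) {C : ℝ} (h : GS T Φ C) :
    ∃ u : κ → X → ℂ, (∀ i, DifferentiableOn ℂ (u i) T) ∧ (∀ i, ∀ x ∈ T, ‖u i x‖ ≤ C) ∧
      (∀ x ∈ T, ∑ i, Φ i x * u i x = 1) ∧ ∀ i, ∀ x ∈ T, u i (x + τ) = u i x := by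
  obtain ⟨u, h1, h2, h3⟩ := h
  have hjT : ∀ j : ℕ, ∀ x ∈ T, x + j • τ ∈ T := by
    intro j
    induction j with
    | zero => intro x hx; simpa using hx
    | succ j ih =>
      intro x hx
      have := hτ _ (ih x hx)
      rwa [succ_nsmul, ← add_assoc]
  have hjΦ : ∀ j : ℕ, ∀ i, ∀ x ∈ T, Φ i (x + j • τ) = Φ i x := by
    intro j
    induction j with
    | zero => intro i x hx; simp
    | succ j ih =>
      intro i x hx
      rw [succ_nsmul, ← add_assoc, hΦ i _ (hjT j x hx), ih i x hx]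
  set A : κ → ℕ → X → ℂ := fun i n x =>
    ((n : ℂ) + 1)⁻¹ * ∑ j ∈ Finset.range (n + 1), u i (x + j • τ) with hA
  have hn0 : ∀ n : ℕ, ((n : ℂ) + 1) ≠ 0 := fun n => by exact_mod_cast Nat.succ_ne_zero n
  have hAd : ∀ i n, DifferentiableOn ℂ (A i n) T := by
    intro i n
    refine DifferentiableOn.const_mul ?_ _
    refine DifferentiableOn.fun_sum fun j _ => ?_
    refine (h1 i).comp (f := fun x => x + j • τ) (by fun_prop) (fun x hx => hjT j x hx)
  have hAb : ∀ i n, ∀ x ∈ T, ‖A i n x‖ ≤ C := by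
    intro i n x hx
    simp only [hA]
    rw [norm_mul, norm_inv]
    have e : ‖(n : ℂ) + 1‖ = (n : ℝ) + 1 := by
      have : ((n : ℂ) + 1) = ((n + 1 : ℕ) : ℂ) := by push_cast; ring
      rw [this, Complex.norm_natCast]
      push_cast; ring
    rw [e]
    have h4 : ‖∑ j ∈ Finset.range (n + 1), u i (x + j • τ)‖ ≤ ∑ j ∈ Finset.range (n + 1), C :=
      norm_sum_le_of_le _ fun j _ => h2 i _ (hjT j x hx)
    rw [Finset.sum_const, Finset.card_range, nsmul_eq_mul] at h4
    push_cast at h4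
    calc ((n : ℝ) + 1)⁻¹ * ‖∑ j ∈ Finset.range (n + 1), u i (x + j • τ)‖
        ≤ ((n : ℝ) + 1)⁻¹ * (((n : ℝ) + 1) * C) := by gcongr
      _ = C := by field_simp
  have hAs : ∀ n, ∀ x ∈ T, ∑ i, Φ i x * A i n x = 1 := by
    intro n x hx
    simp only [hA]
    have e1 : ∀ i, Φ i x * (((n : ℂ) + 1)⁻¹ * ∑ j ∈ Finset.range (n + 1), u i (x + j • τ)) =
        ((n : ℂ) + 1)⁻¹ * ∑ j ∈ Finset.range (n + 1), Φ i (x + j • τ) * u i (x + j • τ) := by
      intro i
      rw [mul_left_comm, Finset.mul_sum]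
      congr 1
      refine Finset.sum_congr rfl fun j _ => ?_
      rw [hjΦ j i x hx]
    simp only [e1]
    rw [← Finset.mul_sum, Finset.sum_comm]
    have e2 : ∀ j ∈ Finset.range (n + 1), ∑ i, Φ i (x + j • τ) * u i (x + j • τ) = 1 :=
      fun j _ => h3 _ (hjT j x hx)
    rw [Finset.sum_congr rfl e2, Finset.sum_const, Finset.card_range, nsmul_eq_mul]
    push_cast
    rw [mul_one, inv_mul_cancel₀ (hn0 n)]
  set 𝒰 : Ultrafilter ℕ := Ultrafilter.of atTop with h𝒰
  have hle : (𝒰 : Filter ℕ) ≤ atTop := Ultrafilter.of_le _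
  have hl := fun i => Pool.Agent.H720R2.Cor.ultra_lim hT 𝒰 (A i) (hAd i) (hAb i)
  choose F hF1 hF2 hF3 using hl
  refine ⟨F, hF1, hF2, ?_, ?_⟩
  · intro x hx
    have h4 : Tendsto (fun n => ∑ i, Φ i x * A i n x) 𝒰 (𝓝 (∑ i, Φ i x * F i x)) :=
      tendsto_finsetSum _ fun i _ => (hF3 i x hx).const_mul _
    have h5 : Tendsto (fun n => ∑ i, Φ i x * A i n x) 𝒰 (𝓝 1) := by
      refine tendsto_const_nhds.congr fun n => ?_
      exact (hAs n x hx).symm
    exact tendsto_nhds_unique h4 h5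
  · intro i x hx
    have h4 := (hF3 i _ (hτ x hx)).sub (hF3 i x hx)
    have h5 : Tendsto (fun n => A i n (x + τ) - A i n x) 𝒰 (𝓝 0) := by
      refine Tendsto.mono_left ?_ hle
      have h6 : ∀ n : ℕ, ‖A i n (x + τ) - A i n x‖ ≤ (2 * C) * (1 / ((n : ℝ) + 1)) := by
        intro n
        have e : A i n (x + τ) - A i n x = ((n : ℂ) + 1)⁻¹ * (u i (x + (n + 1) • τ) - u i x) := by
          simp only [hA]
          rw [← mul_sub]
          congr 1
          have e1 : ∀ j : ℕ, u i (x + τ + j • τ) = u i (x + (j + 1) • τ) := by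
            intro j
            congr 1
            rw [succ_nsmul]
            abel
          simp only [e1]
          rw [← Finset.sum_sub_distrib, Finset.sum_range_sub (fun j => u i (x + j • τ)) (n + 1)]
          simp
        rw [e, norm_mul, norm_inv]
        have e2 : ‖(n : ℂ) + 1‖ = (n : ℝ) + 1 := by
          have : ((n : ℂ) + 1) = ((n + 1 : ℕ) : ℂ) := by push_cast; ring
          rw [this, Complex.norm_natCast]
          push_cast; ring
        rw [e2, mul_comm (2 * C), one_div]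
        have h7 : ‖u i (x + (n + 1) • τ) - u i x‖ ≤ 2 * C := by
          refine (norm_sub_le _ _).trans ?_
          have a1 := h2 i _ (hjT (n + 1) x hx)
          have a2 := h2 i x hx
          linarith
        gcongr
      refine squeeze_zero_norm h6 ?_
      have h7 := (tendsto_one_div_add_atTop_nhds_zero_nat (𝕜 := ℝ)).const_mul (2 * C)
      rw [mul_zero] at h7
      exact h7
    have h6 := tendsto_nhds_unique h4 h5
    exact sub_eq_zero.1 h6

end

section

variable {E : Type} [NormedAddCommGroup E] [NormedSpace ℂ E] [FiniteDimensional ℂ E]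

/-- **Descent along the exponential map in the first variable.** -/
theorem unwrap {D : Set (ℂ × E)} (hD : IsOpen D) {κ : Type} [Fintype κ] {Φ : κ → ℂ × E → ℂ}
    (hΦ : ∀ i, ContinuousOn (Φ i) D) {C : ℝ}
    (h : GS {p : ℂ × E | (exp p.1, p.2) ∈ D} (fun i p => Φ i (exp p.1, p.2)) C) : GS D Φ C := by
  set T : Set (ℂ × E) := {p : ℂ × E | (exp p.1, p.2) ∈ D} with hT
  have hTo : IsOpen T := by
    refine hD.preimage (f := fun p : ℂ × E => (exp p.1, p.2)) ?_
    exact (Complex.continuous_exp.comp continuous_fst).prodMk continuous_snd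
  obtain ⟨u, h1, h2, h3, h4⟩ := avg hTo (τ := (2 * Real.pi * I, 0)) (by
    intro x hx
    change (exp (x.1 + 2 * Real.pi * I), x.2 + 0) ∈ D
    rw [Complex.exp_periodic, add_zero]
    exact hx) (by
    intro i x hx
    change Φ i (exp (x.1 + 2 * Real.pi * I), x.2 + 0) = _
    rw [Complex.exp_periodic, add_zero]) h
  have hnat : ∀ n : ℕ, ∀ i, ∀ w : ℂ, ∀ y : E, (w, y) ∈ T →
      u i (w + n * (2 * Real.pi * I), y) = u i (w, y) := by
    intro n
    induction n with
    | zero => intro i w y _; simp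
    | succ n ih =>
      intro i w y hw
      have h5 : (w + n * (2 * Real.pi * I), y) ∈ T := by
        change (exp (w + n * (2 * Real.pi * I)), y) ∈ D
        rw [Complex.exp_add, Complex.exp_nat_mul_two_pi_mul_I, mul_one]
        exact hw
      have h6 := h4 i _ h5
      rw [ih i w y hw] at h6
      rw [← h6]
      congr 1
      rw [Prod.mk_add_mk, add_zero]
      congr 1
      push_cast
      ring
  have hint : ∀ n : ℤ, ∀ i, ∀ w : ℂ, ∀ y : E, (w, y) ∈ T →
      u i (w + n * (2 * Real.pi * I), y) = u i (w, y) := by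
    intro n i w y hw
    obtain ⟨k, rfl | rfl⟩ := n.eq_nat_or_neg
    · exact_mod_cast hnat k i w y hw
    · have h5 : (w + ((-(k : ℤ) : ℤ) : ℂ) * (2 * Real.pi * I), y) ∈ T := by
        change (exp (w + ((-(k : ℤ) : ℤ) : ℂ) * (2 * Real.pi * I)), y) ∈ D
        rw [Complex.exp_add, Complex.exp_int_mul_two_pi_mul_I, mul_one]
        exact hw
      have h6 := hnat k i _ y h5
      rw [← h6]
      congr 2
      push_cast
      ring
  set v : κ → ℂ × E → ℂ := fun i p => u i (log p.1, p.2) with hv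
  have hlogT : ∀ p : ℂ × E, p ∈ D → p.1 ≠ 0 → (log p.1, p.2) ∈ T := by
    intro p hp hp1
    change (exp (log p.1), p.2) ∈ D
    rw [Complex.exp_log hp1]
    exact hp
  have hvd : ∀ i, DifferentiableOn ℂ (v i) {p | p ∈ D ∧ p.1 ≠ 0} := by
    rintro i ⟨z0, y0⟩ ⟨hz0, hz0'⟩
    apply DifferentiableAt.differentiableWithinAt
    have hz0n : z0 ≠ 0 := hz0'
    set L : ℂ → ℂ := fun z => log (z / z0) + log z0 with hL
    have hLexp : ∀ z : ℂ, z ≠ 0 → exp (L z) = z := by
      intro z hz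
      simp only [hL]
      rw [Complex.exp_add, Complex.exp_log (div_ne_zero hz hz0n), Complex.exp_log hz0n,
        div_mul_cancel₀ _ hz0n]
    have hLd : DifferentiableAt ℂ L z0 := by
      refine DifferentiableAt.add_const _ ?_
      refine DifferentiableAt.clog (by fun_prop) ?_
      rw [div_self hz0n]
      exact Complex.one_mem_slitPlane
    have hev : ∀ᶠ p : ℂ × E in 𝓝 (z0, y0), p ∈ D ∧ p.1 ≠ 0 := by
      exact (hD.inter (isOpen_ne.preimage continuous_fst)).mem_nhds ⟨hz0, hz0n⟩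
    have heq : (fun p : ℂ × E => u i (L p.1, p.2)) =ᶠ[𝓝 (z0, y0)] v i := by
      filter_upwards [hev] with p hp
      simp only [hv]
      have e1 : exp (L p.1) = exp (log p.1) := by
        rw [hLexp _ hp.2, Complex.exp_log hp.2]
      obtain ⟨n, hn⟩ := Complex.exp_eq_exp_iff_exists_int.1 e1
      rw [hn]
      exact hint n i _ _ (hlogT p hp.1 hp.2)
    refine DifferentiableAt.congr_of_eventuallyEq ?_ heq.symm
    have hmem : (L z0, y0) ∈ T := by
      change (exp (L z0), y0) ∈ D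
      rw [hLexp z0 hz0n]
      exact hz0
    have h5 : DifferentiableAt ℂ (u i) (L z0, y0) := (h1 i).differentiableAt (hTo.mem_nhds hmem)
    have h6 : DifferentiableAt ℂ (fun p : ℂ × E => (L p.1, p.2)) (z0, y0) := by
      refine DifferentiableAt.prodMk ?_ differentiableAt_snd
      exact DifferentiableAt.comp (z0, y0) (g := L) (by exact hLd) differentiableAt_fst
    exact DifferentiableAt.comp (z0, y0) (g := u i) h5 h6
  have hvb : ∀ i, ∀ p ∈ D, p.1 ≠ 0 → ‖v i p‖ ≤ C := fun i p hp hp1 => h2 i _ (hlogT p hp hp1)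
  have hvs : ∀ p ∈ D, p.1 ≠ 0 → ∑ i, Φ i p * v i p = 1 := by
    intro p hp hp1
    have h5 := h3 _ (hlogT p hp hp1)
    simp only [Complex.exp_log hp1] at h5
    exact h5
  choose H hH1 hH2 hH3 using fun i => rem1 hD (hvd i) (hvb i)
  refine ⟨H, hH1, hH2, ?_⟩
  rintro ⟨z, y⟩ hp
  by_cases hz : z = 0
  · subst hz
    have hyo : IsOpen {w : ℂ | (w, y) ∈ D} := hD.preimage (f := fun w : ℂ => (w, y)) (by fun_prop)
    have hcont : Tendsto (fun w : ℂ => ∑ i, Φ i (w, y) * H i (w, y)) (𝓝[≠] 0)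
        (𝓝 (∑ i, Φ i (0, y) * H i (0, y))) := by
      refine Tendsto.mono_left ?_ nhdsWithin_le_nhds
      refine tendsto_finsetSum _ fun i _ => ?_
      have c1 : ContinuousAt (Φ i) (0, y) := (hΦ i).continuousAt (hD.mem_nhds hp)
      have c2 : ContinuousAt (H i) (0, y) := (hH1 i).continuousOn.continuousAt (hD.mem_nhds hp)
      have c3 : ContinuousAt (fun w : ℂ => (w, y)) 0 := by fun_prop
      have c4 : Tendsto (fun w : ℂ => (w, y)) (𝓝 0) (𝓝 (0, y)) := c3
      exact (c1.tendsto.comp c4).mul (c2.tendsto.comp c4)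
    have h5 : Tendsto (fun w : ℂ => ∑ i, Φ i (w, y) * H i (w, y)) (𝓝[≠] 0) (𝓝 1) := by
      refine tendsto_const_nhds.congr' ?_
      have h6 : ∀ᶠ w in 𝓝[≠] (0 : ℂ), (w, y) ∈ D := nhdsWithin_le_nhds (hyo.mem_nhds hp)
      filter_upwards [h6, self_mem_nhdsWithin] with w hw hw'
      rw [← hvs (w, y) hw hw']
      refine Finset.sum_congr rfl fun i _ => ?_
      rw [hH3 i (w, y) hw hw']
    exact tendsto_nhds_unique hcont h5
  · rw [← hvs (z, y) hp hz]
    refine Finset.sum_congr rfl fun i _ => ?_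
    rw [hH3 i (z, y) hp hz]

end

/-- Descent along the exponential map in the second variable. -/
theorem unwrap' {D : Set (ℂ × ℂ)} (hD : IsOpen D) {κ : Type} [Fintype κ] {Φ : κ → ℂ × ℂ → ℂ}
    (hΦ : ∀ i, ContinuousOn (Φ i) D) {C : ℝ}
    (h : GS {p : ℂ × ℂ | (p.1, exp p.2) ∈ D} (fun i p => Φ i (p.1, exp p.2)) C) : GS D Φ C := by
  have hsd : Differentiable ℂ (Prod.swap : ℂ × ℂ → ℂ × ℂ) :=
    differentiable_snd.prodMk differentiable_fst
  have hso : IsOpen (Prod.swap ⁻¹' D : Set (ℂ × ℂ)) := hD.preimage continuous_swap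
  have h1 : GS (Prod.swap ⁻¹' D : Set (ℂ × ℂ)) (fun i p => Φ i p.swap) C := by
    refine unwrap hso ?_ ?_
    · intro i
      exact (hΦ i).comp continuous_swap.continuousOn (fun p hp => hp)
    · refine h.comp (φ := Prod.swap) hsd.differentiableOn ?_ ?_
      · intro p hp
        exact hp
      · intro i p hp
        rfl
  refine h1.comp (φ := Prod.swap) hsd.differentiableOn ?_ ?_
  · intro p hp
    change p.swap.swap ∈ D
    rwa [Prod.swap_swap]
  · intro i p hp
    rw [Prod.swap_swap]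

end Pool.Agent.N290.RC
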