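import Mathlib
import Pool.Agent.N290.RC.Tube2
import Pool.Agent.N290.RC.Unw

/-!
Localisation theorem for functions killed by a vector field, on tube domains, Reinhardt domains and
domains of mixed type.
-/

set_option autoImplicit false

open MeasureTheory Metric Set Filter Topology Complex

namespace Pool.Agent.N290.RC

/-- the hypotheses of the localisation theorem on a set `T`, in terms of a vector field `V` -/
structure Loc {X : Type} [NormedAddCommGroup X] [NormedSpace ℂ X] (T : Set X) (V : X → X) {N M : ℕ}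
    (F : Fin N → X → ℂ) (G : Fin M → X → ℂ) (k : Fin M → X → ℂ) (ε K : ℝ) : Prop where
  F_diff : ∀ i, DifferentiableOn ℂ (F i) T
  F_le : ∀ i, ∀ z ∈ T, ‖F i z‖ ≤ 1
  F_inv : ∀ i, ∀ z ∈ T, fderiv ℂ (F i) z (V z) = 0
  G_diff : ∀ m, DifferentiableOn ℂ (G m) T
  G_le : ∀ m, ∀ z ∈ T, ‖G m z‖ ≤ 1
  k_diff : ∀ m, DifferentiableOn ℂ (k m) {z | z ∈ T ∧ ∀ i, ‖F i z‖ < ε}
  k_le : ∀ m, ∀ z ∈ T, (∀ i, ‖F i z‖ < ε) → ‖k m z‖ ≤ K
  k_sol : ∀ z ∈ T, (∀ i, ‖F i z‖ < ε) → ∑ m, G m z * k m z = 1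

/-- the linear change of variables -/
def Lm (a b : ℝ) (p : ℂ × ℂ) : ℂ × ℂ := (a * p.2 - b * p.1, b * p.2 + a * p.1)

/-- its inverse -/
noncomputable def Li (a b : ℝ) (w : ℂ × ℂ) : ℂ × ℂ :=
  ((a * w.2 - b * w.1) / (a ^ 2 + b ^ 2 : ℝ), (a * w.1 + b * w.2) / (a ^ 2 + b ^ 2 : ℝ))

theorem Lm_Li {a b : ℝ} (hab : a ^ 2 + b ^ 2 ≠ 0) (w : ℂ × ℂ) : Lm a b (Li a b w) = w := by
  have h : (a : ℂ) ^ 2 + (b : ℂ) ^ 2 ≠ 0 := by exact_mod_cast hab
  unfold Lm Li
  push_cast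
  ext
  · simp only
    field_simp
    ring
  · simp only
    field_simp
    ring

theorem Lm_diff (a b : ℝ) : Differentiable ℂ (Lm a b) := by
  unfold Lm; fun_prop

theorem Li_diff (a b : ℝ) : Differentiable ℂ (Li a b) := by
  unfold Li; fun_prop

section

variable {N M : ℕ} {ε K C : ℝ}

/-- localisation on tubes, for functions killed by a constant real vector field -/
theorem tubeV (hε : 0 < ε) (H : SiegelY N M ε K (72 * K) C) (hK : 0 ≤ K) (hC : 0 ≤ C)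
    {Ω : Set (ℝ × ℝ)} (hΩ : IsOpen Ω) (hconv : Convex ℝ Ω) {a b : ℝ} (hab : a ^ 2 + b ^ 2 ≠ 0)
    {F : Fin N → ℂ × ℂ → ℂ} {G k : Fin M → ℂ × ℂ → ℂ}
    (h : Loc (tube Ω) (fun _ => ((a : ℂ), (b : ℂ))) F G k ε K) :
    GS (tube Ω) (Sum.elim F G : Fin N ⊕ Fin M → ℂ × ℂ → ℂ) C := by
  classical
  set Ω' : Set (ℝ × ℝ) := {p | (a * p.2 - b * p.1, b * p.2 + a * p.1) ∈ Ω} with hΩ'
  have hΩo : IsOpen Ω' := hΩ.preimage
    (f := fun p : ℝ × ℝ => (a * p.2 - b * p.1, b * p.2 + a * p.1)) (by fun_prop)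
  have hΩc : Convex ℝ Ω' := by
    intro p hp q hq c d hc hd hcd
    have h1 := hconv hp hq hc hd hcd
    change (a * (c • p + d • q).2 - b * (c • p + d • q).1,
      b * (c • p + d • q).2 + a * (c • p + d • q).1) ∈ Ω
    have e : (a * (c • p + d • q).2 - b * (c • p + d • q).1,
      b * (c • p + d • q).2 + a * (c • p + d • q).1) =
      c • (a * p.2 - b * p.1, b * p.2 + a * p.1) + d • (a * q.2 - b * q.1, b * q.2 + a * q.1) := by
      ext
      · simp only [Prod.fst_add, Prod.snd_add, Prod.smul_fst, Prod.smul_snd, smul_eq_mul]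
        ring
      · simp only [Prod.fst_add, Prod.snd_add, Prod.smul_fst, Prod.smul_snd, smul_eq_mul]
        ring
    rw [e]
    exact h1
  have hLmem : ∀ p : ℂ × ℂ, p ∈ tube Ω' ↔ Lm a b p ∈ tube Ω := by
    intro p
    change _ ∈ Ω ↔ _ ∈ Ω
    simp [Lm]
  have hto : IsOpen (tube Ω) := tube_open hΩ
  have hto' : IsOpen (tube Ω') := tube_open hΩo
  -- constancy along the fibres
  have hcst : ∀ i, ∀ s y y' : ℂ, (s, y) ∈ tube Ω' → (s, y') ∈ tube Ω' →
      F i (Lm a b (s, y)) = F i (Lm a b (s, y')) := by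
    intro i s y y' hy hy'
    set Y : Set ℂ := {y | (s, y) ∈ tube Ω'} with hY
    have hYo : IsOpen Y := hto'.preimage (f := fun y : ℂ => (s, y)) (by fun_prop)
    have hYc : Convex ℝ Y := by
      intro p hp q hq c d hc hd hcd
      have h1 := hΩc hp hq hc hd hcd
      change (s.re, (c • p + d • q).re) ∈ Ω'
      convert h1 using 1
      ext
      · simp only [Prod.fst_add, Prod.smul_fst, smul_eq_mul]
        rw [← add_mul, hcd, one_mul]
      · simp
    have hder : ∀ z ∈ Y, HasDerivAt (fun y => F i (Lm a b (s, y))) 0 z := by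
      intro z hz
      have hz' : Lm a b (s, z) ∈ tube Ω := (hLmem _).1 hz
      have h1 : HasFDerivAt (F i) (fderiv ℂ (F i) (Lm a b (s, z))) (Lm a b (s, z)) :=
        ((h.F_diff i).differentiableAt (hto.mem_nhds hz')).hasFDerivAt
      have h2 : HasDerivAt (fun y : ℂ => Lm a b (s, y)) ((a : ℂ), (b : ℂ)) z := by
        unfold Lm
        refine HasDerivAt.prodMk ?_ ?_
        · have := ((hasDerivAt_id z).const_mul (a : ℂ)).sub_const ((b : ℂ) * s)
          rwa [mul_one] at this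
        · have := ((hasDerivAt_id z).const_mul (b : ℂ)).add_const ((a : ℂ) * s)
          rwa [mul_one] at this
      have h3 := h1.comp_hasDerivAt z h2
      rw [h.F_inv i _ hz'] at h3
      exact h3
    exact hYo.is_const_of_deriv_eq_zero hYc.isPreconnected
      (fun z hz => (hder z hz).differentiableAt.differentiableWithinAt)
      (fun z hz => (hder z hz).deriv) hy hy'
  -- the functions on the base
  set ys : ℂ → ℂ := fun s => if hs : ∃ x : ℝ, (s.re, x) ∈ Ω' then (hs.choose : ℂ) else 0 with hys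
  have hysm : ∀ s ∈ bs Ω', (s, ys s) ∈ tube Ω' := by
    intro s hs
    change (s.re, (ys s).re) ∈ Ω'
    have hs' : ∃ x : ℝ, (s.re, x) ∈ Ω' := hs
    simp only [hys, dif_pos hs', Complex.ofReal_re]
    exact hs'.choose_spec
  set φ : Fin N → ℂ → ℂ := fun i s => F i (Lm a b (s, ys s)) with hφ
  have hbs : ∀ q ∈ tube Ω', q.1 ∈ bs Ω' := fun q hq => ⟨q.2.re, hq⟩
  have hφe : ∀ i, ∀ q ∈ tube Ω', φ i q.1 = F i (Lm a b q) := by
    intro i q hq
    exact hcst i q.1 _ _ (hysm _ (hbs q hq)) hq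
  have hφd : ∀ i, DifferentiableOn ℂ (φ i) (bs Ω') := by
    rintro i s0 ⟨x0, hx0⟩
    apply DifferentiableAt.differentiableWithinAt
    have hm : (s0, (x0 : ℂ)) ∈ tube Ω' := by
      change (s0.re, (x0 : ℂ).re) ∈ Ω'
      rwa [Complex.ofReal_re]
    have hso : IsOpen {s : ℂ | (s, (x0 : ℂ)) ∈ tube Ω'} :=
      hto'.preimage (f := fun s : ℂ => (s, (x0 : ℂ))) (by fun_prop)
    have h1 : (fun s => F i (Lm a b (s, (x0 : ℂ)))) =ᶠ[𝓝 s0] φ i := by
      filter_upwards [hso.mem_nhds hm] with s hs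
      exact (hφe i (s, (x0 : ℂ)) hs).symm
    refine DifferentiableAt.congr_of_eventuallyEq ?_ h1.symm
    have h2 : DifferentiableAt ℂ (F i) (Lm a b (s0, (x0 : ℂ))) :=
      (h.F_diff i).differentiableAt (hto.mem_nhds ((hLmem _).1 hm))
    have h3 : DifferentiableAt ℂ (fun s : ℂ => Lm a b (s, (x0 : ℂ))) s0 := by
      unfold Lm; fun_prop
    exact DifferentiableAt.comp s0 (g := F i) h2 h3
  have hkm : MapsTo (Lm a b) {q | q ∈ tube Ω' ∧ ∀ i, ‖φ i q.1‖ < ε}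
      {z | z ∈ tube Ω ∧ ∀ i, ‖F i z‖ < ε} := by
    rintro q ⟨hq, hq'⟩
    refine ⟨(hLmem q).1 hq, fun i => ?_⟩
    rw [← hφe i q hq]
    exact hq' i
  obtain ⟨g, g₀, a1, a2, a3, a4, a5⟩ := tube_loc hε H hK hC hΩo hΩc φ hφd
    (fun i s hs => h.F_le i _ ((hLmem _).1 (hysm s hs))) (fun m p => G m (Lm a b p))
    (fun m => (h.G_diff m).comp (Lm_diff a b).differentiableOn (fun p hp => (hLmem p).1 hp))
    (fun m q hq => h.G_le m _ ((hLmem q).1 hq)) (fun m p => k m (Lm a b p))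
    (fun m => (h.k_diff m).comp (Lm_diff a b).differentiableOn hkm)
    (fun m q hq hq' => h.k_le m _ (hkm ⟨hq, hq'⟩).1 (hkm ⟨hq, hq'⟩).2)
    (fun q hq hq' => h.k_sol _ (hkm ⟨hq, hq'⟩).1 (hkm ⟨hq, hq'⟩).2)
  have hgs : GS (tube Ω') (fun (j : Fin N ⊕ Fin M) p =>
      (Sum.elim F G : Fin N ⊕ Fin M → ℂ × ℂ → ℂ) j (Lm a b p)) C := by
    refine ⟨Sum.elim g g₀, ?_, ?_, ?_⟩
    · rintro (i | i)
      · exact a1 i
      · exact a2 i
    · rintro (i | i)
      · exact a3 i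
      · exact a4 i
    · intro q hq
      rw [Fintype.sum_sum_type, ← a5 q hq]
      congr 1
      refine Finset.sum_congr rfl fun i _ => ?_
      rw [hφe i q hq]
      rfl
  refine hgs.comp (φ := Li a b) (Li_diff a b).differentiableOn ?_ ?_
  · intro w hw
    rw [hLmem, Lm_Li hab]
    exact hw
  · intro j w _
    rw [Lm_Li hab]

/-- the coordinate `x` or `exp x` -/
noncomputable def ch (κ : Bool) (x : ℂ) : ℂ := if κ then exp x else x

/-- the derivative of `ch` in terms of the value -/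
def xi (κ : Bool) (z : ℂ) : ℂ := if κ then z else 1

theorem ch_deriv (κ : Bool) (x : ℂ) : HasDerivAt (ch κ) (xi κ (ch κ x)) x := by
  cases κ
  · exact hasDerivAt_id x
  · have : ch true = exp := by funext x; simp [ch]
    rw [this]
    exact Complex.hasDerivAt_exp x

theorem ch_diff (κ : Bool) : Differentiable ℂ (ch κ) := fun x => (ch_deriv κ x).differentiableAt

/-- tube, Reinhardt and mixed domains with convex (logarithmic) real image -/
structure Mod (κ₁ κ₂ : Bool) (D : Set (ℂ × ℂ)) : Prop where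
  op : IsOpen D
  inv : ∀ w : ℂ × ℂ, (ch κ₁ w.1, ch κ₂ w.2) ∈ D ↔ (ch κ₁ w.1.re, ch κ₂ w.2.re) ∈ D
  conv : Convex ℝ {x : ℝ × ℝ | (ch κ₁ x.1, ch κ₂ x.2) ∈ D}

theorem unwrap_ch (κ : Bool) {D : Set (ℂ × ℂ)} (hD : IsOpen D) {ι : Type} [Fintype ι]
    {Φ : ι → ℂ × ℂ → ℂ}
    (hΦ : ∀ i, ContinuousOn (Φ i) D) {C : ℝ}
    (h : GS {p : ℂ × ℂ | (ch κ p.1, p.2) ∈ D} (fun i p => Φ i (ch κ p.1, p.2)) C) : GS D Φ C := by
  cases κ
  · exact h
  · refine unwrap hD hΦ ?_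
    simp only [ch, if_true] at h
    exact h

theorem unwrap_ch' (κ : Bool) {D : Set (ℂ × ℂ)} (hD : IsOpen D) {ι : Type} [Fintype ι]
    {Φ : ι → ℂ × ℂ → ℂ}
    (hΦ : ∀ i, ContinuousOn (Φ i) D) {C : ℝ}
    (h : GS {p : ℂ × ℂ | (p.1, ch κ p.2) ∈ D} (fun i p => Φ i (p.1, ch κ p.2)) C) : GS D Φ C := by
  cases κ
  · exact h
  · refine unwrap' hD hΦ ?_
    simp only [ch, if_true] at h
    exact h

/-- **Localisation theorem on tube, Reinhardt and mixed domains.** -/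
theorem model (hε : 0 < ε) (H : SiegelY N M ε K (72 * K) C) (hK : 0 ≤ K) (hC : 0 ≤ C)
    {κ₁ κ₂ : Bool} {D : Set (ℂ × ℂ)} (hD : Mod κ₁ κ₂ D) {a b : ℝ} (hab : a ^ 2 + b ^ 2 ≠ 0)
    {F : Fin N → ℂ × ℂ → ℂ} {G k : Fin M → ℂ × ℂ → ℂ}
    (h : Loc D (fun z => (a * xi κ₁ z.1, b * xi κ₂ z.2)) F G k ε K) :
    GS D (Sum.elim F G : Fin N ⊕ Fin M → ℂ × ℂ → ℂ) C := by
  set Ω : Set (ℝ × ℝ) := {x | (ch κ₁ x.1, ch κ₂ x.2) ∈ D} with hΩ
  set E : ℂ × ℂ → ℂ × ℂ := fun w => (ch κ₁ w.1, ch κ₂ w.2) with hE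
  have hc1 : Continuous (ch κ₁) := (ch_diff κ₁).continuous
  have hc2 : Continuous (ch κ₂) := (ch_diff κ₂).continuous
  have hEd : Differentiable ℂ E := by
    refine Differentiable.prodMk ?_ ?_
    · exact (ch_diff κ₁).comp differentiable_fst
    · exact (ch_diff κ₂).comp differentiable_snd
  have hΩo : IsOpen Ω := by
    refine hD.op.preimage (f := fun x : ℝ × ℝ => (ch κ₁ x.1, ch κ₂ x.2)) ?_
    fun_prop
  have hmem : ∀ w : ℂ × ℂ, w ∈ tube Ω ↔ E w ∈ D := fun w => (hD.inv w).symm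
  have hΦc : ∀ j : Fin N ⊕ Fin M, ContinuousOn ((Sum.elim F G : Fin N ⊕ Fin M → ℂ × ℂ → ℂ) j) D := by
    rintro (i | i)
    · exact (h.F_diff i).continuousOn
    · exact (h.G_diff i).continuousOn
  have hkm : MapsTo E {q | q ∈ tube Ω ∧ ∀ i, ‖F i (E q)‖ < ε} {z | z ∈ D ∧ ∀ i, ‖F i z‖ < ε} :=
    fun q hq => ⟨(hmem q).1 hq.1, hq.2⟩
  have h1 : Loc (tube Ω) (fun _ => ((a : ℂ), (b : ℂ))) (fun i w => F i (E w))
      (fun m w => G m (E w)) (fun m w => k m (E w)) ε K := by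
    refine ⟨fun i => (h.F_diff i).comp hEd.differentiableOn (fun w hw => (hmem w).1 hw),
      fun i w hw => h.F_le i _ ((hmem w).1 hw), ?_,
      fun m => (h.G_diff m).comp hEd.differentiableOn (fun w hw => (hmem w).1 hw),
      fun m w hw => h.G_le m _ ((hmem w).1 hw),
      fun m => (h.k_diff m).comp hEd.differentiableOn hkm,
      fun m w hw hw' => h.k_le m _ ((hmem w).1 hw) hw',
      fun w hw hw' => h.k_sol _ ((hmem w).1 hw) hw'⟩
    intro i w hw
    have hw' : E w ∈ D := (hmem w).1 hw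
    have d1 : HasFDerivAt (F i) (fderiv ℂ (F i) (E w)) (E w) :=
      ((h.F_diff i).differentiableAt (hD.op.mem_nhds hw')).hasFDerivAt
    have d21 := (ch_deriv κ₁ w.1).hasFDerivAt.comp w (hasFDerivAt_fst (𝕜 := ℂ) (p := w))
    have d22 := (ch_deriv κ₂ w.2).hasFDerivAt.comp w (hasFDerivAt_snd (𝕜 := ℂ) (p := w))
    have d2 : HasFDerivAt E _ w := d21.prodMk d22
    have d3 := (d1.comp w d2).fderiv
    change fderiv ℂ (F i ∘ E) w ((a : ℂ), (b : ℂ)) = 0
    rw [d3]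
    have d4 := h.F_inv i _ hw'
    rw [ContinuousLinearMap.comp_apply]
    convert d4 using 2
    simp [hE]
  have h2 := tubeV hε H hK hC hΩo hD.conv hab h1
  set D₁ : Set (ℂ × ℂ) := {p | (ch κ₁ p.1, p.2) ∈ D} with hD₁
  have hD₁o : IsOpen D₁ := by
    refine hD.op.preimage (f := fun p : ℂ × ℂ => (ch κ₁ p.1, p.2)) ?_
    fun_prop
  refine unwrap_ch κ₁ hD.op hΦc ?_
  refine unwrap_ch' κ₂ hD₁o ?_ ?_
  · intro j
    refine (hΦc j).comp (f := fun p : ℂ × ℂ => (ch κ₁ p.1, p.2)) ?_ (fun p hp => hp)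
    fun_prop
  · refine h2.comp (φ := id) differentiableOn_id ?_ ?_
    · intro w hw
      exact (hmem w).2 hw
    · rintro (i | i) w _
      · rfl
      · rfl

end

end Pool.Agent.N290.RC
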