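import Mathlib
import Pool.Agent.Y263.SC.Fin
import Pool.Agent.N290.RC.Model

/-!
Products of invariant data and one arbitrary function.
-/

set_option autoImplicit false

open MeasureTheory Metric Set Filter Topology Complex

namespace Pool.Agent.N290.RC

open Pool.Agent.Y263.SC (Sol prod_sol)

/-- products of corona data, abstract form -/
theorem prod_abs {X : Type} [NormedAddCommGroup X] [NormedSpace ℂ X] {D : Set X} {m : ℕ}
    {N : Fin m → ℕ} {F : (j : Fin m) → Fin (N j) → X → ℂ} {G : X → ℂ} {C δ : ℝ} (hC : 0 < C)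
    (hF : ∀ j i, DifferentiableOn ℂ (F j i) D) (hFb : ∀ j i, ∀ z ∈ D, ‖F j i z‖ ≤ 1)
    (hGb : ∀ p ∈ D, ‖G p‖ ≤ 1)
    (hlow : ∀ z ∈ D, δ ≤ (∑ ι : (j : Fin m) → Fin (N j), ‖∏ j, F j (ι j) z‖) + ‖G z‖)
    (hS : ∀ j, (∀ z ∈ D, (∀ i, ‖F j i z‖ < δ / (Fintype.card ((j : Fin m) → Fin (N j)) + 1)) →
      δ / (Fintype.card ((j : Fin m) → Fin (N j)) + 1) ≤ ‖G z‖) → Sol D (F j) G C) :
    ∃ (g : ((j : Fin m) → Fin (N j)) → X → ℂ) (g₀ : X → ℂ),
        (∀ ι, DifferentiableOn ℂ (g ι) D) ∧ DifferentiableOn ℂ g₀ D ∧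
        (∀ ι, ∀ z ∈ D, ‖g ι z‖ ≤ max (C ^ m) (m * (C * (1 + C) ^ m))) ∧
        (∀ z ∈ D, ‖g₀ z‖ ≤ max (C ^ m) (m * (C * (1 + C) ^ m))) ∧
        ∀ z ∈ D, ∑ ι, (∏ j, F j (ι j) z) * g ι z + G z * g₀ z = 1 := by
  classical
  set P : ℕ := Fintype.card ((j : Fin m) → Fin (N j)) with hP
  set δ' : ℝ := δ / (P + 1) with hδ'
  have hP0 : (0 : ℝ) < P + 1 := by positivity
  refine prod_sol hC hF hGb fun j => hS j ?_
  intro z hz hsmall
  have h1 := hlow z hz
  by_contra hlt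
  push Not at hlt
  have h2 : ∀ ι : (j : Fin m) → Fin (N j), ‖∏ j, F j (ι j) z‖ ≤ δ' := by
    intro ι
    rw [norm_prod, ← Finset.mul_prod_erase Finset.univ _ (Finset.mem_univ j)]
    refine (mul_le_of_le_one_right (norm_nonneg _) ?_).trans (hsmall (ι j)).le
    exact Finset.prod_le_one (fun _ _ => norm_nonneg _) (fun i _ => hFb i (ι i) z hz)
  have h3 : ∑ ι : (j : Fin m) → Fin (N j), ‖∏ j, F j (ι j) z‖ ≤ P * δ' := by
    refine (Finset.sum_le_sum (fun ι _ => h2 ι)).trans (le_of_eq ?_)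
    rw [Finset.sum_const, Finset.card_univ, nsmul_eq_mul]
  have h4 : δ = P * δ' + δ' := by
    rw [hδ']
    field_simp
  linarith

/-- the local solution `1 / G` -/
theorem loc_one {X : Type} [NormedAddCommGroup X] [NormedSpace ℂ X] {D : Set X} {V : X → X} {N : ℕ}
    {δ : ℝ} (hδ : 0 < δ) {F : Fin N → X → ℂ} {G : X → ℂ}
    (hF : ∀ i, DifferentiableOn ℂ (F i) D) (hFb : ∀ i, ∀ z ∈ D, ‖F i z‖ ≤ 1)
    (hV : ∀ i, ∀ z ∈ D, fderiv ℂ (F i) z (V z) = 0)
    (hG : DifferentiableOn ℂ G D) (hGb : ∀ z ∈ D, ‖G z‖ ≤ 1)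
    (hs : ∀ z ∈ D, (∀ i, ‖F i z‖ < δ) → δ ≤ ‖G z‖) :
    Loc D V F (fun _ : Fin 1 => G) (fun _ : Fin 1 => fun z => (G z)⁻¹) δ δ⁻¹ := by
  have hne : ∀ z ∈ D, (∀ i, ‖F i z‖ < δ) → G z ≠ 0 := by
    intro z hz hz' h0
    have := hs z hz hz'
    rw [h0, norm_zero] at this
    linarith
  refine ⟨hF, hFb, hV, fun _ => hG, fun _ => hGb, fun _ => ?_, fun _ z hz hz' => ?_,
    fun z hz hz' => ?_⟩
  · exact (hG.mono (fun z hz => hz.1)).inv (fun z hz => hne z hz.1 hz.2)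
  · rw [norm_inv]
    exact inv_anti₀ hδ (hs z hz hz')
  · simp only [Finset.univ_unique, Finset.sum_const, Finset.card_singleton, one_smul]
    exact mul_inv_cancel₀ (hne z hz hz')

/-- from `GS` to `Sol` -/
theorem sol_of_GS {X : Type} [NormedAddCommGroup X] [NormedSpace ℂ X] {D : Set X} {N : ℕ}
    {F : Fin N → X → ℂ} {G : X → ℂ} {C : ℝ}
    (h : GS D (Sum.elim F (fun _ => G) : Fin N ⊕ Fin 1 → X → ℂ) C) : Sol D F G C := by
  obtain ⟨u, h1, h2, h3⟩ := h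
  refine ⟨fun i => u (Sum.inl i), u (Sum.inr 0), fun i => h1 _, h1 _, fun i => h2 _, h2 _, ?_⟩
  intro p hp
  have h4 := h3 p hp
  rw [Fintype.sum_sum_type] at h4
  simpa using h4

theorem Sol.mono {X : Type} [NormedAddCommGroup X] [NormedSpace ℂ X] {D : Set X} {N : ℕ}
    {F : Fin N → X → ℂ} {G : X → ℂ} {C C' : ℝ} (h : Sol D F G C) (hC : C ≤ C') : Sol D F G C' := by
  obtain ⟨g, g₀, h1, h2, h3, h4, h5⟩ := h
  exact ⟨g, g₀, h1, h2, fun i p hp => (h3 i p hp).trans hC, fun p hp => (h4 p hp).trans hC, h5⟩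

theorem GS.mono {X : Type} [NormedAddCommGroup X] [NormedSpace ℂ X] {T : Set X} {κ : Type}
    [Fintype κ] {Φ : κ → X → ℂ} {C C' : ℝ} (h : GS T Φ C) (hC : C ≤ C') : GS T Φ C' := by
  obtain ⟨u, h1, h2, h3⟩ := h
  exact ⟨u, h1, fun i p hp => (h2 i p hp).trans hC, h3⟩

/-- constants of the localisation theorem -/
theorem exists_C (N M : ℕ) {ε K : ℝ} (hε : 0 < ε) (hK : 0 ≤ K) :
    ∃ C : ℝ, 1 ≤ C ∧ SiegelY N M (min ε 1) K (72 * K) C := by
  obtain ⟨C, hC⟩ := siegelY N M (ε := min ε 1) (K := K) (K' := 72 * K) (lt_min hε one_pos)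
    (min_le_right _ _) hK (by positivity)
  refine ⟨max C 1, le_max_right _ _, ?_⟩
  intro E _ _ _ D hD f η hη hf hfb hlim G hG hGb O hO hOε k hk hkb hGk e he
  obtain ⟨g, g0, h1, h2, h3, h4, h5⟩ :=
    hC E D hD f η hη hf hfb hlim G hG hGb O hO hOε k hk hkb hGk e he
  exact ⟨g, g0, h1, h2, fun i p hp => (h3 i p hp).trans (le_max_left _ _),
    fun m p hp => (h4 m p hp).trans (le_max_left _ _), h5⟩

theorem Loc.minε {X : Type} [NormedAddCommGroup X] [NormedSpace ℂ X] {T : Set X} {V : X → X}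
    {N M : ℕ} {F : Fin N → X → ℂ} {G : Fin M → X → ℂ} {k : Fin M → X → ℂ} {ε K : ℝ}
    (h : Loc T V F G k ε K) : Loc T V F G k (min ε 1) K := by
  have h1 : ∀ z, (∀ i, ‖F i z‖ < min ε 1) → ∀ i, ‖F i z‖ < ε :=
    fun z hz i => (hz i).trans_le (min_le_left _ _)
  exact ⟨h.F_diff, h.F_le, h.F_inv, h.G_diff, h.G_le,
    fun m => (h.k_diff m).mono (fun z hz => ⟨hz.1, h1 z hz.2⟩),
    fun m z hz hz' => h.k_le m z hz (h1 z hz'), fun z hz hz' => h.k_sol z hz (h1 z hz')⟩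

theorem Loc.maxK {X : Type} [NormedAddCommGroup X] [NormedSpace ℂ X] {T : Set X} {V : X → X}
    {N M : ℕ} {F : Fin N → X → ℂ} {G : Fin M → X → ℂ} {k : Fin M → X → ℂ} {ε K K' : ℝ}
    (h : Loc T V F G k ε K) (hK : K ≤ K') : Loc T V F G k ε K' :=
  ⟨h.F_diff, h.F_le, h.F_inv, h.G_diff, h.G_le, h.k_diff,
    fun m z hz hz' => (h.k_le m z hz hz').trans hK, h.k_sol⟩

theorem dprod {X : Type} [NormedAddCommGroup X] [NormedSpace ℂ X] {D : Set X}
    {ι : Type} (s : Finset ι) (A : ι → X → ℂ) (h : ∀ j ∈ s, DifferentiableOn ℂ (A j) D) :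
    DifferentiableOn ℂ (fun z => ∏ j ∈ s, A j z) D := by
  classical
  induction s using Finset.induction_on with
  | empty => simp
  | insert i s hi ih =>
    have h1 := (h i (Finset.mem_insert_self _ _)).fun_mul
      (ih (fun j hj => h j (Finset.mem_insert_of_mem hj)))
    refine h1.congr (fun z _ => ?_)
    rw [Finset.prod_insert hi]

/-- products over several families, with several arbitrary functions -/
theorem prod_loc {X : Type} [NormedAddCommGroup X] [NormedSpace ℂ X] {D : Set X} {m M : ℕ}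
    {N : Fin m → ℕ} {F : (j : Fin m) → Fin (N j) → X → ℂ} {G : Fin M → X → ℂ} {C : ℝ} (hC : 0 ≤ C)
    (hF : ∀ j i, DifferentiableOn ℂ (F j i) D) (hGd : ∀ l, DifferentiableOn ℂ (G l) D)
    (hGb : ∀ l, ∀ p ∈ D, ‖G l p‖ ≤ 1)
    (hS : ∀ j, GS D (Sum.elim (F j) G : Fin (N j) ⊕ Fin M → X → ℂ) C) :
    ∃ (g : ((j : Fin m) → Fin (N j)) → X → ℂ) (g₀ : Fin M → X → ℂ),
        (∀ ι, DifferentiableOn ℂ (g ι) D) ∧ (∀ l, DifferentiableOn ℂ (g₀ l) D) ∧
        (∀ ι, ∀ z ∈ D, ‖g ι z‖ ≤ max (C ^ m) (m * (C * (1 + M * C) ^ m))) ∧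
        (∀ l, ∀ z ∈ D, ‖g₀ l z‖ ≤ max (C ^ m) (m * (C * (1 + M * C) ^ m))) ∧
        ∀ z ∈ D, ∑ ι, (∏ j, F j (ι j) z) * g ι z + ∑ l, G l z * g₀ l z = 1 := by
  classical
  choose u hu1 hu2 hu3 using hS
  set A : Fin m → X → ℂ := fun j z => ∑ i, F j i z * u j (Sum.inl i) z with hA
  have hAd : ∀ j, DifferentiableOn ℂ (A j) D := fun j =>
    DifferentiableOn.fun_sum (fun i _ => (hF j i).fun_mul (hu1 j _))
  have hAe : ∀ j, ∀ z ∈ D, A j z = 1 - ∑ l, G l z * u j (Sum.inr l) z := by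
    intro j z hz
    have h1 := hu3 j z hz
    rw [Fintype.sum_sum_type] at h1
    simp only [Sum.elim_inl, Sum.elim_inr] at h1
    simp only [hA]
    linear_combination h1
  have hAb : ∀ j, ∀ z ∈ D, ‖A j z‖ ≤ 1 + M * C := by
    intro j z hz
    rw [hAe j z hz]
    refine (norm_sub_le _ _).trans ?_
    rw [norm_one]
    have h1 : ‖∑ l, G l z * u j (Sum.inr l) z‖ ≤ ∑ _l : Fin M, C := by
      refine norm_sum_le_of_le _ fun l _ => ?_
      rw [norm_mul]
      have h2 := hGb l z hz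
      have h3 := hu2 j (Sum.inr l) z hz
      calc ‖G l z‖ * ‖u j (Sum.inr l) z‖ ≤ 1 * C := by gcongr
        _ = C := one_mul _
    rw [Finset.sum_const, Finset.card_univ, Fintype.card_fin, nsmul_eq_mul] at h1
    linarith
  have hMC : 0 ≤ M * C := by positivity
  refine ⟨fun ι z => ∏ j, u j (Sum.inl (ι j)) z,
    fun l z => ∑ j, u j (Sum.inr l) z * ∏ i ∈ Finset.univ.filter (fun i => i < j), A i z,
    ?_, ?_, ?_, ?_, ?_⟩
  · intro ι
    exact dprod _ (fun j z => u j (Sum.inl (ι j)) z) (fun j _ => hu1 j _)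
  · intro l
    refine DifferentiableOn.fun_sum (fun j _ => (hu1 j _).fun_mul ?_)
    exact dprod _ A (fun i _ => hAd i)
  · intro ι z hz
    rw [norm_prod]
    refine le_trans ?_ (le_max_left _ _)
    calc ∏ j, ‖u j (Sum.inl (ι j)) z‖ ≤ ∏ _j : Fin m, C :=
          Finset.prod_le_prod (fun _ _ => norm_nonneg _) (fun j _ => hu2 j _ z hz)
      _ = C ^ m := by simp
  · intro l z hz
    refine le_trans ?_ (le_max_right _ _)
    refine (norm_sum_le _ _).trans ?_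
    have h1 : ∀ j ∈ Finset.univ, ‖u j (Sum.inr l) z *
        ∏ i ∈ Finset.univ.filter (fun i => i < j), A i z‖ ≤ C * (1 + M * C) ^ m := by
      intro j _
      rw [norm_mul, norm_prod]
      have h2 := hu2 j (Sum.inr l) z hz
      have h3 : ∏ i ∈ Finset.univ.filter (fun i => i < j), ‖A i z‖ ≤ (1 + M * C) ^ m := by
        calc ∏ i ∈ Finset.univ.filter (fun i => i < j), ‖A i z‖
            ≤ ∏ _i ∈ Finset.univ.filter (fun i => i < j), (1 + M * C) :=
              Finset.prod_le_prod (fun _ _ => norm_nonneg _) (fun i _ => hAb i z hz)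
          _ = (1 + M * C) ^ (Finset.univ.filter (fun i => i < j)).card := by
              rw [Finset.prod_const]
          _ ≤ (1 + M * C) ^ m := by
              refine pow_le_pow_right₀ (by linarith) ?_
              refine (Finset.card_filter_le _ _).trans ?_
              simp
      exact mul_le_mul h2 h3 (Finset.prod_nonneg fun _ _ => norm_nonneg _) hC
    refine (Finset.sum_le_sum h1).trans (le_of_eq ?_)
    simp
  · intro z hz
    set T : Fin m → ℂ := fun j => ∑ l, G l z * u j (Sum.inr l) z with hT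
    have h1 := Finset.prod_one_sub_ordered (Finset.univ : Finset (Fin m)) T
    have h2 : ∏ j, A j z = ∏ j, (1 - T j) :=
      Finset.prod_congr rfl (fun j _ => hAe j z hz)
    have h3 : ∀ j, ∏ i ∈ Finset.univ.filter (fun i => i < j), A i z =
        ∏ i ∈ Finset.univ.filter (fun i => i < j), (1 - T i) := fun j =>
      Finset.prod_congr rfl (fun i _ => hAe i z hz)
    have h4 : ∏ j, A j z = ∑ ι : (j : Fin m) → Fin (N j),
        (∏ j, F j (ι j) z) * ∏ j, u j (Sum.inl (ι j)) z := by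
      simp only [hA]
      rw [Finset.prod_univ_sum, Fintype.piFinset_univ]
      refine Finset.sum_congr rfl (fun ι _ => ?_)
      rw [Finset.prod_mul_distrib]
    rw [← h4, h2, h1]
    simp only [h3]
    have h5 : ∑ l, G l z * ∑ j, u j (Sum.inr l) z *
        ∏ i ∈ Finset.univ.filter (fun i => i < j), (1 - T i) =
        ∑ j, T j * ∏ i ∈ Finset.univ.filter (fun i => i < j), (1 - T i) := by
      simp only [Finset.mul_sum]
      rw [Finset.sum_comm]
      refine Finset.sum_congr rfl fun j _ => ?_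
      conv_rhs => rw [hT]
      simp only
      rw [Finset.sum_mul]
      refine Finset.sum_congr rfl fun l _ => ?_
      ring
    rw [h5]
    ring

/-- restriction of the local solutions for the products to those for one family -/
theorem loc_of_prod {X : Type} [NormedAddCommGroup X] [NormedSpace ℂ X] {D : Set X} {m M : ℕ}
    {N : Fin m → ℕ} {F : (j : Fin m) → Fin (N j) → X → ℂ} {G k : Fin M → X → ℂ} {ε K : ℝ}
    {V : Fin m → X → X}
    (hF : ∀ j i, DifferentiableOn ℂ (F j i) D) (hFb : ∀ j i, ∀ z ∈ D, ‖F j i z‖ ≤ 1)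
    (hV : ∀ j i, ∀ z ∈ D, fderiv ℂ (F j i) z (V j z) = 0)
    (hGd : ∀ l, DifferentiableOn ℂ (G l) D) (hGb : ∀ l, ∀ p ∈ D, ‖G l p‖ ≤ 1)
    (hk : ∀ l, DifferentiableOn ℂ (k l)
      {z | z ∈ D ∧ ∀ ι : (j : Fin m) → Fin (N j), ‖∏ j, F j (ι j) z‖ < ε})
    (hkb : ∀ l, ∀ z ∈ D, (∀ ι : (j : Fin m) → Fin (N j), ‖∏ j, F j (ι j) z‖ < ε) → ‖k l z‖ ≤ K)
    (hks : ∀ z ∈ D, (∀ ι : (j : Fin m) → Fin (N j), ‖∏ j, F j (ι j) z‖ < ε) →
      ∑ l, G l z * k l z = 1) (j : Fin m) :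
    Loc D (V j) (F j) G k ε K := by
  have h1 : ∀ z ∈ D, (∀ i, ‖F j i z‖ < ε) →
      ∀ ι : (j : Fin m) → Fin (N j), ‖∏ j, F j (ι j) z‖ < ε := by
    intro z hz hz' ι
    rw [norm_prod, ← Finset.mul_prod_erase Finset.univ _ (Finset.mem_univ j)]
    refine (mul_le_of_le_one_right (norm_nonneg _) ?_).trans_lt (hz' (ι j))
    exact Finset.prod_le_one (fun _ _ => norm_nonneg _) (fun i _ => hFb i (ι i) z hz)
  exact ⟨hF j, hFb j, hV j, hGd, hGb, fun l => (hk l).mono (fun z hz => ⟨hz.1, h1 z hz.1 hz.2⟩),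
    fun l z hz hz' => hkb l z hz (h1 z hz hz'), fun z hz hz' => hks z hz (h1 z hz hz')⟩

end Pool.Agent.N290.RC
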