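import Mathlib
import Pool.Agent.N290.RC.Prod

/-!
Transport of the localisation theorem from model domains to the unit ball.
-/

set_option autoImplicit false

open Metric Set Filter Topology Complex Matrix

namespace Pool.Agent.N290.RC

/-- transport of the hypotheses under a holomorphic map -/
theorem Loc.transport {D B : Set (ℂ × ℂ)} (hD : IsOpen D) (hB : IsOpen B) {Ψ : ℂ × ℂ → ℂ × ℂ}
    (hΨ : DifferentiableOn ℂ Ψ D) (hm : MapsTo Ψ D B) {V V' : ℂ × ℂ → ℂ × ℂ}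
    (hV : ∀ w ∈ D, ∃ c : ℂ, c ≠ 0 ∧ c • fderiv ℂ Ψ w (V' w) = V (Ψ w)) {N M : ℕ}
    {F : Fin N → ℂ × ℂ → ℂ} {G k : Fin M → ℂ × ℂ → ℂ} {ε K : ℝ} (h : Loc B V F G k ε K) :
    Loc D V' (fun i w => F i (Ψ w)) (fun l w => G l (Ψ w)) (fun l w => k l (Ψ w)) ε K := by
  have hkm : MapsTo Ψ {q | q ∈ D ∧ ∀ i, ‖F i (Ψ q)‖ < ε} {z | z ∈ B ∧ ∀ i, ‖F i z‖ < ε} :=
    fun q hq => ⟨hm hq.1, hq.2⟩
  refine ⟨fun i => (h.F_diff i).comp hΨ hm, fun i w hw => h.F_le i _ (hm hw), ?_,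
    fun l => (h.G_diff l).comp hΨ hm, fun l w hw => h.G_le l _ (hm hw),
    fun l => (h.k_diff l).comp (hΨ.mono (fun q hq => hq.1)) hkm,
    fun l w hw hw' => h.k_le l _ (hm hw) hw', fun w hw hw' => h.k_sol _ (hm hw) hw'⟩
  intro i w hw
  have d1 : DifferentiableAt ℂ (F i) (Ψ w) := (h.F_diff i).differentiableAt (hB.mem_nhds (hm hw))
  have d2 : DifferentiableAt ℂ Ψ w := hΨ.differentiableAt (hD.mem_nhds hw)
  have d3 : fderiv ℂ (fun w => F i (Ψ w)) w = (fderiv ℂ (F i) (Ψ w)).comp (fderiv ℂ Ψ w) :=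
    fderiv_comp w d1 d2
  rw [d3, ContinuousLinearMap.comp_apply]
  obtain ⟨c, hc, hc2⟩ := hV w hw
  have h1 := h.F_inv i _ (hm hw)
  rw [← hc2, map_smul, smul_eq_mul] at h1
  exact (mul_eq_zero.1 h1).resolve_left hc

/-- the unit ball of `ℂ²` -/
def B2 : Set (ℂ × ℂ) := {z | ‖z.1‖ ^ 2 + ‖z.2‖ ^ 2 < 1}

theorem B2_open : IsOpen B2 := by
  refine isOpen_lt (by fun_prop) continuous_const

/-- homogeneous coordinates -/
def lift (z : ℂ × ℂ) : Fin 3 → ℂ := ![1, z.1, z.2]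

/-- affine coordinates -/
noncomputable def aff (v : Fin 3 → ℂ) : ℂ × ℂ := (v 1 / v 0, v 2 / v 0)

/-- the Hermitian form of the ball -/
noncomputable def qB (v : Fin 3 → ℂ) : ℝ := -‖v 0‖ ^ 2 + ‖v 1‖ ^ 2 + ‖v 2‖ ^ 2

/-- the vector field of a matrix -/
def VX (X : Matrix (Fin 3) (Fin 3) ℂ) (z : ℂ × ℂ) : ℂ × ℂ :=
  ((X *ᵥ lift z) 1 - z.1 * (X *ᵥ lift z) 0, (X *ᵥ lift z) 2 - z.2 * (X *ᵥ lift z) 0)

theorem qB_lift (z : ℂ × ℂ) : qB (lift z) < 0 ↔ z ∈ B2 := by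
  unfold qB lift B2
  simp only [Matrix.cons_val_zero, Matrix.cons_val_one, Matrix.cons_val_two, Matrix.head_cons,
    Matrix.tail_cons, norm_one, mem_setOf_eq]
  constructor <;> intro h <;> linarith

theorem v0_ne {v : Fin 3 → ℂ} (h : qB v < 0) : v 0 ≠ 0 := by
  intro h0
  unfold qB at h
  rw [h0, norm_zero] at h
  nlinarith [sq_nonneg ‖v 1‖, sq_nonneg ‖v 2‖]

theorem aff_mem {v : Fin 3 → ℂ} (h : qB v < 0) : aff v ∈ B2 := by
  have h0 := v0_ne h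
  have h1 : 0 < ‖v 0‖ ^ 2 := by positivity
  unfold qB at h
  change ‖v 1 / v 0‖ ^ 2 + ‖v 2 / v 0‖ ^ 2 < 1
  rw [norm_div, norm_div, div_pow, div_pow, ← add_div, div_lt_one h1]
  linarith

theorem aff_lift (z : ℂ × ℂ) {s : ℂ} (hs : s ≠ 0) : aff (s • lift z) = z := by
  unfold aff lift
  ext
  · simp [hs]
  · simp [hs]

theorem lift_aff {v : Fin 3 → ℂ} (h0 : v 0 ≠ 0) : lift (aff v) = (v 0)⁻¹ • v := by
  unfold aff lift
  ext i
  fin_cases i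
  · simp [h0]
  · simp [div_eq_inv_mul]
  · simp [div_eq_inv_mul]

/-- derivative of `aff` along a curve -/
theorem aff_deriv {E : Type} [NormedAddCommGroup E] [NormedSpace ℂ E] {u : E → Fin 3 → ℂ}
    {u' : E →L[ℂ] (Fin 3 → ℂ)} {w : E} (hu : HasFDerivAt u u' w) (h0 : u w 0 ≠ 0) (x : E) :
    DifferentiableAt ℂ (fun w => aff (u w)) w ∧
    fderiv ℂ (fun w => aff (u w)) w x =
      ((u' x 1 - (u w 1 / u w 0) * u' x 0) / u w 0,
        (u' x 2 - (u w 2 / u w 0) * u' x 0) / u w 0) := by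
  have hi : ∀ i, HasFDerivAt (fun w => u w i) ((ContinuousLinearMap.proj i).comp u') w :=
    fun i => (hasFDerivAt_pi'.1 hu) i
  have hinv : HasFDerivAt (fun w => (u w 0)⁻¹) _ w := (hasDerivAt_inv h0).comp_hasFDerivAt w (hi 0)
  have hq : ∀ i, HasFDerivAt (fun w => u w i / u w 0) _ w := fun i => by
    simp only [div_eq_mul_inv]
    exact (hi i).mul hinv
  have h1 : HasFDerivAt (fun w => aff (u w)) _ w := (hq 1).prodMk (hq 2)
  refine ⟨h1.differentiableAt, ?_⟩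
  rw [h1.fderiv]
  ext
  · simp
    field_simp
    ring
  · simp
    field_simp
    ring

/-- **Transport to the ball.** -/
theorem ball_of_model {P Q X X' : Matrix (Fin 3) (Fin 3) ℂ} (hPQ : P * Q = 1)
    (hX : X * P = P * X') {q' : (Fin 3 → ℂ) → ℝ} (hq : ∀ v, qB (P *ᵥ v) = q' v)
    {κ₁ κ₂ : Bool} {D : Set (ℂ × ℂ)} (hD : Mod κ₁ κ₂ D) {h : ℂ × ℂ → Fin 3 → ℂ}
    (hh : Differentiable ℂ h) (hhD : ∀ w ∈ D, q' (h w) < 0) {ρ : (Fin 3 → ℂ) → ℂ × ℂ}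
    (hρ : DifferentiableOn ℂ ρ {v | q' v < 0}) (hρD : ∀ v, q' v < 0 → ρ v ∈ D)
    (hρh : ∀ v, q' v < 0 → ∃ s : ℂ, s ≠ 0 ∧ h (ρ v) = s • v) {a b : ℝ} {c : ℂ} (hc : c ≠ 0)
    (hab : a ^ 2 + b ^ 2 ≠ 0)
    (hode : ∀ w ∈ D, ∃ l : ℂ,
      c • fderiv ℂ h w (a * xi κ₁ w.1, b * xi κ₂ w.2) = X' *ᵥ h w - l • h w)
    {N M : ℕ} {F : Fin N → ℂ × ℂ → ℂ} {G k : Fin M → ℂ × ℂ → ℂ} {ε K C : ℝ}
    (hε : 0 < ε) (H : SiegelY N M ε K (72 * K) C) (hK : 0 ≤ K) (hC : 0 ≤ C)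
    (hloc : Loc B2 (VX X) F G k ε K) :
    GS B2 (Sum.elim F G : Fin N ⊕ Fin M → ℂ × ℂ → ℂ) C := by
  set Ψ : ℂ × ℂ → ℂ × ℂ := fun w => aff (P *ᵥ h w) with hΨ
  have hq0 : ∀ w ∈ D, qB (P *ᵥ h w) < 0 := fun w hw => by rw [hq]; exact hhD w hw
  have hder : ∀ w, HasFDerivAt (fun w => P *ᵥ h w)
      ((LinearMap.toContinuousLinearMap (Matrix.mulVecLin P)).comp (fderiv ℂ h w)) w := by
    intro w
    exact (LinearMap.toContinuousLinearMap (Matrix.mulVecLin P)).hasFDerivAt.comp w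
      (hh w).hasFDerivAt
  have hΨd : DifferentiableOn ℂ Ψ D := by
    intro w hw
    exact (aff_deriv (hder w) (v0_ne (hq0 w hw)) 0).1.differentiableWithinAt
  have hΨm : MapsTo Ψ D B2 := fun w hw => aff_mem (hq0 w hw)
  have hV : ∀ w ∈ D, ∃ c : ℂ, c ≠ 0 ∧
      c • fderiv ℂ Ψ w (a * xi κ₁ w.1, b * xi κ₂ w.2) = VX X (Ψ w) := by
    intro w hw
    refine ⟨c, hc, ?_⟩
    obtain ⟨l, hl⟩ := hode w hw
    have h0 := v0_ne (hq0 w hw)
    set v := P *ᵥ h w with hv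
    have e1 := (aff_deriv (hder w) h0 (a * xi κ₁ w.1, b * xi κ₂ w.2)).2
    change fderiv ℂ Ψ w (a * xi κ₁ w.1, b * xi κ₂ w.2) = _ at e1
    rw [e1]
    set y := ((LinearMap.toContinuousLinearMap (Matrix.mulVecLin P)).comp (fderiv ℂ h w))
      (a * xi κ₁ w.1, b * xi κ₂ w.2) with hy
    have e2 : c • y = X *ᵥ v - l • v := by
      have : y = P *ᵥ (fderiv ℂ h w (a * xi κ₁ w.1, b * xi κ₂ w.2)) := rfl
      rw [this, ← Matrix.mulVec_smul, hl, Matrix.mulVec_sub, Matrix.mulVec_smul,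
        Matrix.mulVec_mulVec, ← hX, ← Matrix.mulVec_mulVec]
    have e3 : ∀ i, c * y i = (X *ᵥ v) i - l * v i := by
      intro i
      have := congrFun e2 i
      simpa using this
    have e4 : X *ᵥ lift (Ψ w) = (v 0)⁻¹ • (X *ᵥ v) := by
      change X *ᵥ lift (aff v) = _
      rw [lift_aff h0, Matrix.mulVec_smul]
    unfold VX
    rw [e4]
    change c • (_, _) = _
    ext
    · simp only [Prod.smul_mk, smul_eq_mul, Pi.smul_apply]
      change c * ((y 1 - v 1 / v 0 * y 0) / v 0) = (v 0)⁻¹ * (X *ᵥ v) 1 -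
        (v 1 / v 0) * ((v 0)⁻¹ * (X *ᵥ v) 0)
      have f1 := e3 1
      have f0 := e3 0
      field_simp
      linear_combination (v 0) * f1 - (v 1) * f0
    · simp only [Prod.smul_mk, smul_eq_mul, Pi.smul_apply]
      change c * ((y 2 - v 2 / v 0 * y 0) / v 0) = (v 0)⁻¹ * (X *ᵥ v) 2 -
        (v 2 / v 0) * ((v 0)⁻¹ * (X *ᵥ v) 0)
      have f1 := e3 2
      have f0 := e3 0
      field_simp
      linear_combination (v 0) * f1 - (v 2) * f0
  have hloc' := hloc.transport hD.op B2_open hΨd hΨm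
    (V' := fun w => (a * xi κ₁ w.1, b * xi κ₂ w.2)) hV
  have hgs := model hε H hK hC hD hab hloc'
  have hq1 : ∀ z ∈ B2, q' (Q *ᵥ lift z) < 0 := by
    intro z hz
    rw [← hq, Matrix.mulVec_mulVec, hPQ, Matrix.one_mulVec, qB_lift]
    exact hz
  have hΨΦ : ∀ z ∈ B2, Ψ (ρ (Q *ᵥ lift z)) = z := by
    intro z hz
    obtain ⟨s, hs, hs2⟩ := hρh _ (hq1 z hz)
    change aff (P *ᵥ h (ρ (Q *ᵥ lift z))) = z
    rw [hs2, Matrix.mulVec_smul, Matrix.mulVec_mulVec, hPQ, Matrix.one_mulVec]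
    exact aff_lift z hs
  have hld : Differentiable ℂ (fun z : ℂ × ℂ => Q *ᵥ lift z) := by
    have h1 : Differentiable ℂ lift := by
      rw [differentiable_pi]
      intro i
      fin_cases i
      · simp [lift]
      · simp only [lift]; exact differentiable_fst
      · simp only [lift]; exact differentiable_snd
    exact (LinearMap.toContinuousLinearMap (Matrix.mulVecLin Q)).differentiable.comp h1
  refine hgs.comp (φ := fun z => ρ (Q *ᵥ lift z)) ?_ (fun z hz => hρD _ (hq1 z hz)) ?_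
  · exact hρ.comp hld.differentiableOn (fun z hz => hq1 z hz)
  · rintro (i | i) z hz
    · simp only [Sum.elim_inl]
      rw [hΨΦ z hz]
    · simp only [Sum.elim_inr]
      rw [hΨΦ z hz]

end Pool.Agent.N290.RC
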