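import Mathlib
import Pool.Agent.N290.RC.BallT

/-!
The four types of one-parameter groups of automorphisms of the ball of `ℂ²`.
-/

set_option autoImplicit false

open Metric Set Filter Topology Complex Matrix

namespace Pool.Agent.N290.RC

/-- the localisation theorem holds for the functions killed by the vector field of `X` -/
def Good (X : Matrix (Fin 3) (Fin 3) ℂ) : Prop :=
  ∀ (N M : ℕ) (F : Fin N → ℂ × ℂ → ℂ) (G k : Fin M → ℂ × ℂ → ℂ) (ε K C : ℝ),
    0 < ε → SiegelY N M ε K (72 * K) C → 0 ≤ K → 0 ≤ C → Loc B2 (VX X) F G k ε K →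
    GS B2 (Sum.elim F G : Fin N ⊕ Fin M → ℂ × ℂ → ℂ) C

/-- the Hermitian form of the Siegel domain -/
noncomputable def qS (v : Fin 3 → ℂ) : ℝ := ‖v 1‖ ^ 2 - (v 0 * starRingEnd ℂ (v 2)).im

theorem qS_smul (s : ℂ) (v : Fin 3 → ℂ) : qS (s • v) = ‖s‖ ^ 2 * qS v := by
  unfold qS
  simp only [Pi.smul_apply, smul_eq_mul, norm_mul, map_mul]
  have h1 : s * v 0 * (starRingEnd ℂ s * starRingEnd ℂ (v 2)) =
      ((‖s‖ ^ 2 : ℝ) : ℂ) * (v 0 * starRingEnd ℂ (v 2)) := by
    have : s * starRingEnd ℂ s = ((‖s‖ ^ 2 : ℝ) : ℂ) := by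
      rw [Complex.mul_conj, Complex.normSq_eq_norm_sq]
    rw [← this]
    ring
  rw [h1, Complex.im_ofReal_mul]
  ring

theorem v2_ne {v : Fin 3 → ℂ} (h : qS v < 0) : v 2 ≠ 0 := by
  intro h0
  unfold qS at h
  rw [h0] at h
  simp at h
  nlinarith [sq_nonneg ‖v 1‖]

theorem im_pos {v : Fin 3 → ℂ} (h : qS v < 0) : 0 < (v 0 / v 2).im := by
  have h2 := v2_ne h
  have h3 : qS ((v 2)⁻¹ • v) < 0 := by
    rw [qS_smul]
    have : 0 < ‖(v 2)⁻¹‖ ^ 2 := by
      have : (v 2)⁻¹ ≠ 0 := inv_ne_zero h2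
      positivity
    exact mul_neg_of_pos_of_neg this h
  unfold qS at h3
  simp only [Pi.smul_apply, smul_eq_mul, inv_mul_cancel₀ h2, map_one, mul_one] at h3
  rw [div_eq_inv_mul]
  nlinarith [sq_nonneg ‖(v 2)⁻¹ * v 1‖]

theorem ch_true (x : ℂ) : ch true x = exp x := by simp [ch]
theorem ch_false (x : ℂ) : ch false x = x := by simp [ch]
theorem xi_true (x : ℂ) : xi true x = x := by simp [xi]
theorem xi_false (x : ℂ) : xi false x = 1 := by simp [xi]

theorem norm_exp_re (w : ℂ) : ‖exp w‖ = ‖exp (w.re : ℂ)‖ := by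
  rw [Complex.norm_exp, Complex.norm_exp, Complex.ofReal_re]

theorem B2_mod : Mod true true B2 := by
  refine ⟨B2_open, ?_, ?_⟩
  · intro w
    simp only [ch_true]
    unfold B2
    simp only [mem_setOf_eq]
    rw [norm_exp_re w.1, norm_exp_re w.2]
  · intro p hp q hq a b ha hb hab
    simp only [ch_true, B2, mem_setOf_eq, Complex.norm_exp, Complex.ofReal_re, ← Real.exp_nat_mul]
      at hp hq ⊢
    have h1 := convexOn_exp.2 (mem_univ (((2 : ℕ) : ℝ) * p.1)) (mem_univ (((2 : ℕ) : ℝ) * q.1))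
      ha hb hab
    have h2 := convexOn_exp.2 (mem_univ (((2 : ℕ) : ℝ) * p.2)) (mem_univ (((2 : ℕ) : ℝ) * q.2))
      ha hb hab
    simp only [smul_eq_mul] at h1 h2
    have e1 : ((2 : ℕ) : ℝ) * (a • p + b • q).1 =
        a * (((2 : ℕ) : ℝ) * p.1) + b * (((2 : ℕ) : ℝ) * q.1) := by
      simp only [Prod.fst_add, Prod.smul_fst, smul_eq_mul]; ring
    have e2 : ((2 : ℕ) : ℝ) * (a • p + b • q).2 =
        a * (((2 : ℕ) : ℝ) * p.2) + b * (((2 : ℕ) : ℝ) * q.2) := by
      simp only [Prod.snd_add, Prod.smul_snd, smul_eq_mul]; ring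
    rw [e1, e2]
    rcases ha.eq_or_lt with h0 | h0
    · have hb1 : b = 1 := by linarith
      subst hb1
      rw [← h0] at h1 h2 ⊢
      linarith
    · have h3 : a * (Real.exp (((2 : ℕ) : ℝ) * p.1) + Real.exp (((2 : ℕ) : ℝ) * p.2)) < a * 1 :=
        mul_lt_mul_of_pos_left hp h0
      have h4 : b * (Real.exp (((2 : ℕ) : ℝ) * q.1) + Real.exp (((2 : ℕ) : ℝ) * q.2)) ≤ b * 1 :=
        mul_le_mul_of_nonneg_left hq.le hb
      linarith

theorem lift_diff : Differentiable ℂ lift := by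
  rw [differentiable_pi]
  intro i
  fin_cases i
  · simp [lift]
  · simp only [lift]; exact differentiable_fst
  · simp only [lift]; exact differentiable_snd

/-- a derivative in a given direction, computed along a line -/
theorem fderiv_line {h : ℂ × ℂ → Fin 3 → ℂ} (hh : Differentiable ℂ h) (w x : ℂ × ℂ)
    {y : Fin 3 → ℂ} (hy : ∀ i, HasDerivAt (fun t : ℂ => h (w + t • x) i) (y i) 0) :
    fderiv ℂ h w x = y := by
  have h1 : HasDerivAt (fun t : ℂ => h (w + t • x)) (fderiv ℂ h w x) 0 := by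
    have h2 : HasDerivAt (fun t : ℂ => w + t • x) x 0 := by
      have := ((hasDerivAt_id (0 : ℂ)).smul_const x).const_add w
      rwa [one_smul] at this
    have h3 : HasFDerivAt h (fderiv ℂ h w) (w + (0 : ℂ) • x) := by
      rw [zero_smul, add_zero]
      exact (hh w).hasFDerivAt
    exact h3.comp_hasDerivAt 0 h2
  exact h1.unique (hasDerivAt_pi.2 hy)

/-- elliptic case -/
theorem case_E {P Q X : Matrix (Fin 3) (Fin 3) ℂ} (hPQ : P * Q = 1) {μ : Fin 3 → ℝ}
    (hX : X * P = P * Matrix.diagonal (fun j => I * μ j)) (hq : ∀ v, qB (P *ᵥ v) = qB v)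
    (hμ : (μ 1 - μ 0) ^ 2 + (μ 2 - μ 0) ^ 2 ≠ 0) : Good X := by
  intro N M F G k ε K C hε H hK hC hloc
  refine ball_of_model hPQ hX hq B2_mod lift_diff (fun w hw => (qB_lift w).2 hw) (ρ := aff) ?_
    (fun v hv => aff_mem hv) ?_ (c := I) I_ne_zero hμ ?_ hε H hK hC hloc
  · intro v hv
    exact (aff_deriv (u := fun v => v) (hasFDerivAt_id v) (v0_ne hv)
      (0 : Fin 3 → ℂ)).1.differentiableWithinAt
  · intro v hv
    refine ⟨(v 0)⁻¹, inv_ne_zero (v0_ne hv), lift_aff (v0_ne hv)⟩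
  · intro w _
    refine ⟨I * μ 0, ?_⟩
    rw [fderiv_line lift_diff w _ (y := ![0, ((μ 1 - μ 0 : ℝ) : ℂ) * w.1,
      ((μ 2 - μ 0 : ℝ) : ℂ) * w.2])]
    · ext i
      fin_cases i
      · simp [lift, Matrix.mulVec_diagonal]
      · simp [lift, Matrix.mulVec_diagonal]
        ring
      · simp [lift, Matrix.mulVec_diagonal]
        ring
    · intro i
      fin_cases i
      · simp only [lift]
        exact hasDerivAt_const _ _
      · simp only [lift, xi_true]
        have := ((hasDerivAt_id (0 : ℂ)).mul_const (((μ 1 - μ 0 : ℝ) : ℂ) * w.1)).const_add w.1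
        rw [one_mul] at this
        exact this
      · simp only [lift, xi_true]
        have := ((hasDerivAt_id (0 : ℂ)).mul_const (((μ 2 - μ 0 : ℝ) : ℂ) * w.2)).const_add w.2
        rw [one_mul] at this
        exact this

end Pool.Agent.N290.RC
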