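import Mathlib
import Pool.Agent.N290.RC.BallM

/-!
Hyperbolic and parabolic one-parameter groups of automorphisms of the ball of `ℂ²`.
-/

set_option autoImplicit false

open Metric Set Filter Topology Complex Matrix

namespace Pool.Agent.N290.RC

theorem dq {E : Type} [NormedAddCommGroup E] [NormedSpace ℂ E] {f g : E → ℂ} {x : E}
    (hf : DifferentiableAt ℂ f x) (hg : DifferentiableAt ℂ g x) (h0 : g x ≠ 0) :
    DifferentiableAt ℂ (fun x => f x / g x) x := by
  simp only [div_eq_mul_inv]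
  exact hf.mul (hg.inv h0)

/-- model domain of the hyperbolic groups -/
def DH : Set (ℂ × ℂ) := {p | 0 < p.1.re ∧ p.1.re < Real.pi ∧ ‖p.2‖ ^ 2 < Real.sin p.1.re}

theorem DH_mod : Mod false true DH := by
  refine ⟨?_, ?_, ?_⟩
  · have h1 : IsOpen {p : ℂ × ℂ | 0 < p.1.re} := isOpen_lt continuous_const (by fun_prop)
    have h2 : IsOpen {p : ℂ × ℂ | p.1.re < Real.pi} := isOpen_lt (by fun_prop) continuous_const
    have h3 : IsOpen {p : ℂ × ℂ | ‖p.2‖ ^ 2 < Real.sin p.1.re} :=
      isOpen_lt (by fun_prop) (Real.continuous_sin.comp (Complex.continuous_re.comp continuous_fst))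
    exact h1.inter (h2.inter h3)
  · intro w
    simp only [ch_true, ch_false]
    unfold DH
    simp only [mem_setOf_eq, Complex.ofReal_re]
    rw [norm_exp_re w.2]
  · intro p hp q hq a b ha hb hab
    simp only [ch_true, ch_false, DH, mem_setOf_eq, Complex.norm_exp, Complex.ofReal_re,
      ← Real.exp_nat_mul] at hp hq ⊢
    obtain ⟨p1, p2, p3⟩ := hp
    obtain ⟨q1, q2, q3⟩ := hq
    have h1 := strictConcaveOn_sin_Icc.concaveOn.2 (x := p.1) ⟨p1.le, p2.le⟩ (y := q.1)
      ⟨q1.le, q2.le⟩ ha hb hab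
    have h2 := convexOn_exp.2 (mem_univ (((2 : ℕ) : ℝ) * p.2)) (mem_univ (((2 : ℕ) : ℝ) * q.2))
      ha hb hab
    simp only [smul_eq_mul] at h1 h2
    have e0 : (a • p + b • q).1 = a * p.1 + b * q.1 := by
      simp only [Prod.fst_add, Prod.smul_fst, smul_eq_mul]
    have e2 : ((2 : ℕ) : ℝ) * (a • p + b • q).2 =
        a * (((2 : ℕ) : ℝ) * p.2) + b * (((2 : ℕ) : ℝ) * q.2) := by
      simp only [Prod.snd_add, Prod.smul_snd, smul_eq_mul]; ring
    rw [e0, e2]
    rcases ha.eq_or_lt with h0 | h0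
    · have hb1 : b = 1 := by linarith
      subst hb1
      rw [← h0] at h1 h2 ⊢
      simp only [zero_mul, one_mul, zero_add] at h1 h2 ⊢
      exact ⟨q1, q2, q3⟩
    · have h3 : a * Real.exp (((2 : ℕ) : ℝ) * p.2) < a * Real.sin p.1 :=
        mul_lt_mul_of_pos_left p3 h0
      have h4 : b * Real.exp (((2 : ℕ) : ℝ) * q.2) ≤ b * Real.sin q.1 :=
        mul_le_mul_of_nonneg_left q3.le hb
      refine ⟨?_, ?_, by linarith⟩
      · have := mul_pos h0 p1
        have := mul_nonneg hb q1.le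
        linarith
      · have h5 : a * p.1 < a * Real.pi := mul_lt_mul_of_pos_left p2 h0
        have h6 : b * q.1 ≤ b * Real.pi := mul_le_mul_of_nonneg_left q2.le hb
        have h7 : a * Real.pi + b * Real.pi = Real.pi := by rw [← add_mul, hab, one_mul]
        linarith

/-- the embedding of the hyperbolic model -/
noncomputable def hH (w : ℂ × ℂ) : Fin 3 → ℂ := ![exp (I * w.1 / 2), w.2, exp (-(I * w.1 / 2))]

theorem hH_diff : Differentiable ℂ hH := by
  rw [differentiable_pi]
  intro i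
  fin_cases i
  · simp only [hH]
    change Differentiable ℂ (fun w : ℂ × ℂ => exp (I * w.1 / 2))
    fun_prop
  · simp only [hH]; exact differentiable_snd
  · simp only [hH]
    change Differentiable ℂ (fun w : ℂ × ℂ => exp (-(I * w.1 / 2)))
    fun_prop

theorem qS_hH (w : ℂ × ℂ) : qS (hH w) = ‖w.2‖ ^ 2 - Real.sin w.1.re := by
  unfold qS hH
  simp only [Matrix.cons_val_zero, Matrix.cons_val_one, Matrix.cons_val_two, Matrix.head_cons,
    Matrix.tail_cons]
  congr 1
  rw [← Complex.exp_conj, ← Complex.exp_add]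
  have : I * w.1 / 2 + (starRingEnd ℂ) (-(I * w.1 / 2)) = (w.1.re : ℂ) * I := by
    simp only [map_neg, map_div₀, map_mul, Complex.conj_I, map_ofNat]
    have h := Complex.add_conj w.1
    push_cast at h
    linear_combination (I / 2) * h
  rw [this, Complex.exp_ofReal_mul_I_im]

/-- the inverse of `hH` -/
noncomputable def rH (v : Fin 3 → ℂ) : ℂ × ℂ :=
  (-I * log (v 0 / v 2), v 1 / (v 2 * exp (log (v 0 / v 2) / 2)))

theorem hH_rH {v : Fin 3 → ℂ} (h : qS v < 0) : ∃ s : ℂ, s ≠ 0 ∧ hH (rH v) = s • v := by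
  have h2 := v2_ne h
  have h3 := im_pos h
  have hz : v 0 / v 2 ≠ 0 := by
    intro h0
    rw [h0] at h3
    simp at h3
  have hv0 : v 0 ≠ 0 := by
    intro h0
    rw [h0, zero_div] at hz
    exact hz rfl
  set σ := exp (log (v 0 / v 2) / 2) with hσ
  have hσ0 : σ ≠ 0 := Complex.exp_ne_zero _
  have hσ2 : σ * σ = v 0 / v 2 := by
    rw [hσ, ← Complex.exp_add, add_halves, Complex.exp_log hz]
  refine ⟨(v 2 * σ)⁻¹, inv_ne_zero (mul_ne_zero h2 hσ0), ?_⟩
  have e1 : I * (-I * log (v 0 / v 2)) / 2 = log (v 0 / v 2) / 2 := by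
    have := Complex.I_mul_I
    linear_combination (-(log (v 0 / v 2)) / 2) * this
  ext i
  fin_cases i
  · simp only [hH, rH, Pi.smul_apply, smul_eq_mul, Matrix.cons_val_zero]
    simp only [Fin.zero_eta, Matrix.cons_val_zero]
    rw [e1, ← hσ]
    field_simp
    field_simp at hσ2
    linear_combination hσ2
  · simp only [hH, rH, Pi.smul_apply, smul_eq_mul]
    simp
    field_simp
    rw [hσ]
  · simp only [hH, rH, Pi.smul_apply, smul_eq_mul]
    simp only [Fin.reduceFinMk, Matrix.cons_val]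
    rw [e1, Complex.exp_neg, ← hσ]
    field_simp

theorem rH_mem {v : Fin 3 → ℂ} (h : qS v < 0) : rH v ∈ DH := by
  have h2 := v2_ne h
  have h3 := im_pos h
  obtain ⟨s, hs, hs2⟩ := hH_rH h
  have hre : (rH v).1.re = (v 0 / v 2).arg := by
    simp only [rH]
    rw [Complex.mul_re]
    simp [Complex.log_im]
  have hneg : qS (hH (rH v)) < 0 := by
    rw [hs2, qS_smul]
    have : 0 < ‖s‖ ^ 2 := by positivity
    exact mul_neg_of_pos_of_neg this h
  rw [qS_hH] at hneg
  have hz : v 0 / v 2 ≠ 0 := by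
    intro h0
    rw [h0] at h3
    simp at h3
  have ha0 : 0 < (v 0 / v 2).arg := by
    have h4 : 0 ≤ (v 0 / v 2).arg := Complex.arg_nonneg_iff.2 h3.le
    rcases h4.eq_or_lt with h5 | h5
    · exfalso
      have h6 := Complex.arg_eq_zero_iff.1 h5.symm
      linarith [h6.2]
    · exact h5
  have ha1 : (v 0 / v 2).arg < Real.pi := Complex.arg_lt_pi_iff.2 (Or.inr h3.ne')
  refine ⟨by rw [hre]; exact ha0, by rw [hre]; exact ha1, by linarith⟩

/-- hyperbolic case -/
theorem case_H {P Q X X' : Matrix (Fin 3) (Fin 3) ℂ} (hPQ : P * Q = 1)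
    (hX : X * P = P * X') (hq : ∀ v, qB (P *ᵥ v) = qS v) {r μ θ : ℝ} (hr : r ≠ 0)
    (hX' : X' = Matrix.diagonal ![r + I * μ, I * θ, -r + I * μ]) : Good X := by
  intro N M F G k ε K C hε H hK hC hloc
  refine ball_of_model hPQ hX hq DH_mod hH_diff ?_ (ρ := rH) ?_
    (fun v hv => rH_mem hv) (fun v hv => hH_rH hv) (c := I) (a := -2 * r) (b := θ - μ) I_ne_zero
    ?_ ?_ hε H hK hC hloc
  · intro w hw
    rw [qS_hH]
    linarith [hw.2.2]
  · intro v hv
    apply DifferentiableAt.differentiableWithinAt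
    have hv' : qS v < 0 := hv
    have h2 := v2_ne hv'
    have h3 := im_pos hv'
    have hsl : v 0 / v 2 ∈ slitPlane := Or.inr h3.ne'
    have p0 : ∀ i, DifferentiableAt ℂ (fun v : Fin 3 → ℂ => v i) v := fun i => by fun_prop
    have d0 : DifferentiableAt ℂ (fun v : Fin 3 → ℂ => v 0 / v 2) v := dq (p0 0) (p0 2) h2
    have d1 : DifferentiableAt ℂ (fun v : Fin 3 → ℂ => log (v 0 / v 2)) v := d0.clog hsl
    refine DifferentiableAt.prodMk (d1.const_mul _) ?_
    have d2 : DifferentiableAt ℂ (fun v : Fin 3 → ℂ => exp (log (v 0 / v 2) / 2)) v :=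
      (dq d1 (differentiableAt_const (2 : ℂ)) two_ne_zero).cexp
    refine dq (p0 1) ((p0 2).mul d2) ?_
    exact mul_ne_zero h2 (Complex.exp_ne_zero _)
  · have : 0 < (-2 * r) ^ 2 := by positivity
    positivity
  · intro w _
    refine ⟨I * μ, ?_⟩
    rw [fderiv_line hH_diff w _ (y := ![(((-2 * r : ℝ) : ℂ) * I / 2) * exp (I * w.1 / 2),
      ((θ - μ : ℝ) : ℂ) * w.2, -(((-2 * r : ℝ) : ℂ) * I / 2) * exp (-(I * w.1 / 2))])]
    · rw [hX']
      have hI := Complex.I_mul_I
      ext i
      fin_cases i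
      · simp [hH, Matrix.mulVec_diagonal]
        linear_combination (-(r : ℂ) * exp (I * w.1 / 2)) * hI
      · simp [hH, Matrix.mulVec_diagonal]
        ring
      · simp [hH, Matrix.mulVec_diagonal]
        linear_combination ((r : ℂ) * exp (-(I * w.1 / 2))) * hI
    · intro i
      fin_cases i
      · simp only [hH, xi_false, xi_true]
        have h1 : HasDerivAt (fun t : ℂ => I * (w.1 + t * ((-2 * r : ℝ) : ℂ)) / 2)
            (((-2 * r : ℝ) : ℂ) * I / 2) 0 := by
          have := ((((hasDerivAt_id (0 : ℂ)).mul_const ((-2 * r : ℝ) : ℂ)).const_add w.1).const_mul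
            I).div_const 2
          rwa [show I * (1 * ((-2 * r : ℝ) : ℂ)) / 2 = ((-2 * r : ℝ) : ℂ) * I / 2 by ring] at this
        have h2 := h1.cexp
        simp only [zero_mul, add_zero] at h2
        rw [mul_comm (exp (I * w.1 / 2))] at h2
        simpa using h2
      · simp only [hH, xi_true]
        have := ((hasDerivAt_id (0 : ℂ)).mul_const (((θ - μ : ℝ) : ℂ) * w.2)).const_add w.2
        rw [one_mul] at this
        exact this
      · simp only [hH, xi_false, xi_true]
        have h1 : HasDerivAt (fun t : ℂ => -(I * (w.1 + t * ((-2 * r : ℝ) : ℂ)) / 2))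
            (-(((-2 * r : ℝ) : ℂ) * I / 2)) 0 := by
          have := (((((hasDerivAt_id (0 : ℂ)).mul_const ((-2 * r : ℝ) : ℂ)).const_add
            w.1).const_mul I).div_const 2).neg
          rwa [show I * (1 * ((-2 * r : ℝ) : ℂ)) / 2 = ((-2 * r : ℝ) : ℂ) * I / 2 by ring] at this
        have h2 := h1.cexp
        simp only [zero_mul, add_zero] at h2
        rw [mul_comm (exp (-(I * w.1 / 2)))] at h2
        simpa using h2

/-- model domain of the parabolic groups with rotation -/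
def DP : Set (ℂ × ℂ) := {p | ‖p.2‖ ^ 2 < p.1.re}

theorem DP_mod : Mod false true DP := by
  refine ⟨?_, ?_, ?_⟩
  · exact isOpen_lt (by fun_prop) (by fun_prop)
  · intro w
    simp only [ch_true, ch_false]
    unfold DP
    simp only [mem_setOf_eq, Complex.ofReal_re]
    rw [norm_exp_re w.2]
  · intro p hp q hq a b ha hb hab
    simp only [ch_true, ch_false, DP, mem_setOf_eq, Complex.norm_exp, Complex.ofReal_re,
      ← Real.exp_nat_mul] at hp hq ⊢
    have h2 := convexOn_exp.2 (mem_univ (((2 : ℕ) : ℝ) * p.2)) (mem_univ (((2 : ℕ) : ℝ) * q.2))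
      ha hb hab
    simp only [smul_eq_mul] at h2
    have e0 : (a • p + b • q).1 = a * p.1 + b * q.1 := by
      simp only [Prod.fst_add, Prod.smul_fst, smul_eq_mul]
    have e2 : ((2 : ℕ) : ℝ) * (a • p + b • q).2 =
        a * (((2 : ℕ) : ℝ) * p.2) + b * (((2 : ℕ) : ℝ) * q.2) := by
      simp only [Prod.snd_add, Prod.smul_snd, smul_eq_mul]; ring
    rw [e0, e2]
    rcases ha.eq_or_lt with h0 | h0
    · have hb1 : b = 1 := by linarith
      subst hb1
      rw [← h0] at h2 ⊢
      simp only [zero_mul, one_mul, zero_add] at h2 ⊢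
      exact hq
    · have h3 : a * Real.exp (((2 : ℕ) : ℝ) * p.2) < a * p.1 := mul_lt_mul_of_pos_left hp h0
      have h4 : b * Real.exp (((2 : ℕ) : ℝ) * q.2) ≤ b * q.1 := mul_le_mul_of_nonneg_left hq.le hb
      linarith

/-- the embedding of the model -/
noncomputable def hP (w : ℂ × ℂ) : Fin 3 → ℂ := ![I * w.1, w.2, 1]

theorem hP_diff : Differentiable ℂ hP := by
  rw [differentiable_pi]
  intro i
  fin_cases i
  · simp only [hP]
    change Differentiable ℂ (fun w : ℂ × ℂ => I * w.1)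
    fun_prop
  · simp only [hP]; exact differentiable_snd
  · simp [hP]

theorem qS_hP (w : ℂ × ℂ) : qS (hP w) = ‖w.2‖ ^ 2 - w.1.re := by
  unfold qS hP
  simp

/-- the inverse of `hP` -/
noncomputable def rP (v : Fin 3 → ℂ) : ℂ × ℂ := (-I * (v 0 / v 2), v 1 / v 2)

theorem hP_rP {v : Fin 3 → ℂ} (h : qS v < 0) : hP (rP v) = (v 2)⁻¹ • v := by
  have h2 := v2_ne h
  have hI := Complex.I_mul_I
  ext i
  fin_cases i
  · simp [hP, rP]
    field_simp
    linear_combination (-(v 0)) * hI
  · simp [hP, rP]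
    field_simp
  · simp [hP, h2]

/-- parabolic case with rotation -/
theorem case_P {P Q X X' : Matrix (Fin 3) (Fin 3) ℂ} (hPQ : P * Q = 1)
    (hX : X * P = P * X') (hq : ∀ v, qB (P *ᵥ v) = qS v) {μ θ t : ℝ}
    (hne : (-t) ^ 2 + (θ - μ) ^ 2 ≠ 0)
    (hX' : X' = !![I * μ, 0, (t : ℂ); 0, I * θ, 0; 0, 0, I * μ]) : Good X := by
  intro N M F G k ε K C hε H hK hC hloc
  refine ball_of_model hPQ hX hq DP_mod hP_diff ?_ (ρ := rP) ?_
    ?_ (fun v hv => ⟨_, inv_ne_zero (v2_ne hv), hP_rP hv⟩) (c := I) (a := -t) (b := θ - μ) I_ne_zero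
    hne ?_ hε H hK hC hloc
  · intro w hw
    rw [qS_hP]
    have : ‖w.2‖ ^ 2 < w.1.re := hw
    linarith
  · intro v hv
    apply DifferentiableAt.differentiableWithinAt
    have hv' : qS v < 0 := hv
    have h2 := v2_ne hv'
    have p0 : ∀ i, DifferentiableAt ℂ (fun v : Fin 3 → ℂ => v i) v := fun i => by fun_prop
    have d0 : DifferentiableAt ℂ (fun v : Fin 3 → ℂ => v 0 / v 2) v := dq (p0 0) (p0 2) h2
    exact DifferentiableAt.prodMk (d0.const_mul _) (dq (p0 1) (p0 2) h2)
  · intro v hv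
    have h1 : qS (hP (rP v)) < 0 := by
      rw [hP_rP hv, qS_smul]
      have : 0 < ‖(v 2)⁻¹‖ ^ 2 := by
        have : (v 2)⁻¹ ≠ 0 := inv_ne_zero (v2_ne hv)
        positivity
      exact mul_neg_of_pos_of_neg this hv
    rw [qS_hP] at h1
    change ‖(rP v).2‖ ^ 2 < (rP v).1.re
    linarith
  · intro w _
    refine ⟨I * μ, ?_⟩
    rw [fderiv_line hP_diff w _ (y := ![I * ((-t : ℝ) : ℂ), ((θ - μ : ℝ) : ℂ) * w.2, 0])]
    · rw [hX']
      have hI := Complex.I_mul_I
      ext i
      fin_cases i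
      · simp [hP, Matrix.mulVec, dotProduct, Fin.sum_univ_three]
        linear_combination (-(t : ℂ)) * hI
      · simp [hP, Matrix.mulVec, dotProduct, Fin.sum_univ_three]
        ring
      · simp [hP, Matrix.mulVec, dotProduct, Fin.sum_univ_three]
    · intro i
      fin_cases i
      · simp only [hP, xi_false, xi_true]
        have h1 : HasDerivAt (fun s : ℂ => I * (w.1 + s * ((-t : ℝ) : ℂ)))
            (I * ((-t : ℝ) : ℂ)) 0 := by
          have := (((hasDerivAt_id (0 : ℂ)).mul_const ((-t : ℝ) : ℂ)).const_add w.1).const_mul I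
          rwa [one_mul] at this
        simpa using h1
      · simp only [hP, xi_true]
        have := ((hasDerivAt_id (0 : ℂ)).mul_const (((θ - μ : ℝ) : ℂ) * w.2)).const_add w.2
        rw [one_mul] at this
        exact this
      · simp only [hP]
        exact hasDerivAt_const _ _

/-- model domain of the parabolic groups without rotation -/
def DQ : Set (ℂ × ℂ) := {p | 2 * p.2.re ^ 2 < p.1.re}

theorem DQ_mod : Mod false false DQ := by
  refine ⟨?_, ?_, ?_⟩
  · exact isOpen_lt (by fun_prop) (by fun_prop)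
  · intro w
    simp only [ch_false]
    unfold DQ
    simp only [mem_setOf_eq, Complex.ofReal_re]
  · intro p hp q hq a b ha hb hab
    simp only [ch_false, DQ, mem_setOf_eq, Complex.ofReal_re] at hp hq ⊢
    have e0 : (a • p + b • q).1 = a * p.1 + b * q.1 := by
      simp only [Prod.fst_add, Prod.smul_fst, smul_eq_mul]
    have e2 : (a • p + b • q).2 = a * p.2 + b * q.2 := by
      simp only [Prod.snd_add, Prod.smul_snd, smul_eq_mul]
    rw [e0, e2]
    have hb' : b = 1 - a := by linarith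
    subst hb'
    have key : (a * p.2 + (1 - a) * q.2) ^ 2 =
        a * p.2 ^ 2 + (1 - a) * q.2 ^ 2 - a * (1 - a) * (p.2 - q.2) ^ 2 := by ring
    have hpos : 0 ≤ a * (1 - a) * (p.2 - q.2) ^ 2 := by positivity
    rcases ha.eq_or_lt with h0 | h0
    · rw [← h0] at key hpos ⊢
      simp only [zero_mul, sub_zero, one_mul, zero_add] at key hpos ⊢
      linarith
    · have h3 : a * (2 * p.2 ^ 2) < a * p.1 := mul_lt_mul_of_pos_left hp h0
      have h4 : (1 - a) * (2 * q.2 ^ 2) ≤ (1 - a) * q.1 := mul_le_mul_of_nonneg_left hq.le hb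
      rw [key]
      linarith

/-- the embedding of the model -/
noncomputable def hQ (w : ℂ × ℂ) : Fin 3 → ℂ := ![I * w.1 - I * w.2 ^ 2, I * w.2, 1]

theorem hQ_diff : Differentiable ℂ hQ := by
  rw [differentiable_pi]
  intro i
  fin_cases i
  · simp only [hQ]
    change Differentiable ℂ (fun w : ℂ × ℂ => I * w.1 - I * w.2 ^ 2)
    fun_prop
  · simp only [hQ]
    change Differentiable ℂ (fun w : ℂ × ℂ => I * w.2)
    fun_prop
  · simp [hQ]

theorem qS_hQ (w : ℂ × ℂ) : qS (hQ w) = 2 * w.2.re ^ 2 - w.1.re := by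
  unfold qS hQ
  simp only [Matrix.cons_val_zero, Matrix.cons_val_one, Matrix.cons_val_two, Matrix.head_cons,
    Matrix.tail_cons, map_one, mul_one, norm_mul, Complex.norm_I, one_mul]
  rw [← Complex.normSq_eq_norm_sq, Complex.normSq_apply]
  simp [pow_two]
  ring

/-- the inverse of `hQ` -/
noncomputable def rQ (v : Fin 3 → ℂ) : ℂ × ℂ :=
  (-I * (v 0 / v 2) - (v 1 / v 2) ^ 2, -I * (v 1 / v 2))

theorem hQ_rQ {v : Fin 3 → ℂ} (h : qS v < 0) : hQ (rQ v) = (v 2)⁻¹ • v := by
  have h2 := v2_ne h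
  have hI := Complex.I_mul_I
  ext i
  fin_cases i
  · simp [hQ, rQ]
    rw [mul_pow]
    field_simp
    linear_combination (-(v 0) * (v 2) - I * (v 1) ^ 2) * hI
  · simp [hQ, rQ]
    field_simp
    linear_combination (-(v 1)) * hI
  · simp [hQ, h2]

/-- parabolic case without rotation -/
theorem case_Q {P Q X X' : Matrix (Fin 3) (Fin 3) ℂ} (hPQ : P * Q = 1)
    (hX : X * P = P * X') (hq : ∀ v, qB (P *ᵥ v) = qS v) {μ c t : ℝ}
    (hne : t ^ 2 + c ^ 2 ≠ 0)
    (hX' : X' = !![I * μ, 2 * I * c, (t : ℂ); 0, I * μ, (c : ℂ); 0, 0, I * μ]) : Good X := by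
  intro N M F G k ε K C hε H hK hC hloc
  refine ball_of_model hPQ hX hq DQ_mod hQ_diff ?_ (ρ := rQ) ?_
    ?_ (fun v hv => ⟨_, inv_ne_zero (v2_ne hv), hQ_rQ hv⟩) (c := -I) (a := t) (b := c)
    (neg_ne_zero.2 I_ne_zero) hne ?_ hε H hK hC hloc
  · intro w hw
    rw [qS_hQ]
    have : 2 * w.2.re ^ 2 < w.1.re := hw
    linarith
  · intro v hv
    apply DifferentiableAt.differentiableWithinAt
    have hv' : qS v < 0 := hv
    have h2 := v2_ne hv'
    have p0 : ∀ i, DifferentiableAt ℂ (fun v : Fin 3 → ℂ => v i) v := fun i => by fun_prop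
    have d0 : DifferentiableAt ℂ (fun v : Fin 3 → ℂ => v 0 / v 2) v := dq (p0 0) (p0 2) h2
    have d1 : DifferentiableAt ℂ (fun v : Fin 3 → ℂ => v 1 / v 2) v := dq (p0 1) (p0 2) h2
    exact DifferentiableAt.prodMk ((d0.const_mul _).sub (d1.pow 2)) (d1.const_mul _)
  · intro v hv
    have h1 : qS (hQ (rQ v)) < 0 := by
      rw [hQ_rQ hv, qS_smul]
      have : 0 < ‖(v 2)⁻¹‖ ^ 2 := by
        have : (v 2)⁻¹ ≠ 0 := inv_ne_zero (v2_ne hv)
        positivity
      exact mul_neg_of_pos_of_neg this hv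
    rw [qS_hQ] at h1
    change 2 * (rQ v).2.re ^ 2 < (rQ v).1.re
    linarith
  · intro w _
    refine ⟨I * μ, ?_⟩
    rw [fderiv_line hQ_diff w _ (y := ![I * (t : ℂ) - 2 * I * w.2 * c, I * (c : ℂ), 0])]
    · rw [hX']
      have hI := Complex.I_mul_I
      ext i
      fin_cases i
      · simp [hQ, Matrix.mulVec, dotProduct, Fin.sum_univ_three]
        linear_combination (-(t : ℂ)) * hI
      · simp [hQ, Matrix.mulVec, dotProduct, Fin.sum_univ_three]
        linear_combination (-(c : ℂ)) * hI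
      · simp [hQ, Matrix.mulVec, dotProduct, Fin.sum_univ_three]
    · intro i
      fin_cases i
      · simp only [hQ, xi_false, mul_one]
        have h1 : HasDerivAt (fun s : ℂ => w.1 + s * (t : ℂ)) (t : ℂ) 0 := by
          have := ((hasDerivAt_id (0 : ℂ)).mul_const (t : ℂ)).const_add w.1
          rwa [one_mul] at this
        have h2 : HasDerivAt (fun s : ℂ => w.2 + s * (c : ℂ)) (c : ℂ) 0 := by
          have := ((hasDerivAt_id (0 : ℂ)).mul_const (c : ℂ)).const_add w.2
          rwa [one_mul] at this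
        have h3 := (h1.const_mul I).sub ((h2.pow 2).const_mul I)
        simp only [zero_mul, add_zero] at h3
        rw [show I * (t : ℂ) - 2 * I * w.2 * c = I * (t : ℂ) -
          I * ((2 : ℕ) * w.2 ^ (2 - 1) * (c : ℂ)) by push_cast; ring]
        exact h3
      · simp only [hQ, xi_false, mul_one]
        have h2 : HasDerivAt (fun s : ℂ => w.2 + s * (c : ℂ)) (c : ℂ) 0 := by
          have := ((hasDerivAt_id (0 : ℂ)).mul_const (c : ℂ)).const_add w.2
          rwa [one_mul] at this
        exact h2.const_mul I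
      · simp only [hQ]
        exact hasDerivAt_const _ _

end Pool.Agent.N290.RC
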