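import Mathlib
import Pool.Agent.N290.RC.BallH

/-!
Normal forms of the elements of `u(2,1)`.
-/

set_option autoImplicit false

open Metric Set Filter Topology Complex Matrix

namespace Pool.Agent.N290.RC

/-- complex conjugation -/
noncomputable abbrev cj : ℂ →+* ℂ := starRingEnd ℂ

/-- the Hermitian form -/
noncomputable def Bf (x y : Fin 3 → ℂ) : ℂ :=
  -(x 0 * cj (y 0)) + x 1 * cj (y 1) + x 2 * cj (y 2)

theorem Bf_conj (x y : Fin 3 → ℂ) : cj (Bf x y) = Bf y x := by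
  unfold Bf
  simp only [map_add, map_neg, map_mul, Complex.conj_conj]
  ring

theorem Bf_smul (c : ℂ) (x y : Fin 3 → ℂ) : Bf (c • x) y = c * Bf x y := by
  unfold Bf
  simp only [Pi.smul_apply, smul_eq_mul]
  ring

theorem Bf_smul' (c : ℂ) (x y : Fin 3 → ℂ) : Bf x (c • y) = cj c * Bf x y := by
  unfold Bf
  simp only [Pi.smul_apply, smul_eq_mul, map_mul]
  ring

theorem Bf_add (x x' y : Fin 3 → ℂ) : Bf (x + x') y = Bf x y + Bf x' y := by
  unfold Bf
  simp only [Pi.add_apply]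
  ring

theorem Bf_self (x : Fin 3 → ℂ) : Bf x x = (qB x : ℂ) := by
  unfold Bf qB
  rw [Complex.mul_conj, Complex.mul_conj, Complex.mul_conj]
  simp only [Complex.normSq_eq_norm_sq]
  push_cast
  ring

/-- skew-Hermitian with respect to the form -/
def Sk (X : Matrix (Fin 3) (Fin 3) ℂ) : Prop :=
  ∀ x y : Fin 3 → ℂ, Bf (X *ᵥ x) y + Bf x (X *ᵥ y) = 0

/-- eigenvectors in invariant subspaces -/
theorem eig_in (X : Matrix (Fin 3) (Fin 3) ℂ) (W : Submodule ℂ (Fin 3 → ℂ))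
    (hW : ∀ x ∈ W, X *ᵥ x ∈ W) (hne : ∃ x ∈ W, x ≠ 0) :
    ∃ x ∈ W, x ≠ 0 ∧ ∃ l : ℂ, X *ᵥ x = l • x := by
  obtain ⟨x0, hx0, hx0'⟩ := hne
  have : Nontrivial W := ⟨⟨⟨x0, hx0⟩, 0, fun h => hx0' (congrArg Subtype.val h)⟩⟩
  set T : W →ₗ[ℂ] W := (Matrix.mulVecLin X).restrict hW with hT
  obtain ⟨l, hl⟩ := Module.End.exists_eigenvalue T
  obtain ⟨v, hv⟩ := hl.exists_hasEigenvector
  refine ⟨v, v.2, fun h => hv.2 (Subtype.ext h), l, ?_⟩
  have h1 := hv.apply_eq_smul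
  have h2 := congrArg Subtype.val h1
  simpa [hT] using h2

/-- the orthogonal complement of a vector -/
def perp (v : Fin 3 → ℂ) : Submodule ℂ (Fin 3 → ℂ) where
  carrier := {x | Bf x v = 0}
  add_mem' := by
    intro x y hx hy
    simp only [mem_setOf_eq] at hx hy ⊢
    rw [Bf_add, hx, hy, add_zero]
  zero_mem' := by simp [Bf]
  smul_mem' := by
    intro c x hx
    simp only [mem_setOf_eq] at hx ⊢
    rw [Bf_smul, hx, mul_zero]

theorem mem_perp {v x : Fin 3 → ℂ} : x ∈ perp v ↔ Bf x v = 0 := Iff.rfl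

theorem perp_inv {X : Matrix (Fin 3) (Fin 3) ℂ} (hX : Sk X) {v : Fin 3 → ℂ} {l : ℂ}
    (hv : X *ᵥ v = l • v) : ∀ x ∈ perp v, X *ᵥ x ∈ perp v := by
  intro x hx
  rw [mem_perp] at hx ⊢
  have h1 := hX x v
  rw [hv, Bf_smul', hx, mul_zero, add_zero] at h1
  exact h1

theorem perp_ne (v : Fin 3 → ℂ) : ∃ x ∈ perp v, x ≠ 0 := by
  by_cases h : v 0 = 0 ∧ v 1 = 0
  · refine ⟨![1, 0, 0], ?_, ?_⟩
    · rw [mem_perp]
      simp [Bf, h.1]
    · intro h0
      have := congrFun h0 0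
      simp at this
  · refine ⟨![cj (v 1), cj (v 0), 0], ?_, ?_⟩
    · rw [mem_perp]
      simp only [Bf, Matrix.cons_val_zero, Matrix.cons_val_one, Matrix.cons_val_two,
        Matrix.head_cons, Matrix.tail_cons]
      ring
    · intro h0
      apply h
      have e0 := congrFun h0 0
      have e1 := congrFun h0 1
      simp at e0 e1
      exact ⟨e1, e0⟩

/-- the cross product of the form -/
noncomputable def cr (x y : Fin 3 → ℂ) : Fin 3 → ℂ :=
  ![-cj (x 1 * y 2 - x 2 * y 1), cj (x 2 * y 0 - x 0 * y 2), cj (x 0 * y 1 - x 1 * y 0)]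

theorem cr_perp (x y : Fin 3 → ℂ) : Bf x (cr x y) = 0 := by
  unfold Bf cr
  simp only [Matrix.cons_val_zero, Matrix.cons_val_one, Matrix.cons_val_two, Matrix.head_cons,
    Matrix.tail_cons, map_neg, Complex.conj_conj]
  ring

theorem cr_perp' (x y : Fin 3 → ℂ) : Bf y (cr x y) = 0 := by
  unfold Bf cr
  simp only [Matrix.cons_val_zero, Matrix.cons_val_one, Matrix.cons_val_two, Matrix.head_cons,
    Matrix.tail_cons, map_neg, Complex.conj_conj]
  ring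

theorem cr_self (x y : Fin 3 → ℂ) :
    Bf (cr x y) (cr x y) = -(Bf x x * Bf y y - Bf x y * Bf y x) := by
  unfold Bf cr
  simp only [Matrix.cons_val_zero, Matrix.cons_val_one, Matrix.cons_val_two, Matrix.head_cons,
    Matrix.tail_cons, map_neg, map_sub, map_mul, Complex.conj_conj]
  ring

theorem Bf_zero_symm {x y : Fin 3 → ℂ} (h : Bf x y = 0) : Bf y x = 0 := by
  rw [← Bf_conj, h, map_zero]

/-- signature: vectors orthogonal to a negative vector are positive -/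
theorem pos_of_perp {e x : Fin 3 → ℂ} (he : qB e < 0) (hx : Bf x e = 0) (hx0 : x ≠ 0) :
    0 < qB x := by
  by_contra hneg
  push Not at hneg
  have h1 : x 0 * cj (e 0) = x 1 * cj (e 1) + x 2 * cj (e 2) := by
    unfold Bf at hx
    linear_combination -hx
  have h2 : ‖x 0‖ ^ 2 * ‖e 0‖ ^ 2 = ‖x 1 * cj (e 1) + x 2 * cj (e 2)‖ ^ 2 := by
    rw [← h1, norm_mul, mul_pow, Complex.norm_conj]
  have h3 : ‖x 1 * cj (e 1) + x 2 * cj (e 2)‖ ^ 2 + ‖x 1 * e 2 - x 2 * e 1‖ ^ 2 =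
      (‖x 1‖ ^ 2 + ‖x 2‖ ^ 2) * (‖e 1‖ ^ 2 + ‖e 2‖ ^ 2) := by
    have : ((‖x 1 * cj (e 1) + x 2 * cj (e 2)‖ ^ 2 + ‖x 1 * e 2 - x 2 * e 1‖ ^ 2 : ℝ) : ℂ) =
      (((‖x 1‖ ^ 2 + ‖x 2‖ ^ 2) * (‖e 1‖ ^ 2 + ‖e 2‖ ^ 2) : ℝ) : ℂ) := by
      push_cast
      simp only [← Complex.mul_conj', map_add, map_sub, map_mul, Complex.conj_conj]
      ring
    exact_mod_cast this
  unfold qB at he hneg
  have h4 : 0 ≤ ‖x 1 * e 2 - x 2 * e 1‖ ^ 2 := by positivity
  set a := ‖x 0‖ ^ 2 with ha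
  set b := ‖e 0‖ ^ 2 with hb
  set u := ‖x 1‖ ^ 2 + ‖x 2‖ ^ 2 with hu
  set w := ‖e 1‖ ^ 2 + ‖e 2‖ ^ 2 with hw
  have ha0 : 0 ≤ a := by positivity
  have hu0 : 0 ≤ u := by positivity
  have hw0 : 0 ≤ w := by positivity
  have h5 : a * b ≤ u * w := by linarith
  have h6 : u ≤ a := by linarith
  have h7 : w < b := by linarith
  have h8 : u * b ≤ a * b := mul_le_mul_of_nonneg_right h6 (by linarith)
  have h9 : u * (b - w) ≤ 0 := by linarith
  have h10 : u = 0 := by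
    by_contra hne
    have : 0 < u := lt_of_le_of_ne hu0 (Ne.symm hne)
    have := mul_pos this (sub_pos.2 h7)
    linarith
  have h11 : a = 0 := by
    by_contra hne
    have h12 : 0 < a := lt_of_le_of_ne ha0 (Ne.symm hne)
    have := mul_pos h12 (lt_of_le_of_lt hw0 h7)
    rw [h10] at h5
    linarith
  apply hx0
  have e0 : ‖x 0‖ ^ 2 = 0 := h11
  have e1 : ‖x 1‖ ^ 2 = 0 := by
    have := sq_nonneg ‖x 2‖
    have := sq_nonneg ‖x 1‖
    linarith
  have e2 : ‖x 2‖ ^ 2 = 0 := by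
    have := sq_nonneg ‖x 2‖
    have := sq_nonneg ‖x 1‖
    linarith
  ext i
  fin_cases i
  · simpa using e0
  · simpa using e1
  · simpa using e2

end Pool.Agent.N290.RC
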