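import Mathlib
import Pool.Agent.N290.RC.BallL

/-!
Normal forms of the elements of `u(2,1)`: adapted bases.
-/

set_option autoImplicit false

open Metric Set Filter Topology Complex Matrix

namespace Pool.Agent.N290.RC

/-- matrix with columns `p j` -/
def Pm (p : Fin 3 → Fin 3 → ℂ) : Matrix (Fin 3) (Fin 3) ℂ := Matrix.of (fun i j => p j i)

/-- the row of the functional `Bf · a` -/
noncomputable def Rw (a : Fin 3 → ℂ) : Fin 3 → ℂ := ![-cj (a 0), cj (a 1), cj (a 2)]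

/-- matrix with rows `c i • Rw (a i)` -/
noncomputable def Qm (c : Fin 3 → ℂ) (a : Fin 3 → Fin 3 → ℂ) : Matrix (Fin 3) (Fin 3) ℂ :=
  Matrix.of (fun i k => c i * Rw (a i) k)

theorem Pm_mulVec (p : Fin 3 → Fin 3 → ℂ) (v : Fin 3 → ℂ) :
    Pm p *ᵥ v = v 0 • p 0 + v 1 • p 1 + v 2 • p 2 := by
  ext i
  simp only [Pm, Matrix.mulVec, dotProduct, Matrix.of_apply, Fin.sum_univ_three, Pi.add_apply,
    Pi.smul_apply, smul_eq_mul]
  ring

theorem Qm_apply (c : Fin 3 → ℂ) (a : Fin 3 → Fin 3 → ℂ) (X : Matrix (Fin 3) (Fin 3) ℂ)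
    (i j : Fin 3) : (Qm c a * X) i j = c i * Bf (fun k => X k j) (a i) := by
  simp only [Qm, Rw, Bf, Matrix.mul_apply, Matrix.of_apply, Fin.sum_univ_three,
    Matrix.cons_val_zero, Matrix.cons_val_one, Matrix.cons_val_two, Matrix.head_cons,
    Matrix.tail_cons]
  ring

theorem QP_apply (c : Fin 3 → ℂ) (a p : Fin 3 → Fin 3 → ℂ) (i j : Fin 3) :
    (Qm c a * Pm p) i j = c i * Bf (p j) (a i) := by
  rw [Qm_apply]
  rfl

theorem QXP_apply (c : Fin 3 → ℂ) (a p : Fin 3 → Fin 3 → ℂ) (X : Matrix (Fin 3) (Fin 3) ℂ)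
    (i j : Fin 3) : (Qm c a * (X * Pm p)) i j = c i * Bf (X *ᵥ p j) (a i) := by
  rw [Qm_apply]
  rfl

theorem Sk_apply {X : Matrix (Fin 3) (Fin 3) ℂ} (hX : Sk X) (x y : Fin 3 → ℂ) :
    Bf (X *ᵥ x) y = -cj (Bf (X *ᵥ y) x) := by
  rw [Bf_conj]
  linear_combination hX x y

theorem im_of_skew {z : ℂ} (h : z = -cj z) : z = I * (z.im : ℂ) := by
  have h1 := congrArg Complex.re h
  simp at h1
  apply Complex.ext
  · simp
    linarith
  · simp

/-- elements with a negative eigenvector are diagonalizable in an orthonormal basis -/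
theorem good_neg {X : Matrix (Fin 3) (Fin 3) ℂ} (hX : Sk X)
    (hns : ∀ l : ℂ, X ≠ l • (1 : Matrix (Fin 3) (Fin 3) ℂ)) {e : Fin 3 → ℂ} {l : ℂ}
    (he : X *ᵥ e = l • e) (hneg : qB e < 0) : Good X := by
  -- normalisation of `e`
  obtain ⟨p0, l0, h0, h00⟩ : ∃ (p0 : Fin 3 → ℂ) (l0 : ℂ), X *ᵥ p0 = l0 • p0 ∧ Bf p0 p0 = -1 := by
    have hs : 0 < Real.sqrt (-qB e) := Real.sqrt_pos.2 (by linarith)
    refine ⟨((Real.sqrt (-qB e))⁻¹ : ℂ) • e, l, ?_, ?_⟩
    · rw [Matrix.mulVec_smul, he, smul_comm]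
    · rw [Bf_smul, Bf_smul', Bf_self]
      have h1 : Real.sqrt (-qB e) * Real.sqrt (-qB e) = -qB e := Real.mul_self_sqrt (by linarith)
      have h2 : (qB e : ℂ) = -((Real.sqrt (-qB e) : ℂ) * (Real.sqrt (-qB e) : ℂ)) := by
        rw [← Complex.ofReal_mul, h1]; push_cast; ring
      rw [h2]
      have h3 : (Real.sqrt (-qB e) : ℂ) ≠ 0 := by exact_mod_cast hs.ne'
      simp only [map_inv₀, Complex.conj_ofReal]
      field_simp
  have hneg0 : qB p0 < 0 := by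
    have := Bf_self p0
    rw [h00] at this
    have h2 : (qB p0 : ℂ) = ((-1 : ℝ) : ℂ) := by rw [← this]; simp
    have h3 : qB p0 = -1 := by exact_mod_cast h2
    rw [h3]; norm_num
  obtain ⟨v1, hv1, hv1', l1, hl1⟩ := eig_in X (perp p0) (perp_inv hX h0) (perp_ne p0)
  have hpos1 : 0 < qB v1 := pos_of_perp hneg0 hv1 hv1'
  obtain ⟨p1, h1, h11, h10⟩ : ∃ (p1 : Fin 3 → ℂ), X *ᵥ p1 = l1 • p1 ∧ Bf p1 p1 = 1 ∧
      Bf p1 p0 = 0 := by
    have hs : 0 < Real.sqrt (qB v1) := Real.sqrt_pos.2 hpos1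
    refine ⟨((Real.sqrt (qB v1))⁻¹ : ℂ) • v1, ?_, ?_, ?_⟩
    · rw [Matrix.mulVec_smul, hl1, smul_comm]
    · rw [Bf_smul, Bf_smul', Bf_self]
      have h1 : Real.sqrt (qB v1) * Real.sqrt (qB v1) = qB v1 := Real.mul_self_sqrt hpos1.le
      have h2 : (qB v1 : ℂ) = (Real.sqrt (qB v1) : ℂ) * (Real.sqrt (qB v1) : ℂ) := by
        rw [← Complex.ofReal_mul, h1]
      rw [h2]
      have h3 : (Real.sqrt (qB v1) : ℂ) ≠ 0 := by exact_mod_cast hs.ne'
      simp only [map_inv₀, Complex.conj_ofReal]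
      field_simp
    · rw [Bf_smul, mem_perp.1 hv1, mul_zero]
  set p2 := cr p0 p1 with hp2
  have h01 : Bf p0 p1 = 0 := Bf_zero_symm h10
  have h02 : Bf p0 p2 = 0 := cr_perp p0 p1
  have h12 : Bf p1 p2 = 0 := cr_perp' p0 p1
  have h20 : Bf p2 p0 = 0 := Bf_zero_symm h02
  have h21 : Bf p2 p1 = 0 := Bf_zero_symm h12
  have h22 : Bf p2 p2 = 1 := by
    rw [hp2, cr_self, h00, h11, h01]
    ring
  set p : Fin 3 → Fin 3 → ℂ := ![p0, p1, p2] with hp
  set c : Fin 3 → ℂ := ![-1, 1, 1] with hc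
  have hQP : Qm c p * Pm p = 1 := by
    ext i j
    rw [QP_apply]
    fin_cases i <;> fin_cases j <;>
      simp [hp, hc, h00, h01, h02, h10, h11, h12, h20, h21, h22]
  have hPQ : Pm p * Qm c p = 1 := mul_eq_one_comm.1 hQP
  set X' := Qm c p * (X * Pm p) with hX'
  have hXP : X * Pm p = Pm p * X' := by
    rw [hX', ← Matrix.mul_assoc, hPQ, Matrix.one_mul]
  have b00 : Bf (X *ᵥ p0) p0 = -l0 := by rw [h0, Bf_smul, h00]; ring
  have b01 : Bf (X *ᵥ p0) p1 = 0 := by rw [h0, Bf_smul, h01]; ring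
  have b02 : Bf (X *ᵥ p0) p2 = 0 := by rw [h0, Bf_smul, h02]; ring
  have b10 : Bf (X *ᵥ p1) p0 = 0 := by rw [h1, Bf_smul, h10]; ring
  have b11 : Bf (X *ᵥ p1) p1 = l1 := by rw [h1, Bf_smul, h11]; ring
  have b12 : Bf (X *ᵥ p1) p2 = 0 := by rw [h1, Bf_smul, h12]; ring
  have b20 : Bf (X *ᵥ p2) p0 = 0 := by rw [Sk_apply hX, b02]; simp
  have b21 : Bf (X *ᵥ p2) p1 = 0 := by rw [Sk_apply hX, b12]; simp
  have d0 : l0 = I * (l0.im : ℂ) := by
    apply im_of_skew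
    have := Sk_apply hX p0 p0
    rw [b00] at this
    simp only [map_neg] at this
    linear_combination -this
  have d1 : l1 = I * (l1.im : ℂ) := by
    apply im_of_skew
    have := Sk_apply hX p1 p1
    rw [b11] at this
    exact this
  set l2 := Bf (X *ᵥ p2) p2 with hl2
  have d2 : l2 = I * (l2.im : ℂ) := im_of_skew (Sk_apply hX p2 p2)
  set μ : Fin 3 → ℝ := ![l0.im, l1.im, l2.im] with hμ
  have hdiag : X' = Matrix.diagonal (fun j => I * μ j) := by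
    ext i j
    rw [hX', QXP_apply]
    fin_cases i <;> fin_cases j <;>
      simp [hp, hc, b00, b01, b02, b10, b11, b12, b20, b21, ← hl2, hμ, ← d0, ← d1, ← d2]
  have hq : ∀ v, qB (Pm p *ᵥ v) = qB v := by
    intro v
    have h3 : Bf (Pm p *ᵥ v) (Pm p *ᵥ v) = Bf v v := by
      have e1 : ∀ y, Bf (Pm p *ᵥ v) y = v 0 * Bf p0 y + v 1 * Bf p1 y + v 2 * Bf p2 y := by
        intro y
        rw [Pm_mulVec, Bf_add, Bf_add, Bf_smul, Bf_smul, Bf_smul]
        rfl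
      have e2 : ∀ x, Bf x (Pm p *ᵥ v) = cj (v 0) * Bf x p0 + cj (v 1) * Bf x p1 +
          cj (v 2) * Bf x p2 := by
        intro x
        rw [← Bf_conj, e1]
        simp only [map_add, map_mul, Bf_conj]
      rw [e1, e2, e2, e2, h00, h01, h02, h10, h11, h12, h20, h21, h22]
      unfold Bf
      ring
    rw [Bf_self, Bf_self] at h3
    exact_mod_cast h3
  refine case_E hPQ (μ := μ) (by rw [← hdiag]; exact hXP) hq ?_
  intro hzero
  have z1 : (μ 1 - μ 0) ^ 2 = 0 := by nlinarith [sq_nonneg (μ 1 - μ 0), sq_nonneg (μ 2 - μ 0)]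
  have z2 : (μ 2 - μ 0) ^ 2 = 0 := by nlinarith [sq_nonneg (μ 1 - μ 0), sq_nonneg (μ 2 - μ 0)]
  have z1' : μ 1 = μ 0 := by have := pow_eq_zero_iff (two_ne_zero) |>.1 z1; linarith
  have z2' : μ 2 = μ 0 := by have := pow_eq_zero_iff (two_ne_zero) |>.1 z2; linarith
  apply hns (I * μ 0)
  have hs : X' = (I * μ 0 : ℂ) • (1 : Matrix (Fin 3) (Fin 3) ℂ) := by
    rw [hdiag, Matrix.smul_one_eq_diagonal]
    congr 1
    ext j
    fin_cases j
    · rfl
    · simp only [Fin.mk_one]; rw [z1']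
    · simp only [Fin.reduceFinMk]; rw [z2']
  calc X = X * (Pm p * Qm c p) := by rw [hPQ, Matrix.mul_one]
    _ = Pm p * X' * Qm c p := by rw [← Matrix.mul_assoc, hXP]
    _ = (I * μ 0 : ℂ) • (1 : Matrix (Fin 3) (Fin 3) ℂ) := by
        rw [hs, Matrix.mul_smul, Matrix.mul_one, Matrix.smul_mul, hPQ]

end Pool.Agent.N290.RC
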