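import Mathlib
import Pool.Agent.N290.RC.BallN

/-!
Normal forms of the elements of `u(2,1)` with an isotropic eigenvector.
-/

set_option autoImplicit false

open Metric Set Filter Topology Complex Matrix

namespace Pool.Agent.N290.RC

/-- unipotent matrices preserving the form of the Siegel domain -/
noncomputable def Um (w y : ℂ) : Matrix (Fin 3) (Fin 3) ℂ :=
  !![1, 2 * I * cj y, w; 0, 1, y; 0, 0, 1]

/-- the inverse -/
noncomputable def Ui (w y : ℂ) : Matrix (Fin 3) (Fin 3) ℂ :=
  !![1, -(2 * I * cj y), -w + 2 * I * y * cj y; 0, 1, -y; 0, 0, 1]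

theorem Um_Ui (w y : ℂ) : Um w y * Ui w y = 1 := by
  ext i j
  fin_cases i <;> fin_cases j <;>
    simp [Um, Ui, Matrix.mul_apply, Fin.sum_univ_three]
  ring

theorem qS_cast (v : Fin 3 → ℂ) : (qS v : ℂ) =
    v 1 * cj (v 1) + I / 2 * (v 0 * cj (v 2) - cj (v 0) * v 2) := by
  unfold qS
  have h1 := Complex.sub_conj (v 0 * cj (v 2))
  simp only [map_mul, Complex.conj_conj] at h1
  rw [h1, Complex.mul_conj', Complex.ofReal_sub]
  push_cast
  have hI := Complex.I_mul_I
  linear_combination (-((v 0 * cj (v 2)).im : ℂ)) * hI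

theorem qS_Um {w y : ℂ} (h : w.im = ‖y‖ ^ 2) (v : Fin 3 → ℂ) : qS (Um w y *ᵥ v) = qS v := by
  have e0 : (Um w y *ᵥ v) 0 = v 0 + 2 * I * cj y * v 1 + w * v 2 := by
    simp [Um, Matrix.mulVec, dotProduct, Fin.sum_univ_three]
  have e1 : (Um w y *ᵥ v) 1 = v 1 + y * v 2 := by
    simp [Um, Matrix.mulVec, dotProduct, Fin.sum_univ_three]
  have e2 : (Um w y *ᵥ v) 2 = v 2 := by
    simp [Um, Matrix.mulVec, dotProduct, Fin.sum_univ_three]
  have h1 : ((qS (Um w y *ᵥ v) : ℝ) : ℂ) = (qS v : ℝ) := by
    rw [qS_cast, qS_cast, e0, e1, e2]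
    have h2 : w - cj w = 2 * I * (y * cj y) := by
      rw [Complex.sub_conj, h, Complex.mul_conj']
      push_cast
      ring
    have hI := Complex.I_mul_I
    simp only [map_add, map_mul, Complex.conj_conj, Complex.conj_I, map_ofNat]
    linear_combination (I / 2 * v 2 * cj (v 2)) * h2 + (cj y * v 1 * cj (v 2) +
      y * v 2 * cj (v 1) + y * cj y * v 2 * cj (v 2)) * hI
  exact_mod_cast h1

/-- rotation -/
noncomputable def Rm (o : ℂ) : Matrix (Fin 3) (Fin 3) ℂ := !![1, 0, 0; 0, o, 0; 0, 0, 1]

theorem Rm_Rm {o : ℂ} (ho : o * cj o = 1) : Rm o * Rm (cj o) = 1 := by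
  ext i j
  fin_cases i <;> fin_cases j <;>
    simp [Rm, Matrix.mul_apply, Fin.sum_univ_three]
  exact ho

theorem qS_Rm {o : ℂ} (ho : o * cj o = 1) (v : Fin 3 → ℂ) : qS (Rm o *ᵥ v) = qS v := by
  have e0 : (Rm o *ᵥ v) 0 = v 0 := by
    simp [Rm, Matrix.mulVec, dotProduct, Fin.sum_univ_three]
  have e1 : (Rm o *ᵥ v) 1 = o * v 1 := by
    simp [Rm, Matrix.mulVec, dotProduct, Fin.sum_univ_three]
  have e2 : (Rm o *ᵥ v) 2 = v 2 := by
    simp [Rm, Matrix.mulVec, dotProduct, Fin.sum_univ_three]
  have h1 : ((qS (Rm o *ᵥ v) : ℝ) : ℂ) = (qS v : ℝ) := by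
    rw [qS_cast, qS_cast, e0, e1, e2]
    simp only [map_mul]
    linear_combination (v 1 * cj (v 1)) * ho
  exact_mod_cast h1

/-- the triangular form -/
noncomputable def Tm (l β : ℂ) (θ τ : ℝ) : Matrix (Fin 3) (Fin 3) ℂ :=
  !![l, -(2 * I * β), 2 * τ; 0, I * θ, -cj β; 0, 0, -cj l]

/-- triangular elements are good -/
theorem good_tri {X P Q : Matrix (Fin 3) (Fin 3) ℂ}
    (hns : ∀ l : ℂ, X ≠ l • (1 : Matrix (Fin 3) (Fin 3) ℂ)) (hPQ : P * Q = 1)
    (hq : ∀ v, qB (P *ᵥ v) = qS v) {l β : ℂ} {θ τ : ℝ} (hX : X * P = P * Tm l β θ τ) : Good X := by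
  have hI := Complex.I_mul_I
  have hl : l = l.re + I * l.im := by
    rw [mul_comm]; exact (Complex.re_add_im l).symm
  have hlc : cj l = l.re - I * l.im := by
    conv_lhs => rw [hl]
    simp only [map_add, map_mul, Complex.conj_ofReal, Complex.conj_I]
    ring
  by_cases hν : I * θ + cj l = 0
  · -- no rotation, no dilation
    have hν1 : l.re = 0 := by
      have := congrArg Complex.re hν
      simpa using this
    have hν2 : θ = l.im := by
      have := congrArg Complex.im hν
      simp at this
      linarith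
    obtain ⟨o, c, ho, hc⟩ : ∃ (o : ℂ) (c : ℝ), o * cj o = 1 ∧ β * o = -(c : ℂ) := by
      by_cases hβ : β = 0
      · exact ⟨1, 0, by simp, by simp [hβ]⟩
      · have hn : (‖β‖ : ℂ) ≠ 0 := by exact_mod_cast (norm_ne_zero_iff.2 hβ)
        have hb := Complex.mul_conj' β
        refine ⟨-(cj β) / ‖β‖, ‖β‖, ?_, ?_⟩
        · simp only [map_div₀, map_neg, Complex.conj_conj, Complex.conj_ofReal]
          field_simp
          linear_combination hb
        · field_simp
          linear_combination (-1 : ℂ) * hb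
    have hXP' : X * (P * Rm o) = (P * Rm o) *
        !![I * (l.im : ℂ), 2 * I * c, ((2 * τ : ℝ) : ℂ); 0, I * (l.im : ℂ), (c : ℂ);
          0, 0, I * (l.im : ℂ)] := by
      rw [← Matrix.mul_assoc, hX, Matrix.mul_assoc, Matrix.mul_assoc]
      congr 1
      have hcc : cj β * cj o = -(c : ℂ) := by
        rw [← map_mul, hc, map_neg, Complex.conj_ofReal]
      have hcb : cj β = -(c : ℂ) * o := by
        linear_combination o * hcc - cj β * ho
      ext i j
      fin_cases i <;> fin_cases j <;>
        simp [Rm, Tm, Matrix.mul_apply, Fin.sum_univ_three]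
      · rw [hl, hν1]; simp
      · linear_combination (-2 * I) * hc
      · rw [hν2]; ring
      · rw [hcb]; ring
      · rw [hlc, hν1]; simp
    refine case_Q (Q := Rm (cj o) * Q) ?_ hXP' ?_ (μ := l.im) (c := c) (t := 2 * τ) ?_ rfl
    · rw [Matrix.mul_assoc, ← Matrix.mul_assoc (Rm o), Rm_Rm ho, Matrix.one_mul, hPQ]
    · intro v
      rw [← Matrix.mulVec_mulVec, hq, qS_Rm ho]
    · intro hzero
      have z1 : (2 * τ) ^ 2 = 0 := by nlinarith [sq_nonneg (2 * τ), sq_nonneg c]
      have z2 : c ^ 2 = 0 := by nlinarith [sq_nonneg (2 * τ), sq_nonneg c]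
      have z1' : 2 * τ = 0 := pow_eq_zero_iff (two_ne_zero) |>.1 z1
      have z2' : c = 0 := pow_eq_zero_iff (two_ne_zero) |>.1 z2
      apply hns (I * l.im)
      set S : Matrix (Fin 3) (Fin 3) ℂ := !![I * (l.im : ℂ), 2 * I * c, ((2 * τ : ℝ) : ℂ);
        0, I * (l.im : ℂ), (c : ℂ); 0, 0, I * (l.im : ℂ)] with hS
      have hs : S = (I * l.im : ℂ) • (1 : Matrix (Fin 3) (Fin 3) ℂ) := by
        rw [hS, z1', z2']
        ext i j
        fin_cases i <;> fin_cases j <;> simp
      have hPQ' : (P * Rm o) * (Rm (cj o) * Q) = 1 := by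
        rw [Matrix.mul_assoc, ← Matrix.mul_assoc (Rm o), Rm_Rm ho, Matrix.one_mul, hPQ]
      calc X = X * ((P * Rm o) * (Rm (cj o) * Q)) := by rw [hPQ', Matrix.mul_one]
        _ = (P * Rm o) * S * (Rm (cj o) * Q) := by rw [← Matrix.mul_assoc, hXP']
        _ = (I * l.im : ℂ) • (1 : Matrix (Fin 3) (Fin 3) ℂ) := by
            rw [hs, Matrix.mul_smul, Matrix.mul_one, Matrix.smul_mul, hPQ']
  · set y := cj β / (I * θ + cj l) with hy
    have hy1 : (I * θ + cj l) * y = cj β := by rw [hy]; field_simp
    have hy2 : (l - I * θ) * cj y = β := by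
      have := congrArg cj hy1
      simp only [map_mul, map_add, Complex.conj_conj, Complex.conj_I, Complex.conj_ofReal] at this
      linear_combination this
    by_cases hr : l.re = 0
    · -- rotation, no dilation
      have hθ : θ - l.im ≠ 0 := by
        intro h0
        apply hν
        rw [hlc, hr]
        have : (θ : ℂ) = l.im := by exact_mod_cast (sub_eq_zero.1 h0)
        rw [this]
        push_cast
        ring
      set w : ℂ := I * (‖y‖ ^ 2 : ℝ) with hw
      have hwim : w.im = ‖y‖ ^ 2 := by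
        rw [hw, Complex.I_mul_im, Complex.ofReal_re]
      have hyy := Complex.mul_conj' y
      have hl' : l = I * l.im := by rw [hr] at hl; simpa using hl
      have hlc' : cj l = -(I * l.im) := by rw [hr] at hlc; simpa using hlc
      set t : ℝ := 2 * τ - 2 * (θ - l.im) * ‖y‖ ^ 2 with ht
      have hXP' : X * (P * Um w y) = (P * Um w y) *
          !![I * (l.im : ℂ), 0, (t : ℂ); 0, I * θ, 0; 0, 0, I * (l.im : ℂ)] := by
        rw [← Matrix.mul_assoc, hX, Matrix.mul_assoc, Matrix.mul_assoc]
        congr 1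
        ext i j
        fin_cases i <;> fin_cases j <;>
          simp [Um, Tm, Matrix.mul_apply, Fin.sum_univ_three]
        · exact hl'
        · linear_combination (2 * I) * hy2
        · rw [ht]
          push_cast
          linear_combination w * hl' + (2 * I * y) * hy2 + (-2 * I * y * cj y) * hl' +
            (2 * (θ - l.im) * y * cj y) * hI - (2 * (θ - l.im)) * hyy
        · linear_combination hy1 - y * hlc'
        · linear_combination -hlc'
      refine case_P (Q := Ui w y * Q) ?_ hXP' ?_ (μ := l.im) (θ := θ) (t := t) ?_ rfl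
      · rw [Matrix.mul_assoc, ← Matrix.mul_assoc (Um w y), Um_Ui, Matrix.one_mul, hPQ]
      · intro v
        rw [← Matrix.mulVec_mulVec, hq, qS_Um hwim]
      · have : 0 < (θ - l.im) ^ 2 := by positivity
        positivity
    · -- dilation
      have hrC : (l.re : ℂ) ≠ 0 := by exact_mod_cast hr
      set w : ℂ := (I * β * y - τ) / l.re with hw
      have hwim : w.im = ‖y‖ ^ 2 := by
        have h1 : ((w.im : ℝ) : ℂ) = ((‖y‖ ^ 2 : ℝ) : ℂ) := by
          have h2 := Complex.sub_conj w
          have h3 : w - cj w = 2 * I * (y * cj y) := by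
            rw [hw]
            simp only [map_div₀, map_sub, map_mul, Complex.conj_I, Complex.conj_ofReal]
            field_simp
            have h5 : l + cj l = 2 * l.re := by
              have := Complex.add_conj l
              push_cast at this
              exact this
            linear_combination (-I * y) * hy2 + (-I * cj y) * hy1 + (I * y * cj y) * h5
          rw [h3, Complex.mul_conj'] at h2
          push_cast at h2 ⊢
          have h4 : (2 * I : ℂ) ≠ 0 := by simp
          apply mul_left_cancel₀ h4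
          linear_combination -h2
        exact_mod_cast h1
      have hwr : w * l.re = I * β * y - τ := by rw [hw]; field_simp
      have hXP' : X * (P * Um w y) = (P * Um w y) *
          Matrix.diagonal ![(l.re : ℂ) + I * l.im, I * θ, -l.re + I * l.im] := by
        rw [← Matrix.mul_assoc, hX, Matrix.mul_assoc, Matrix.mul_assoc]
        congr 1
        ext i j
        rw [Matrix.mul_diagonal]
        fin_cases i <;> fin_cases j <;>
          simp [Um, Tm, Matrix.mul_apply, Fin.sum_univ_three]
        · exact hl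
        · linear_combination (2 * I) * hy2
        · linear_combination (2 : ℂ) * hwr + w * hl
        · linear_combination hy1 - y * hlc
        · rw [hlc]; ring
      refine case_H (Q := Ui w y * Q) ?_ hXP' ?_ (μ := l.im) (θ := θ) (r := l.re) hr rfl
      · rw [Matrix.mul_assoc, ← Matrix.mul_assoc (Um w y), Um_Ui, Matrix.one_mul, hPQ]
      · intro v
        rw [← Matrix.mulVec_mulVec, hq, qS_Um hwim]

end Pool.Agent.N290.RC
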