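import Mathlib
import Pool.Agent.N290.RC.BallO

/-!
The localisation theorem on the ball of `ℂ²` for functions invariant under a one-parameter group.
-/

set_option autoImplicit false

open Metric Set Filter Topology Complex Matrix

namespace Pool.Agent.N290.RC

/-- elements with an isotropic eigenvector -/
theorem good_null {X : Matrix (Fin 3) (Fin 3) ℂ} (hX : Sk X)
    (hns : ∀ l : ℂ, X ≠ l • (1 : Matrix (Fin 3) (Fin 3) ℂ)) {e : Fin 3 → ℂ} {l : ℂ}
    (he : X *ᵥ e = l • e) (he0 : e ≠ 0) (hnull : qB e = 0) : Good X := by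
  have hI := Complex.I_mul_I
  have hee : Bf e e = 0 := by rw [Bf_self, hnull]; simp
  have hr : 0 < ‖e 0‖ ^ 2 := by
    by_contra h
    have h0 : ‖e 0‖ ^ 2 = 0 := le_antisymm (not_lt.1 h) (sq_nonneg _)
    apply he0
    unfold qB at hnull
    have e1 : ‖e 1‖ ^ 2 = 0 := by nlinarith [sq_nonneg ‖e 1‖, sq_nonneg ‖e 2‖]
    have e2 : ‖e 2‖ ^ 2 = 0 := by nlinarith [sq_nonneg ‖e 1‖, sq_nonneg ‖e 2‖]
    ext i
    fin_cases i
    · simpa using h0
    · simpa using e1
    · simpa using e2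
  set a : ℂ := e 0 * cj (e 0) with ha
  have haR : a = ((‖e 0‖ ^ 2 : ℝ) : ℂ) := by
    rw [ha, Complex.mul_conj']; push_cast; ring
  have ha0 : a ≠ 0 := by rw [haR]; exact_mod_cast hr.ne'
  have hac : cj a = a := by rw [haR, Complex.conj_ofReal]
  have hsum : e 1 * cj (e 1) + e 2 * cj (e 2) = a := by
    unfold Bf at hee
    linear_combination hee
  set f : Fin 3 → ℂ := ![-e 0, e 1, e 2] with hf
  have hef : Bf e f = 2 * a := by
    unfold Bf
    simp only [hf, Matrix.cons_val_zero, Matrix.cons_val_one, Matrix.cons_val_two,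
      Matrix.head_cons, Matrix.tail_cons, map_neg]
    linear_combination hsum
  have hff : Bf f f = 0 := by
    unfold Bf
    simp only [hf, Matrix.cons_val_zero, Matrix.cons_val_one, Matrix.cons_val_two,
      Matrix.head_cons, Matrix.tail_cons, map_neg]
    linear_combination hsum
  have hfe : Bf f e = 2 * a := by
    rw [← Bf_conj, hef]
    simp only [map_mul, map_ofNat, hac]
  set κ : ℂ := -I / (4 * a) with hκ
  have hκc : cj κ = I / (4 * a) := by
    rw [hκ]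
    simp only [map_div₀, map_neg, Complex.conj_I, map_mul, map_ofNat, hac]
    ring
  set p2 : Fin 3 → ℂ := κ • f with hp2
  set p1 : Fin 3 → ℂ := (1 / (2 * a)) • cr e f with hp1
  have h00 : Bf e e = 0 := hee
  have h02 : Bf e p2 = I / 2 := by
    rw [hp2, Bf_smul', hκc, hef]; field_simp; ring
  have h20 : Bf p2 e = -(I / 2) := by
    rw [← Bf_conj, h02]
    simp only [map_div₀, Complex.conj_I, map_ofNat]
    ring
  have h22 : Bf p2 p2 = 0 := by
    rw [hp2, Bf_smul, Bf_smul', hff]; ring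
  have h01 : Bf e p1 = 0 := by
    rw [hp1, Bf_smul', cr_perp, mul_zero]
  have h10 : Bf p1 e = 0 := Bf_zero_symm h01
  have h21 : Bf p2 p1 = 0 := by
    rw [hp1, hp2, Bf_smul, Bf_smul', cr_perp', mul_zero, mul_zero]
  have h12 : Bf p1 p2 = 0 := Bf_zero_symm h21
  have h11 : Bf p1 p1 = 1 := by
    rw [hp1, Bf_smul, Bf_smul', cr_self, hee, hef, hfe]
    simp only [map_div₀, map_one, map_mul, map_ofNat, hac]
    field_simp
    ring
  set p : Fin 3 → Fin 3 → ℂ := ![e, p1, p2] with hp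
  set c : Fin 3 → ℂ := ![-2 * I, 1, 2 * I] with hc
  set q : Fin 3 → Fin 3 → ℂ := ![p2, p1, e] with hqd
  have hQP : Qm c q * Pm p = 1 := by
    ext i j
    rw [QP_apply]
    fin_cases i <;> fin_cases j <;>
      simp [hp, hc, hqd, h00, h01, h02, h10, h11, h12, h20, h21, h22]
    · linear_combination (-1 : ℂ) * hI
    · linear_combination (-1 : ℂ) * hI
  have hPQ : Pm p * Qm c q = 1 := mul_eq_one_comm.1 hQP
  set X' := Qm c q * (X * Pm p) with hX'
  have hXP : X * Pm p = Pm p * X' := by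
    rw [hX', ← Matrix.mul_assoc, hPQ, Matrix.one_mul]
  have b00 : Bf (X *ᵥ e) e = 0 := by rw [he, Bf_smul, h00]; ring
  have b01 : Bf (X *ᵥ e) p1 = 0 := by rw [he, Bf_smul, h01]; ring
  have b02 : Bf (X *ᵥ e) p2 = l * (I / 2) := by rw [he, Bf_smul, h02]
  have b10 : Bf (X *ᵥ p1) e = 0 := by rw [Sk_apply hX, b01]; simp
  have b20 : Bf (X *ᵥ p2) e = cj l * (I / 2) := by
    rw [Sk_apply hX, b02]
    simp only [map_mul, map_div₀, Complex.conj_I, map_ofNat]
    ring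
  set β := Bf (X *ᵥ p1) p2 with hβ
  have b21 : Bf (X *ᵥ p2) p1 = -cj β := Sk_apply hX p2 p1
  set θ : ℝ := (Bf (X *ᵥ p1) p1).im with hθ
  have b11 : Bf (X *ᵥ p1) p1 = I * θ := im_of_skew (Sk_apply hX p1 p1)
  set τ : ℝ := (Bf (X *ᵥ p2) p2).im with hτ
  have b22 : Bf (X *ᵥ p2) p2 = I * τ := im_of_skew (Sk_apply hX p2 p2)
  have htri : X' = Tm l β θ τ := by
    ext i j
    rw [hX', QXP_apply]
    fin_cases i <;> fin_cases j <;>
      simp [hp, hc, hqd, Tm, b00, b01, b02, b10, b11, b20, b21, b22, ← hβ]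
    · linear_combination (-l) * hI
    · linear_combination (-2 * (τ : ℂ)) * hI
    · linear_combination (cj l) * hI
  have hq : ∀ v, qB (Pm p *ᵥ v) = qS v := by
    intro v
    have h3 : Bf (Pm p *ᵥ v) (Pm p *ᵥ v) = (qS v : ℝ) := by
      have e1 : ∀ y, Bf (Pm p *ᵥ v) y = v 0 * Bf e y + v 1 * Bf p1 y + v 2 * Bf p2 y := by
        intro y
        rw [Pm_mulVec, Bf_add, Bf_add, Bf_smul, Bf_smul, Bf_smul]
        rfl
      have e2 : ∀ x, Bf x (Pm p *ᵥ v) = cj (v 0) * Bf x e + cj (v 1) * Bf x p1 +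
          cj (v 2) * Bf x p2 := by
        intro x
        rw [← Bf_conj, e1]
        simp only [map_add, map_mul, Bf_conj]
      rw [e1, e2, e2, e2, h00, h01, h02, h10, h11, h12, h20, h21, h22, qS_cast]
      ring
    rw [Bf_self] at h3
    exact_mod_cast h3
  exact good_tri hns hPQ hq (by rw [← htri]; exact hXP)

/-- **Classification**: the localisation theorem holds for all non-scalar elements of `u(2,1)`. -/
theorem good_all {X : Matrix (Fin 3) (Fin 3) ℂ} (hX : Sk X)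
    (hns : ∀ l : ℂ, X ≠ l • (1 : Matrix (Fin 3) (Fin 3) ℂ)) : Good X := by
  -- an eigenvector of nonpositive length
  have key : ∃ (e : Fin 3 → ℂ) (l : ℂ), e ≠ 0 ∧ X *ᵥ e = l • e ∧ qB e ≤ 0 := by
    obtain ⟨v, -, hv0, l, hl⟩ := eig_in X ⊤ (fun x _ => Submodule.mem_top)
      ⟨![1, 0, 0], Submodule.mem_top, fun h => by
        have := congrFun h 0
        simp at this⟩
    by_cases hv : qB v ≤ 0
    · exact ⟨v, l, hv0, hl, hv⟩
    push Not at hv
    obtain ⟨v', hv'p, hv'0, l', hl'⟩ := eig_in X (perp v) (perp_inv hX hl) (perp_ne v)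
    by_cases hv' : qB v' ≤ 0
    · exact ⟨v', l', hv'0, hl', hv'⟩
    push Not at hv'
    have hp' : Bf v' v = 0 := hv'p
    have hp : Bf v v' = 0 := Bf_zero_symm hp'
    set x := cr v v' with hx
    have hxx : Bf x x = -(qB v * qB v' : ℝ) := by
      rw [hx, cr_self, hp, Bf_self, Bf_self]
      push_cast
      ring
    have hxq : qB x = -(qB v * qB v') := by
      rw [Bf_self] at hxx
      exact_mod_cast hxx
    have hpos : 0 < qB v * qB v' := mul_pos hv hv'
    have hx0 : x ≠ 0 := by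
      intro h
      rw [h] at hxq
      have : qB (0 : Fin 3 → ℂ) = 0 := by simp [qB]
      rw [this] at hxq
      linarith
    have hW : ∀ y ∈ perp v ⊓ perp v', X *ᵥ y ∈ perp v ⊓ perp v' := fun y hy =>
      ⟨perp_inv hX hl y hy.1, perp_inv hX hl' y hy.2⟩
    have hxW : x ∈ perp v ⊓ perp v' :=
      ⟨Bf_zero_symm (cr_perp v v'), Bf_zero_symm (cr_perp' v v')⟩
    obtain ⟨u, huW, hu0, l'', hl''⟩ := eig_in X (perp v ⊓ perp v') hW ⟨x, hxW, hx0⟩
    refine ⟨u, l'', hu0, hl'', ?_⟩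
    -- the Gram determinant of `v, v', u`
    have hu1 : Bf u v = 0 := huW.1
    have hu2 : Bf u v' = 0 := huW.2
    have hgram : Bf v v * Bf v' v' * Bf u u =
        -(Bf (cr v v') u * cj (Bf (cr v v') u)) := by
      have h1 : Bf v v * (Bf v' v' * Bf u u - Bf v' u * Bf u v') -
          Bf v v' * (Bf v' v * Bf u u - Bf v' u * Bf u v) +
          Bf v u * (Bf v' v * Bf u v' - Bf v' v' * Bf u v) =
          -(Bf (cr v v') u * cj (Bf (cr v v') u)) := by
        unfold Bf cr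
        simp only [Matrix.cons_val_zero, Matrix.cons_val_one, Matrix.cons_val_two,
          Matrix.head_cons, Matrix.tail_cons, map_neg, map_sub, map_mul, map_add,
          Complex.conj_conj]
        ring
      rw [hp, hp', hu1, hu2] at h1
      linear_combination h1
    rw [Bf_self, Bf_self, Bf_self, Complex.mul_conj'] at hgram
    have h2 : qB v * qB v' * qB u = -‖Bf (cr v v') u‖ ^ 2 := by exact_mod_cast hgram
    by_contra hcon
    push Not at hcon
    have h3 : 0 < qB v * qB v' * qB u := mul_pos hpos hcon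
    have h4 : 0 ≤ ‖Bf (cr v v') u‖ ^ 2 := by positivity
    linarith
  obtain ⟨e, l, he0, hel, hq⟩ := key
  rcases hq.lt_or_eq with h | h
  · exact good_neg hX hns hel h
  · exact good_null hX hns hel he0 h

/-- the element of `u(2,1)` with parameters `b`, `α`, `γ` -/
noncomputable def Xm (b₁ b₂ γ : ℂ) (α₁ α₂ : ℝ) : Matrix (Fin 3) (Fin 3) ℂ :=
  !![0, cj b₁, cj b₂; b₁, I * α₁, γ; b₂, -cj γ, I * α₂]

theorem Xm_sk (b₁ b₂ γ : ℂ) (α₁ α₂ : ℝ) : Sk (Xm b₁ b₂ γ α₁ α₂) := by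
  intro x y
  have e0 : ∀ z : Fin 3 → ℂ, (Xm b₁ b₂ γ α₁ α₂ *ᵥ z) 0 = cj b₁ * z 1 + cj b₂ * z 2 := by
    intro z
    simp [Xm, Matrix.mulVec, dotProduct, Fin.sum_univ_three]
  have e1 : ∀ z : Fin 3 → ℂ, (Xm b₁ b₂ γ α₁ α₂ *ᵥ z) 1 = b₁ * z 0 + I * α₁ * z 1 + γ * z 2 := by
    intro z
    simp [Xm, Matrix.mulVec, dotProduct, Fin.sum_univ_three]
  have e2 : ∀ z : Fin 3 → ℂ, (Xm b₁ b₂ γ α₁ α₂ *ᵥ z) 2 =
      b₂ * z 0 - cj γ * z 1 + I * α₂ * z 2 := by
    intro z
    simp [Xm, Matrix.mulVec, dotProduct, Fin.sum_univ_three]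
    ring
  unfold Bf
  rw [e0, e1, e2, e0, e1, e2]
  simp only [map_add, map_sub, map_mul, Complex.conj_conj, Complex.conj_I, Complex.conj_ofReal]
  ring

theorem Xm_ns {b₁ b₂ γ : ℂ} {α₁ α₂ : ℝ} (h : ¬(b₁ = 0 ∧ b₂ = 0 ∧ γ = 0 ∧ α₁ = 0 ∧ α₂ = 0)) :
    ∀ l : ℂ, Xm b₁ b₂ γ α₁ α₂ ≠ l • (1 : Matrix (Fin 3) (Fin 3) ℂ) := by
  intro l hl
  apply h
  have h00 := congrFun (congrFun hl 0) 0
  have h10 := congrFun (congrFun hl 1) 0
  have h20 := congrFun (congrFun hl 2) 0
  have h11 := congrFun (congrFun hl 1) 1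
  have h12 := congrFun (congrFun hl 1) 2
  have h22 := congrFun (congrFun hl 2) 2
  simp [Xm] at h00 h10 h20 h11 h12 h22
  rw [← h00] at h11 h22
  refine ⟨h10, h20, h12, ?_, ?_⟩
  · simpa using h11
  · simpa using h22

/-- the vector field of `Xm` -/
theorem VX_Xm (b₁ b₂ γ : ℂ) (α₁ α₂ : ℝ) (z : ℂ × ℂ) : VX (Xm b₁ b₂ γ α₁ α₂) z =
    (b₁ - (z.1 * cj b₁ + z.2 * cj b₂) * z.1 + I * α₁ * z.1 + γ * z.2,
      b₂ - (z.1 * cj b₁ + z.2 * cj b₂) * z.2 - cj γ * z.1 + I * α₂ * z.2) := by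
  unfold VX
  ext
  · simp [Xm, lift, Matrix.mulVec, dotProduct, Fin.sum_univ_three]
    ring
  · simp [Xm, lift, Matrix.mulVec, dotProduct, Fin.sum_univ_three]
    ring

end Pool.Agent.N290.RC
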